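import Mathlib

set_option autoImplicit false

namespace Pool.Agent.P.MP_c3cac0_an

open Finset Polynomial ComplexConjugate

noncomputable section

/-- the self-inversive quadratic attached to a point -/
def g (a z : ℂ) : ℂ := (z - a) * (1 - conj a * z)

/-- numerator of the derivative -/
def N {m : ℕ} (τ : Fin m → ℂ) (z : ℂ) : ℂ :=
  ∏ k, g (τ k) z + ∑ k, (1 - conj (τ k) * τ k) * z * ∏ l ∈ univ.erase k, g (τ l) z

def Q {m : ℕ} (τ : Fin m → ℂ) (z : ℂ) : ℂ := ∏ k, (z - τ k)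

def Qs {m : ℕ} (τ : Fin m → ℂ) (z : ℂ) : ℂ := ∏ k, (1 - conj (τ k) * z)

lemma one_sub_ne {a z : ℂ} (ha : ‖a‖ < 1) (hz : ‖z‖ ≤ 1) : 1 - conj a * z ≠ 0 := by
  intro h
  have h1 : conj a * z = 1 := by linear_combination -h
  have h2 : ‖conj a * z‖ = 1 := by rw [h1]; simp
  rw [norm_mul, Complex.norm_conj] at h2
  nlinarith [norm_nonneg a, norm_nonneg z]

lemma hasDerivAt_gen {𝕜 : Type} [NontriviallyNormedField 𝕜] {m : ℕ} (τ σ : Fin m → 𝕜) (z : 𝕜)
    (h : ∀ k, 1 - σ k * z ≠ 0) :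
    HasDerivAt (fun z => z * ∏ k, (z - τ k) / (1 - σ k * z))
      (∏ k, (z - τ k) / (1 - σ k * z) +
        z * ∑ k, (∏ l ∈ univ.erase k, (z - τ l) / (1 - σ l * z)) *
          ((1 - σ k * τ k) / (1 - σ k * z) ^ 2)) z := by
  have h1 : ∀ k ∈ (univ : Finset (Fin m)), HasDerivAt (fun z => (z - τ k) / (1 - σ k * z))
      ((1 - σ k * τ k) / (1 - σ k * z) ^ 2) z := by
    intro k _
    have a1 : HasDerivAt (fun z => z - τ k) 1 z := (hasDerivAt_id z).sub_const _
    have a2 : HasDerivAt (fun z => 1 - σ k * z) (-(σ k * 1)) z :=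
      ((hasDerivAt_id z).const_mul (σ k)).const_sub 1
    have a3 := a1.div a2 (h k)
    refine a3.congr_deriv ?_
    congr 1; ring
  have h2 := HasDerivAt.fun_finsetProd h1
  have h3 := (hasDerivAt_id z).mul h2
  refine h3.congr_deriv ?_
  simp [smul_eq_mul]

lemma deriv_eq {m : ℕ} (τ : Fin m → ℂ) (z : ℂ) (h : ∀ k, 1 - conj (τ k) * z ≠ 0) :
    deriv (fun z : ℂ => z * ∏ k, (z - τ k) / (1 - conj (τ k) * z)) z = N τ z / Qs τ z ^ 2 := by
  rw [(hasDerivAt_gen τ (fun k => conj (τ k)) z h).deriv]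
  have hQ : Qs τ z ≠ 0 := prod_ne_zero_iff.2 fun k _ => h k
  rw [eq_div_iff (pow_ne_zero 2 hQ)]
  have e : ∀ k, (z - τ k) / (1 - conj (τ k) * z) * (1 - conj (τ k) * z) ^ 2 = g (τ k) z := by
    intro k; have := h k; unfold g; field_simp
  unfold N Qs
  rw [add_mul, ← prod_pow, ← prod_mul_distrib, mul_assoc, sum_mul, mul_sum]
  congr 1
  · exact prod_congr rfl fun k _ => e k
  · refine sum_congr rfl fun k _ => ?_
    rw [← mul_prod_erase univ (fun l => (1 - conj (τ l) * z) ^ 2) (mem_univ k)]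
    rw [← prod_congr rfl fun l (_ : l ∈ univ.erase k) => e l, prod_mul_distrib]
    have := h k
    generalize (∏ l ∈ univ.erase k, (z - τ l) / (1 - conj (τ l) * z)) = A
    generalize (∏ l ∈ univ.erase k, (1 - conj (τ l) * z) ^ 2) = B
    generalize (1 - conj (τ k) * z) = D at this ⊢
    field_simp

lemma N_zero {m : ℕ} (τ : Fin m → ℂ) : N τ 0 = ∏ k, (-τ k) := by
  simp [N, g]

lemma deriv_zero {m : ℕ} (τ : Fin m → ℂ) :
    ‖deriv (fun z : ℂ => z * ∏ k, (z - τ k) / (1 - conj (τ k) * z)) 0‖ = ∏ k, ‖τ k‖ := by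
  rw [deriv_eq τ 0 (by simp), N_zero]
  simp [Qs]

lemma g_circle (a : ℂ) {z : ℂ} (hz : ‖z‖ = 1) : g a z = z * ((‖z - a‖ ^ 2 : ℝ) : ℂ) := by
  have h1 : z * conj z = 1 := by
    rw [Complex.mul_conj, Complex.normSq_eq_norm_sq, hz]; simp
  have h2 : ((‖z - a‖ ^ 2 : ℝ) : ℂ) = (z - a) * conj (z - a) := by
    rw [Complex.mul_conj, Complex.normSq_eq_norm_sq]
  rw [h2, map_sub]; unfold g
  linear_combination (-(z - a)) * h1

lemma one_sub_conj_mul (a : ℂ) : 1 - conj a * a = ((1 - ‖a‖ ^ 2 : ℝ) : ℂ) := by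
  rw [mul_comm, Complex.mul_conj, Complex.normSq_eq_norm_sq]; push_cast; ring

/-- the real factor of `N` on the unit circle -/
def Nr {m : ℕ} (τ : Fin m → ℂ) (z : ℂ) : ℝ :=
  ∏ k, ‖z - τ k‖ ^ 2 + ∑ k, (1 - ‖τ k‖ ^ 2) * ∏ l ∈ univ.erase k, ‖z - τ l‖ ^ 2

lemma N_circle {m : ℕ} (τ : Fin m → ℂ) {z : ℂ} (hz : ‖z‖ = 1) :
    N τ z = z ^ m * (Nr τ z : ℂ) := by
  unfold N Nr
  simp_rw [g_circle _ hz, one_sub_conj_mul, prod_mul_distrib, prod_const]
  push_cast
  rw [mul_add, mul_sum]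
  congr 1
  · simp
  · refine sum_congr rfl fun k _ => ?_
    have hm : 1 ≤ m := Nat.one_le_iff_ne_zero.2 (by rintro rfl; exact k.elim0)
    rw [card_erase_of_mem (mem_univ k), card_univ, Fintype.card_fin]
    obtain ⟨n, rfl⟩ : ∃ n, m = n + 1 := ⟨m - 1, by omega⟩
    simp only [Nat.add_sub_cancel]
    ring

lemma sub_ne_circle {a z : ℂ} (ha : ‖a‖ < 1) (hz : ‖z‖ = 1) : z - a ≠ 0 := by
  intro h
  have : z = a := by linear_combination h
  rw [this] at hz; linarith

lemma Nr_pos {m : ℕ} (τ : Fin m → ℂ) (hτ : ∀ k, ‖τ k‖ < 1) {z : ℂ} (hz : ‖z‖ = 1) :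
    0 < Nr τ z := by
  unfold Nr
  have h1 : 0 < ∏ k, ‖z - τ k‖ ^ 2 :=
    prod_pos fun k _ => pow_pos (norm_pos_iff.2 (sub_ne_circle (hτ k) hz)) 2
  have h2 : 0 ≤ ∑ k, (1 - ‖τ k‖ ^ 2) * ∏ l ∈ univ.erase k, ‖z - τ l‖ ^ 2 :=
    sum_nonneg fun k _ => mul_nonneg (by nlinarith [hτ k, norm_nonneg (τ k)])
      (prod_nonneg fun l _ => by positivity)
  linarith

lemma circle_infinite : Set.Infinite {z : ℂ | ‖z‖ = 1} := by
  have hinj : Set.InjOn (fun t : ℝ => (⟨t, Real.sqrt (1 - t ^ 2)⟩ : ℂ)) (Set.Ioo 0 1) := by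
    intro a _ b _ h
    exact congrArg Complex.re h
  refine ((Set.Ioo_infinite (zero_lt_one (α := ℝ))).image hinj).mono ?_
  rintro _ ⟨t, ht, rfl⟩
  have h1 : 0 ≤ 1 - t ^ 2 := by nlinarith [ht.1, ht.2]
  show ‖(⟨t, Real.sqrt (1 - t ^ 2)⟩ : ℂ)‖ = 1
  rw [Complex.norm_def, Complex.normSq_mk, Real.mul_self_sqrt h1]
  have : t * t + (1 - t ^ 2) = 1 := by ring
  rw [this]; simp

lemma reflect_of_circle (p : ℂ[X]) (n : ℕ) (hp : p.natDegree ≤ n)
    (h : ∀ z : ℂ, ‖z‖ = 1 → p.eval z = z ^ n * conj (p.eval z)) (z : ℂ) (hz : z ≠ 0) :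
    p.eval z = z ^ n * conj (p.eval (conj z)⁻¹) := by
  have key : ∀ z : ℂ, z ≠ 0 →
      (reflect n (p.map (starRingEnd ℂ))).eval z = z ^ n * conj (p.eval (conj z)⁻¹) := by
    intro z hz
    have hz' : z⁻¹ ≠ 0 := inv_ne_zero hz
    let _ : Invertible (z⁻¹) := invertibleOfNonzero hz'
    have e := eval₂_reflect_mul_pow (RingHom.id ℂ) (z⁻¹) n (p.map (starRingEnd ℂ))
      (natDegree_map_le.trans hp)
    rw [invOf_eq_inv, inv_inv, eval₂_id, eval₂_id] at e
    have e2 : (p.map (starRingEnd ℂ)).eval z⁻¹ = conj (p.eval (conj z)⁻¹) := by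
      have : z⁻¹ = conj ((conj z)⁻¹) := by simp
      rw [this, eval_map, eval₂_hom]
    rw [← e2, ← e, inv_pow]
    field_simp
  have hpq : p = reflect n (p.map (starRingEnd ℂ)) := by
    apply eq_of_infinite_eval_eq
    refine circle_infinite.mono ?_
    intro w hw
    have hw' : ‖w‖ = 1 := hw
    have hw0 : w ≠ 0 := by rintro rfl; simp at hw'
    have h1 : (conj w)⁻¹ = w := by
      apply inv_eq_of_mul_eq_one_right
      rw [mul_comm, Complex.mul_conj, Complex.normSq_eq_norm_sq, hw']; simp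
    show p.eval w = _
    rw [key w hw0, h1]
    exact h w hw'
  rw [← key z hz, ← hpq]

lemma fejer_riesz (m : ℕ) : ∀ p : ℂ[X], p.natDegree ≤ 2 * m → p.eval 0 ≠ 0 →
    (∀ z : ℂ, ‖z‖ = 1 → p.eval z = z ^ (2 * m) * conj (p.eval z)) →
    (∀ z : ℂ, ‖z‖ = 1 → p.eval z ≠ 0) →
    ∃ (K : ℂ) (ζ : Fin m → ℂ), (∀ i, ‖ζ i‖ < 1) ∧ ∀ z, p.eval z = K * ∏ i, g (ζ i) z := by
  induction m with
  | zero =>
    intro p hp _ _ _
    refine ⟨p.coeff 0, Fin.elim0, fun i => i.elim0, fun z => ?_⟩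
    have : p = C (p.coeff 0) := eq_C_of_natDegree_le_zero hp
    rw [this]; simp
  | succ m ih =>
    intro p hp h0 hs hc
    have hr := reflect_of_circle p _ hp hs
    have hroot : ∃ z, p.eval z = 0 := by
      by_contra hne
      push Not at hne
      have hd : p.degree = 0 := by
        by_contra hd
        obtain ⟨z, hz⟩ := IsAlgClosed.exists_root p hd
        exact hne z hz
      have hC : p = C (p.coeff 0) := eq_C_of_degree_eq_zero hd
      have h2 := hr 2 two_ne_zero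
      rw [hC] at h2 h0
      simp only [eval_C] at h2 h0
      have h3 := congrArg (fun w : ℂ => ‖w‖) h2
      simp only [norm_mul, norm_pow, Complex.norm_conj, Complex.norm_ofNat] at h3
      have h4 : 0 < ‖p.coeff 0‖ := norm_pos_iff.2 h0
      have h5 : (1 : ℝ) < 2 ^ (2 * (m + 1)) := one_lt_pow₀ (by norm_num) (by omega)
      nlinarith
    have hroot' : ∃ z, p.eval z = 0 ∧ ‖z‖ < 1 := by
      obtain ⟨z, hz⟩ := hroot
      have hz0 : z ≠ 0 := by rintro rfl; exact h0 hz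
      rcases lt_trichotomy ‖z‖ 1 with h | h | h
      · exact ⟨z, hz, h⟩
      · exact absurd hz (hc z h)
      · refine ⟨(conj z)⁻¹, ?_, ?_⟩
        · have := hr z hz0
          rw [hz] at this
          simpa [hz0] using this.symm
        · rw [norm_inv, Complex.norm_conj]
          exact inv_lt_one_of_one_lt₀ h
    obtain ⟨a, ha, ha1⟩ := hroot'
    have ha0 : a ≠ 0 := by rintro rfl; exact h0 ha
    have hca : conj a ≠ 0 := by simpa using ha0
    have hb : p.eval (conj a)⁻¹ = 0 := by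
      have := hr a ha0
      rw [ha] at this
      simpa [ha0] using this.symm
    obtain ⟨p1, hp1⟩ : (X - C a) ∣ p := dvd_iff_isRoot.2 ha
    have hab : (conj a)⁻¹ - a ≠ 0 := by
      intro h
      have h1 : (conj a)⁻¹ = a := by linear_combination h
      have h2 : 1 - conj a * a = 0 := by
        have h3 : conj a * (conj a)⁻¹ = 1 := mul_inv_cancel₀ hca
        rw [h1] at h3
        rw [h3, sub_self]
      exact one_sub_ne ha1 ha1.le h2
    have hb1 : p1.eval (conj a)⁻¹ = 0 := by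
      rw [hp1, eval_mul, eval_sub, eval_X, eval_C] at hb
      exact (mul_eq_zero.1 hb).resolve_left hab
    obtain ⟨p2, hp2⟩ : (X - C (conj a)⁻¹) ∣ p1 := dvd_iff_isRoot.2 hb1
    set q : ℂ[X] := C (-(conj a)⁻¹) * p2 with hq
    have hpq : ∀ z, p.eval z = g a z * q.eval z := by
      intro z
      rw [hp1, hp2, hq]
      simp only [eval_mul, eval_sub, eval_X, eval_C, g]
      field_simp
      ring
    have hp0 : p ≠ 0 := by rintro rfl; simp at h0
    have hp20 : p2 ≠ 0 := by rintro rfl; apply hp0; rw [hp1, hp2]; simp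
    have hdeg : q.natDegree ≤ 2 * m := by
      have e1 : p.natDegree = 1 + (1 + p2.natDegree) := by
        rw [hp1, hp2, natDegree_mul (X_sub_C_ne_zero a) (mul_ne_zero (X_sub_C_ne_zero _) hp20),
          natDegree_mul (X_sub_C_ne_zero _) hp20, natDegree_X_sub_C, natDegree_X_sub_C]
      have e2 : q.natDegree ≤ p2.natDegree := natDegree_C_mul_le _ _
      omega
    obtain ⟨K, ζ, hζ, hK⟩ := ih q hdeg
      (by intro h; apply h0; rw [hpq, h, mul_zero])
      (by
        intro z hz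
        have e := hs z hz
        rw [hpq, g_circle a hz, map_mul, map_mul, Complex.conj_ofReal] at e
        have h1 : z * conj z = 1 := by
          rw [Complex.mul_conj, Complex.normSq_eq_norm_sq, hz]; simp
        have hz0 : z ≠ 0 := by rintro rfl; simp at hz
        have h2 : ((‖z - a‖ ^ 2 : ℝ) : ℂ) ≠ 0 := by
          exact_mod_cast pow_ne_zero 2 (norm_ne_zero_iff.2 (sub_ne_circle ha1 hz))
        apply mul_left_cancel₀ (mul_ne_zero hz0 h2)
        rw [e]
        linear_combination (z ^ (2 * m) * z * ((‖z - a‖ ^ 2 : ℝ) : ℂ) * conj (q.eval z)) * h1)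
      (by intro z hz h; apply hc z hz; rw [hpq, h, mul_zero])
    refine ⟨K, Fin.cons a ζ, ?_, ?_⟩
    · intro i
      refine Fin.cases ?_ (fun j => ?_) i
      · simpa using ha1
      · simpa using hζ j
    · intro z
      rw [hpq, hK, Fin.prod_univ_succ]
      simp only [Fin.cons_zero, Fin.cons_succ]
      ring

lemma N_factor {m : ℕ} (τ : Fin m → ℂ) (hτ : ∀ k, τ k ≠ 0 ∧ ‖τ k‖ < 1) :
    ∃ (K : ℂ) (ζ : Fin m → ℂ), (∀ i, ‖ζ i‖ < 1) ∧ ∀ z, N τ z = K * ∏ i, g (ζ i) z := by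
  set G : Fin m → ℂ[X] := fun k => (X - C (τ k)) * (1 - C (conj (τ k)) * X) with hG
  have hGd : ∀ k, (G k).natDegree ≤ 2 := by
    intro k
    simp only [hG]
    compute_degree
  have hGe : ∀ k z, (G k).eval z = g (τ k) z := by
    intro k z; simp [hG, g]
  set p : ℂ[X] := ∏ k, G k + ∑ k, C (1 - conj (τ k) * τ k) * X * ∏ l ∈ univ.erase k, G l with hp
  have hpe : ∀ z, p.eval z = N τ z := by
    intro z
    simp only [hp, N, eval_add, eval_prod, eval_finsetSum, eval_mul, eval_C, eval_X, hGe]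
  have hpd : p.natDegree ≤ 2 * m := by
    refine (natDegree_add_le _ _).trans (max_le ?_ ?_)
    · refine (natDegree_prod_le _ _).trans ?_
      refine (sum_le_sum fun k _ => hGd k).trans ?_
      simp [mul_comm]
    · refine natDegree_sum_le_of_forall_le _ _ fun k _ => ?_
      refine natDegree_mul_le.trans ?_
      have e1 : (C (1 - conj (τ k) * τ k) * X : ℂ[X]).natDegree ≤ 1 := by compute_degree
      have e2 : (∏ l ∈ univ.erase k, G l).natDegree ≤ 2 * (m - 1) := by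
        refine (natDegree_prod_le _ _).trans ?_
        refine (sum_le_sum fun k _ => hGd k).trans ?_
        simp [mul_comm]
      have hm : 1 ≤ m := Nat.one_le_iff_ne_zero.2 (by rintro rfl; exact k.elim0)
      omega
  obtain ⟨K, ζ, hζ, hK⟩ := fejer_riesz m p hpd
    (by rw [hpe, N_zero]; exact prod_ne_zero_iff.2 fun k _ => neg_ne_zero.2 (hτ k).1)
    (by
      intro z hz
      rw [hpe, N_circle τ hz, map_mul, Complex.conj_ofReal, map_pow]
      have h1 : z * conj z = 1 := by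
        rw [Complex.mul_conj, Complex.normSq_eq_norm_sq, hz]; simp
      have h2 : z ^ m * conj z ^ m = 1 := by rw [← mul_pow, h1, one_pow]
      rw [two_mul, pow_add]
      linear_combination (-(z ^ m * (Nr τ z : ℂ))) * h2)
    (by
      intro z hz
      rw [hpe, N_circle τ hz]
      have hz0 : z ≠ 0 := by rintro rfl; simp at hz
      exact mul_ne_zero (pow_ne_zero _ hz0)
        (by exact_mod_cast (Nr_pos τ (fun k => (hτ k).2) hz).ne'))
  exact ⟨K, ζ, hζ, fun z => by rw [← hpe, hK]⟩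

end

end Pool.Agent.P.MP_c3cac0_an
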