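import Pool.Agent.P.MP_c3cac0_an.Deg3

set_option autoImplicit false

namespace Pool.Agent.P.MP_c3cac0_an

open Finset Polynomial ComplexConjugate

noncomputable section

lemma exists_roots (p : ℂ[X]) (m : ℕ) (h : p.natDegree = m) :
    ∃ v : Fin m → ℂ, ∀ z, p.eval z = p.leadingCoeff * ∏ j, (z - v j) := by
  have hc : p.roots.card = p.natDegree := IsAlgClosed.card_roots_eq_natDegree
  have e := C_leadingCoeff_mul_prod_multiset_X_sub_C hc
  obtain ⟨l, hl⟩ : ∃ l : List ℂ, (l : Multiset ℂ) = p.roots := ⟨p.roots.toList, by simp⟩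
  have hlen : l.length = m := by rw [← h, ← hc, ← hl]; simp
  subst hlen
  refine ⟨l.get, fun z => ?_⟩
  conv_lhs => rw [← e]
  rw [eval_mul, eval_C, ← hl, eval_multiset_prod]
  congr 1
  simp only [Multiset.map_coe, Multiset.prod_coe, List.map_map]
  rw [← List.prod_ofFn]
  congr 1
  apply List.ext_get <;> simp

/-- boundary derivative of the Blaschke product with zeros `τ` -/
def S {m : ℕ} (τ : Fin m → ℂ) (v : ℂ) : ℝ := ∑ k, (1 - ‖τ k‖ ^ 2) / ‖v - τ k‖ ^ 2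

lemma S_pos {m : ℕ} (hm : 1 ≤ m) (τ : Fin m → ℂ) (hτ : ∀ k, ‖τ k‖ < 1) {v : ℂ} (hv : ‖v‖ = 1) :
    0 < S τ v := by
  have hne : (univ : Finset (Fin m)).Nonempty := ⟨⟨0, hm⟩, mem_univ _⟩
  refine sum_pos (fun k _ => div_pos (by nlinarith [hτ k, norm_nonneg (τ k)]) ?_) hne
  exact pow_pos (norm_pos_iff.2 (sub_ne_circle (hτ k) hv)) 2

lemma Nr_eq {m : ℕ} (τ : Fin m → ℂ) (hτ : ∀ k, ‖τ k‖ < 1) {v : ℂ} (hv : ‖v‖ = 1) :
    Nr τ v = (∏ k, ‖v - τ k‖ ^ 2) * (1 + S τ v) := by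
  unfold Nr S
  rw [mul_add, mul_one, mul_sum]
  congr 1
  refine sum_congr rfl fun k _ => ?_
  rw [← mul_prod_erase univ (fun l => ‖v - τ l‖ ^ 2) (mem_univ k)]
  have : ‖v - τ k‖ ≠ 0 := norm_ne_zero_iff.2 (sub_ne_circle (hτ k) hv)
  field_simp

lemma prod_lt_one {m : ℕ} (hm : 1 ≤ m) (τ : Fin m → ℂ) (hτ : ∀ k, ‖τ k‖ < 1) :
    ∏ k, ‖τ k‖ < 1 := by
  obtain ⟨n, rfl⟩ : ∃ n, m = n + 1 := ⟨m - 1, by omega⟩
  rw [Fin.prod_univ_succ]
  have h1 : ∏ i : Fin n, ‖τ i.succ‖ ≤ 1 := prod_le_one (fun _ _ => norm_nonneg _) fun i _ => (hτ _).le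
  have h2 : 0 ≤ ∏ i : Fin n, ‖τ i.succ‖ := prod_nonneg fun _ _ => norm_nonneg _
  nlinarith [hτ 0, norm_nonneg (τ 0)]

lemma norm_Q_lt {m : ℕ} (hm : 1 ≤ m) (τ : Fin m → ℂ) (hτ : ∀ k, ‖τ k‖ < 1) {z : ℂ}
    (hz : ‖z‖ < 1) : ‖Q τ z‖ < ‖Qs τ z‖ := by
  have hne : ∀ k, 1 - conj (τ k) * z ≠ 0 := fun k => one_sub_ne (hτ k) hz.le
  have hQ : Qs τ z ≠ 0 := prod_ne_zero_iff.2 fun k _ => hne k
  rw [← div_lt_one (norm_pos_iff.2 hQ), ← norm_div, Q, Qs, ← prod_div_distrib, norm_prod]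
  apply prod_lt_one hm (fun k => (z - τ k) / (1 - conj (τ k) * z))
  intro k
  rw [norm_div, div_lt_one (norm_pos_iff.2 (hne k))]
  exact norm_sub_lt (hτ k) hz

lemma norm_one_sub_lt {a z : ℂ} (ha : ‖a‖ < 1) (hz : 1 < ‖z‖) : ‖1 - conj a * z‖ < ‖z - a‖ := by
  have e : ‖z - a‖ ^ 2 - ‖1 - conj a * z‖ ^ 2 = (‖z‖ ^ 2 - 1) * (1 - ‖a‖ ^ 2) := by
    simp only [← Complex.normSq_eq_norm_sq, Complex.normSq_apply]
    simp
    ring
  have : 0 < (‖z‖ ^ 2 - 1) * (1 - ‖a‖ ^ 2) :=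
    mul_pos (by nlinarith) (by nlinarith [norm_nonneg a])
  exact abs_lt_of_sq_lt_sq' (by linarith) (norm_nonneg _) |>.2

lemma norm_Qs_lt {m : ℕ} (hm : 1 ≤ m) (τ : Fin m → ℂ) (hτ : ∀ k, ‖τ k‖ < 1) {z : ℂ}
    (hz : 1 < ‖z‖) : ‖Qs τ z‖ < ‖Q τ z‖ := by
  have hne : ∀ k, z - τ k ≠ 0 := fun k h => by
    have : z = τ k := by linear_combination h
    have := hτ k
    rw [← ‹z = τ k›] at this; linarith
  have hQ : Q τ z ≠ 0 := prod_ne_zero_iff.2 fun k _ => hne k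
  rw [← div_lt_one (norm_pos_iff.2 hQ), ← norm_div, Q, Qs, ← prod_div_distrib, norm_prod]
  apply prod_lt_one hm (fun k => (1 - conj (τ k) * z) / (z - τ k))
  intro k
  rw [norm_div, div_lt_one (norm_pos_iff.2 (hne k))]
  exact norm_one_sub_lt (hτ k) hz

lemma clark {m : ℕ} (hm : 1 ≤ m) (τ : Fin m → ℂ) (hτ : ∀ k, τ k ≠ 0 ∧ ‖τ k‖ < 1)
    (α : ℂ) (hα : ‖α‖ = 1) :
    ∃ (L : ℂ) (v : Fin m → ℂ), L ≠ 0 ∧ (∀ j, ‖v j‖ = 1) ∧
      (∀ z, Q τ z - α * Qs τ z = L * ∏ j, (z - v j)) ∧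
      (∑ j, 1 / S τ (v j)) * ‖α - ∏ k, (-τ k)‖ ^ 2 = 1 - (∏ k, ‖τ k‖) ^ 2 := by
  have hτ1 : ∀ k, ‖τ k‖ < 1 := fun k => (hτ k).2
  set a : ℂ := ∏ k, (-τ k) with ha
  have han : ‖a‖ = ∏ k, ‖τ k‖ := by simp [ha]
  have ha1 : ‖a‖ < 1 := han ▸ prod_lt_one hm τ hτ1
  set A1 : ℂ[X] := ∏ k, (X - C (τ k)) with hA1
  set A2 : ℂ[X] := ∏ k, (X - C (conj (τ k))⁻¹) with hA2
  have m1 : A1.Monic := monic_prod_X_sub_C _ _
  have m2 : A2.Monic := monic_prod_X_sub_C _ _
  have d1 : A1.natDegree = m := by simp [hA1]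
  have d2 : A2.natDegree = m := by simp [hA2]
  have e1 : ∀ z, A1.eval z = Q τ z := by intro z; simp [hA1, Q, eval_prod]
  have e2 : ∀ z, conj a * A2.eval z = Qs τ z := by
    intro z
    simp only [hA2, ha, Qs, eval_prod, map_prod, eval_sub, eval_X, eval_C, ← prod_mul_distrib]
    refine prod_congr rfl fun k _ => ?_
    have : conj (τ k) ≠ 0 := by simpa using (hτ k).1
    rw [map_neg]; field_simp; ring
  set L : ℂ := 1 - conj a * α with hL
  have hL0 : L ≠ 0 := one_sub_ne ha1 hα.le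
  set P : ℂ[X] := A1 - C (conj a * α) * A2 with hP
  have hPc : P.coeff m = L := by
    rw [hP, coeff_sub, coeff_C_mul]
    have t1 : A1.coeff m = 1 := by rw [← d1]; exact m1
    have t2 : A2.coeff m = 1 := by rw [← d2]; exact m2
    rw [t1, t2, mul_one]
  have hPd : P.natDegree = m := by
    apply le_antisymm
    · refine (natDegree_sub_le _ _).trans (max_le d1.le ?_)
      exact (natDegree_C_mul_le _ _).trans d2.le
    · exact le_natDegree_of_ne_zero (hPc ▸ hL0)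
  obtain ⟨v, hv⟩ := exists_roots P m hPd
  have hlc : P.leadingCoeff = L := by rw [leadingCoeff, hPd, hPc]
  have hfac : ∀ z, Q τ z - α * Qs τ z = L * ∏ j, (z - v j) := by
    intro z
    rw [← hlc, ← hv z, hP, eval_sub, eval_mul, eval_C, e1, ← e2]; ring
  have hroot : ∀ j, Q τ (v j) = α * Qs τ (v j) := by
    intro j
    have := hfac (v j)
    rw [prod_eq_zero (mem_univ j) (sub_self _), mul_zero] at this
    linear_combination this
  have hv1 : ∀ j, ‖v j‖ = 1 := by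
    intro j
    have hn : ‖Q τ (v j)‖ = ‖Qs τ (v j)‖ := by rw [hroot, norm_mul, hα, one_mul]
    rcases lt_trichotomy ‖v j‖ 1 with h | h | h
    · exact absurd hn (norm_Q_lt hm τ hτ1 h).ne
    · exact h
    · exact absurd hn (norm_Qs_lt hm τ hτ1 h).ne'
  have hv0 : ∀ j, v j ≠ 0 := fun j h => by simpa [h] using hv1 j
  have hQv : ∀ j, Q τ (v j) ≠ 0 := fun j =>
    prod_ne_zero_iff.2 fun k _ => sub_ne_circle (hτ1 k) (hv1 j)
  -- derivative at the roots
  have hder : ∀ j, v j * (L * ∏ l ∈ univ.erase j, (v j - v l)) = Q τ (v j) * (S τ (v j) : ℂ) := by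
    intro j
    have t1 : HasDerivAt (fun z => L * ∏ l, (z - v l))
        (L * ∑ i, (∏ l ∈ univ.erase i, (v j - v l)) • (1 : ℂ)) (v j) :=
      (HasDerivAt.fun_finsetProd (u := univ) (f := fun l z => z - v l)
        (fun l _ => (hasDerivAt_id (v j)).sub_const (v l))).const_mul L
    have t2 : HasDerivAt (fun z => Q τ z)
        (∑ i, (∏ l ∈ univ.erase i, (v j - τ l)) • (1 : ℂ)) (v j) :=
      HasDerivAt.fun_finsetProd (u := univ) (f := fun l z => z - τ l)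
        (fun l _ => (hasDerivAt_id (v j)).sub_const (τ l))
    have t3 : HasDerivAt (fun z => Qs τ z)
        (∑ i, (∏ l ∈ univ.erase i, (1 - conj (τ l) * v j)) • (-(conj (τ i) * 1))) (v j) :=
      HasDerivAt.fun_finsetProd (u := univ) (f := fun l z => 1 - conj (τ l) * z)
        (fun l _ => ((hasDerivAt_id (v j)).const_mul (conj (τ l))).const_sub 1)
    have t4 := t2.sub (t3.const_mul α)
    have t5 : (fun z => L * ∏ l, (z - v l)) = (fun z => Q τ z) - fun z => α * Qs τ z := by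
      funext z; exact (hfac z).symm
    rw [t5] at t1
    have t6 := t1.unique t4
    have t7 : ∑ i, (∏ l ∈ univ.erase i, (v j - v l)) • (1 : ℂ) = ∏ l ∈ univ.erase j, (v j - v l) := by
      rw [sum_eq_single j]
      · simp
      · intro i _ hi
        rw [prod_eq_zero (mem_erase.2 ⟨hi.symm, mem_univ j⟩) (sub_self _)]; simp
      · simp
    rw [t7] at t6
    rw [t6, S]
    push_cast
    rw [mul_sum, ← sum_sub_distrib, mul_sum, mul_sum]
    refine sum_congr rfl fun k _ => ?_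
    have u1 : Q τ (v j) = (v j - τ k) * ∏ l ∈ univ.erase k, (v j - τ l) :=
      (mul_prod_erase univ (fun l => v j - τ l) (mem_univ k)).symm
    have u2 : Qs τ (v j) = (1 - conj (τ k) * v j) * ∏ l ∈ univ.erase k, (1 - conj (τ l) * v j) :=
      (mul_prod_erase univ (fun l => 1 - conj (τ l) * v j) (mem_univ k)).symm
    have u3 := hroot j
    have u4 := g_circle (τ k) (hv1 j)
    have u5 := one_sub_conj_mul (τ k)
    have u6 : ((‖v j - τ k‖ : ℂ)) ^ 2 ≠ 0 := by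
      exact_mod_cast pow_ne_zero 2 (norm_ne_zero_iff.2 (sub_ne_circle (hτ1 k) (hv1 j)))
    have u7 := one_sub_ne (hτ1 k) (hv1 j).le
    have u8 := sub_ne_circle (hτ1 k) (hv1 j)
    push_cast at u4 u5
    unfold g at u4
    rw [u2] at u3
    rw [u1] at u3 ⊢
    simp only [smul_eq_mul]
    generalize (∏ l ∈ univ.erase k, (v j - τ l)) = A at u3 ⊢
    generalize (∏ l ∈ univ.erase k, (1 - conj (τ l) * v j)) = B at u3 ⊢
    rw [← u5, ← mul_div_assoc, eq_div_iff u6]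
    apply mul_left_cancel₀ u7
    linear_combination (-(v j) * conj (τ k) * (‖v j - τ k‖ : ℂ) ^ 2) * u3 -
      (A * (1 - conj (τ k) * τ k)) * u4
  have hS : ∀ j, (S τ (v j) : ℂ) ≠ 0 := fun j => by
    exact_mod_cast (S_pos hm τ hτ1 (hv1 j)).ne'
  have hpe : ∀ j, ∏ l ∈ univ.erase j, (v j - v l) ≠ 0 := by
    intro j h
    have := hder j
    rw [h, mul_zero, mul_zero] at this
    exact mul_ne_zero (hQv j) (hS j) this.symm
  have hinj : Set.InjOn v (univ : Finset (Fin m)) := by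
    intro i _ j _ hij
    by_contra hne
    apply hpe i
    exact prod_eq_zero (mem_erase.2 ⟨fun h => hne h.symm, mem_univ j⟩) (by rw [hij, sub_self])
  refine ⟨L, v, hL0, hv1, hfac, ?_⟩
  set F : ℂ[X] := C (conj a) * (A2 - A1) with hF
  have hFd : F.degree < (univ : Finset (Fin m)).card := by
    have t1 : (A2 - A1).degree < A2.degree :=
      degree_sub_lt_left (by rw [degree_eq_natDegree m1.ne_zero, degree_eq_natDegree m2.ne_zero, d1, d2])
        m2.ne_zero (by rw [m1, m2])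
    rw [degree_eq_natDegree m2.ne_zero, d2] at t1
    rw [card_univ, Fintype.card_fin, hF, ← smul_eq_C_mul]
    exact (degree_smul_le _ _).trans_lt t1
  have hFe : ∀ z, F.eval z = Qs τ z - conj a * Q τ z := by
    intro z
    rw [hF, eval_mul, eval_C, eval_sub, e1, ← e2]; ring
  have key := Lagrange.eval_interpolate_not_at_node (s := univ) (v := v)
    (fun j => F.eval (v j)) (x := 0) (fun j _ => (hv0 j).symm)
  rw [← Lagrange.eq_interpolate hinj hFd, Lagrange.eval_nodal] at key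
  have hα0 : α ≠ 0 := by rintro rfl; simp at hα
  have hterm : ∀ j, Lagrange.nodalWeight univ v j * (0 - v j)⁻¹ * F.eval (v j) =
      -(L ^ 2 / α) * (1 / (S τ (v j) : ℂ)) := by
    intro j
    rw [Lagrange.nodalWeight, prod_inv_distrib, hFe]
    have t1 := hder j
    have t2 := hroot j
    have t3 := hpe j
    have t4 := hS j
    have t5 := hv0 j
    generalize (∏ l ∈ univ.erase j, (v j - v l)) = A at t1 t3 ⊢
    rw [zero_sub]
    field_simp
    rw [hL] at t1 ⊢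
    linear_combination (1 - conj a * α) * t1 + (S τ (v j) : ℂ) * t2
  rw [sum_congr rfl fun j _ => hterm j, ← mul_sum, hFe] at key
  have q0 : Q τ 0 = a := by simp [Q, ha]
  have qs0 : Qs τ 0 = 1 := by simp [Qs]
  have f0 := hfac 0
  rw [q0, qs0] at key f0
  have hαα : conj α * α = 1 := by
    rw [mul_comm, Complex.mul_conj, Complex.normSq_eq_norm_sq, hα]; simp
  have n1 : ((‖α - a‖ ^ 2 : ℝ) : ℂ) = (α - a) * (conj α - conj a) := by
    rw [← map_sub, Complex.mul_conj, Complex.normSq_eq_norm_sq]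
  rw [← han]
  apply Complex.ofReal_injective
  rw [← one_sub_conj_mul, Complex.ofReal_mul, n1, key]
  push_cast
  generalize (∑ j, 1 / (S τ (v j) : ℂ)) = T
  generalize (∏ j, (0 - v j)) = W at f0
  have : L ^ 2 / α = L ^ 2 * conj α := by
    field_simp
    linear_combination -hαα
  rw [this]
  rw [hL] at f0 ⊢
  linear_combination (-T * (1 - conj a * α) * conj α) * f0 + (T * (α - a) * conj a) * hαα

end

end Pool.Agent.P.MP_c3cac0_an
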