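import Pool.Agent.P.MP_c3cac0_an.Clark

set_option autoImplicit false

namespace Pool.Agent.P.MP_c3cac0_an

open Finset Polynomial ComplexConjugate

noncomputable section

lemma prod_one_add_ge {m : ℕ} (hm : 1 ≤ m) (s : Fin m → ℝ) (hs : ∀ j, 0 < s j) (c : ℝ)
    (hc : 0 < c) (h : (∑ j, 1 / s j) * c = m) : (1 + c) ^ m ≤ ∏ j, (1 + s j) := by
  have h1 : ∀ j, Real.log (1 + c) + (1 - c / s j) * (c / (1 + c)) ≤ Real.log (1 + s j) := by
    intro j
    have hj := hs j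
    have t1 : 1 - ((1 + s j) / (1 + c))⁻¹ ≤ Real.log ((1 + s j) / (1 + c)) :=
      Real.one_sub_inv_le_log_of_pos (by positivity)
    rw [Real.log_div (by positivity) (by positivity)] at t1
    have t2 : 1 - ((1 + s j) / (1 + c))⁻¹ - (1 - c / s j) * (c / (1 + c)) =
        (s j - c) ^ 2 / ((1 + c) * s j * (1 + s j)) := by
      field_simp
      ring
    have t3 : 0 ≤ (s j - c) ^ 2 / ((1 + c) * s j * (1 + s j)) := by positivity
    linarith
  have h2 := sum_le_sum fun j (_ : j ∈ (univ : Finset (Fin m))) => h1 j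
  rw [sum_add_distrib, ← Real.log_prod (f := fun j => 1 + s j)
    (fun j _ => by have := hs j; positivity)] at h2
  have h3 : ∑ j, (1 - c / s j) * (c / (1 + c)) = 0 := by
    have : ∀ j, (1 - c / s j) * (c / (1 + c)) = (1 - 1 / s j * c) * (c / (1 + c)) := by
      intro j; field_simp
    simp only [this]
    rw [← sum_mul, sum_sub_distrib, ← sum_mul, h]; simp
  rw [h3, add_zero, sum_const, card_univ, Fintype.card_fin, nsmul_eq_mul, ← Real.log_pow] at h2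
  exact (Real.log_le_log_iff (by positivity)
    (prod_pos fun j _ => by have := hs j; positivity)).1 h2

lemma norm_circle (a : ℂ) {z : ℂ} (hz : ‖z‖ = 1) : ‖1 - conj a * z‖ = ‖z - a‖ := by
  have h1 : z * conj z = 1 := by
    rw [Complex.mul_conj, Complex.normSq_eq_norm_sq, hz]; simp
  have : 1 - conj a * z = z * conj (z - a) := by rw [map_sub]; linear_combination -h1
  rw [this, norm_mul, hz, one_mul, Complex.norm_conj]

lemma exists_alpha {m : ℕ} (φ : Fin m → ℂ) (hφ : ∀ i, ‖φ i‖ < 1) (b : ℂ) :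
    ∃ α : ℂ, ‖α‖ = 1 ∧ ∏ i, ‖α - φ i‖ ≤ ‖α - b‖ ^ m := by
  set f : ℂ → ℂ := fun w => (1 - conj b * w) ^ m / ∏ i, (1 - conj (φ i) * w) with hf
  have hd : DifferentiableOn ℂ f (Metric.closedBall 0 1) := by
    apply DifferentiableOn.div
    · fun_prop
    · fun_prop
    · intro w hw
      exact prod_ne_zero_iff.2 fun i _ => one_sub_ne (hφ i) (by simpa using hw)
  have hd' : DiffContOnCl ℂ f (Metric.ball 0 1) := by
    apply DifferentiableOn.diffContOnCl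
    rwa [closure_ball _ one_ne_zero]
  obtain ⟨α, hα, hmax⟩ := Complex.exists_mem_frontier_isMaxOn_norm Metric.isBounded_ball
    ⟨0, by simp⟩ hd'
  rw [frontier_ball _ one_ne_zero] at hα
  have hα1 : ‖α‖ = 1 := by simpa using hα
  refine ⟨α, hα1, ?_⟩
  have h0 : ‖f 0‖ ≤ ‖f α‖ := hmax (subset_closure (by simp))
  have h1 : ‖f 0‖ = 1 := by simp [hf]
  rw [h1, hf] at h0
  simp only [norm_div, norm_pow, norm_prod, norm_circle _ hα1] at h0
  rwa [le_div_iff₀ (prod_pos fun i _ => norm_pos_iff.2 (sub_ne_circle (hφ i) hα1)), one_mul] at h0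

lemma N_at_zero {m : ℕ} (τ : Fin m → ℂ) (k : Fin m) :
    ‖N τ (τ k)‖ = ‖τ k‖ * ‖Qs τ (τ k)‖ * ∏ l ∈ univ.erase k, ‖τ k - τ l‖ := by
  have g0 : g (τ k) (τ k) = 0 := by simp [g]
  unfold N
  rw [prod_eq_zero (mem_univ k) g0, zero_add, sum_eq_single k]
  · rw [Qs, ← mul_prod_erase univ (fun l => 1 - conj (τ l) * τ k) (mem_univ k)]
    simp only [g, norm_mul, norm_prod, prod_mul_distrib]
    ring
  · intro i _ hi
    rw [prod_eq_zero (mem_erase.2 ⟨hi.symm, mem_univ k⟩) g0, mul_zero]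
  · simp

lemma criterion {m : ℕ} (hm : 1 ≤ m) (τ : Fin m → ℂ) (hτ : ∀ k, τ k ≠ 0 ∧ ‖τ k‖ < 1)
    (K : ℂ) (ζ : Fin m → ℂ) (hζ : ∀ i, ‖ζ i‖ < 1) (hK : ∀ z, N τ z = K * ∏ i, g (ζ i) z) :
    (∏ i, ‖Q τ (ζ i)‖) * ((∏ k, ‖Qs τ (τ k)‖) * (m / (1 - (∏ k, ‖τ k‖) ^ 2) + 1) ^ m) ≤
      (∏ i, ‖Qs τ (ζ i)‖) * ((∏ k, ‖τ k‖) * ∏ k, ∏ l ∈ univ.erase k, ‖τ k - τ l‖) := by
  have hτ1 : ∀ k, ‖τ k‖ < 1 := fun k => (hτ k).2
  set A := ∏ k, ‖τ k‖ with hA
  have hA1 : A < 1 := prod_lt_one hm τ hτ1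
  have hA0 : 0 ≤ A := prod_nonneg fun _ _ => norm_nonneg _
  have hA2 : 0 < 1 - A ^ 2 := by nlinarith
  set M : ℝ := m / (1 - A ^ 2) with hM
  have hm0 : (0 : ℝ) < m := by exact_mod_cast hm
  have hM0 : 0 < M := div_pos hm0 hA2
  set a : ℂ := ∏ k, (-τ k) with ha
  have han : ‖a‖ = A := by simp [ha, hA]
  have hQs : ∀ z, ‖z‖ ≤ 1 → 0 < ‖Qs τ z‖ := fun z hz =>
    norm_pos_iff.2 (prod_ne_zero_iff.2 fun k _ => one_sub_ne (hτ1 k) hz)
  set R := ∏ k, ‖Qs τ (τ k)‖ with hR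
  have hR0 : 0 < R := prod_pos fun k _ => hQs _ (hτ1 k).le
  obtain ⟨α, hα, hαle⟩ := exists_alpha (fun i => Q τ (ζ i) / Qs τ (ζ i))
    (fun i => by
      rw [norm_div, div_lt_one (hQs _ (hζ i).le)]; exact norm_Q_lt hm τ hτ1 (hζ i))
    (((M / (M + 1) : ℝ) : ℂ) * a)
  obtain ⟨L, v, hL, hv, hfac, hsum⟩ := clark hm τ hτ α hα
  have hαa : 0 < ‖α - a‖ := norm_pos_iff.2 (sub_ne_circle (han ▸ hA1) hα)
  have s1 : (1 + M * ‖α - a‖ ^ 2) ^ m ≤ ∏ j, (1 + S τ (v j)) := by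
    apply prod_one_add_ge hm _ (fun j => S_pos hm τ hτ1 (hv j)) _ (by positivity)
    rw [mul_left_comm, hsum, hM, ← hA]; field_simp
  have s2 : (M + 1) * ‖α - ((M / (M + 1) : ℝ) : ℂ) * a‖ ^ 2 ≤ 1 + M * ‖α - a‖ ^ 2 := by
    have t1 : α.re * α.re + α.im * α.im = 1 := by
      rw [← Complex.normSq_apply, Complex.normSq_eq_norm_sq, hα]; simp
    simp only [← Complex.normSq_eq_norm_sq, Complex.normSq_apply, Complex.sub_re, Complex.sub_im,
      Complex.mul_re, Complex.mul_im, Complex.ofReal_re, Complex.ofReal_im, zero_mul, sub_zero,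
      add_zero]
    set c := M / (M + 1) with hc
    have t2 : c * (M + 1) = M := by rw [hc]; field_simp
    have t3 : c ≤ 1 := by rw [hc, div_le_one (by positivity)]; linarith
    have t4 : 0 ≤ M * (1 - c) * (a.re * a.re + a.im * a.im) :=
      mul_nonneg (mul_nonneg hM0.le (by linarith)) (by nlinarith)
    have t5 : (M + 1) * ((α.re - c * a.re) * (α.re - c * a.re) + (α.im - c * a.im) * (α.im - c * a.im))
        = (M + 1) - 2 * M * (α.re * a.re + α.im * a.im) + M * c * (a.re * a.re + a.im * a.im) := by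
      linear_combination (M + 1) * t1 +
        (-2 * (α.re * a.re + α.im * a.im) + c * (a.re * a.re + a.im * a.im)) * t2
    rw [t5]
    nlinarith
  set β := ‖α - ((M / (M + 1) : ℝ) : ℂ) * a‖ with hβ
  have hβ0 : 0 < β := by
    apply norm_pos_iff.2 (sub_ne_circle _ hα)
    rw [norm_mul, han, Complex.norm_real, Real.norm_of_nonneg (by positivity)]
    have : M / (M + 1) ≤ 1 := by rw [div_le_one (by positivity)]; linarith
    nlinarith
  have s3 : ((M + 1) * β ^ 2) ^ m ≤ ∏ j, (1 + S τ (v j)) :=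
    (pow_le_pow_left₀ (by positivity) s2 m).trans s1
  -- product identity on the Clark points
  have p1 : ∀ z, ‖L‖ * ∏ j, ‖v j - z‖ = ‖Q τ z - α * Qs τ z‖ := by
    intro z
    rw [hfac, norm_mul, norm_prod]
    congr 1
    exact prod_congr rfl fun j _ => norm_sub_rev _ _
  have p2 : ∀ j, (∏ k, ‖v j - τ k‖ ^ 2) * (1 + S τ (v j)) = ‖K‖ * ∏ i, ‖v j - ζ i‖ ^ 2 := by
    intro j
    rw [← Nr_eq τ hτ1 (hv j)]
    have t1 := congrArg (fun t : ℂ => ‖t‖) (N_circle τ (hv j))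
    simp only [hK, norm_mul, norm_pow, hv j, one_pow, one_mul, Complex.norm_real, norm_prod,
      g_circle _ (hv j), Real.norm_of_nonneg (Nr_pos τ hτ1 (hv j)).le, norm_norm] at t1
    exact t1.symm
  have p3 : R ^ 2 * ∏ j, (1 + S τ (v j)) = ‖K‖ ^ m * (∏ i, ‖Q τ (ζ i) - α * Qs τ (ζ i)‖) ^ 2 := by
    have t1 := prod_congr (s₁ := univ) rfl fun j (_ : j ∈ univ) => p2 j
    rw [prod_mul_distrib, prod_mul_distrib, prod_const, card_univ, Fintype.card_fin,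
      prod_comm, prod_comm (f := fun j i => ‖v j - ζ i‖ ^ 2)] at t1
    have t2 : R = ‖L‖ ^ m * ∏ k, ∏ j, ‖v j - τ k‖ := by
      rw [hR]
      have : ∀ k, ‖Qs τ (τ k)‖ = ‖L‖ * ∏ j, ‖v j - τ k‖ := by
        intro k
        rw [p1, Q, prod_eq_zero (mem_univ k) (sub_self _), zero_sub, norm_neg, norm_mul, hα, one_mul]
      simp only [this, prod_mul_distrib, prod_const, card_univ, Fintype.card_fin]
    have t3 : ∏ i, ‖Q τ (ζ i) - α * Qs τ (ζ i)‖ = ‖L‖ ^ m * ∏ i, ∏ j, ‖v j - ζ i‖ := by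
      simp only [← p1, prod_mul_distrib, prod_const, card_univ, Fintype.card_fin]
    simp only [prod_pow] at t1
    rw [t2, t3]
    linear_combination (‖L‖ ^ m) ^ 2 * t1
  have p4 : ∏ i, ‖Q τ (ζ i) - α * Qs τ (ζ i)‖ ≤ (∏ i, ‖Qs τ (ζ i)‖) * β ^ m := by
    refine le_trans (le_of_eq ?_)
      (mul_le_mul_of_nonneg_left hαle (prod_nonneg fun _ _ => norm_nonneg _))
    rw [← prod_mul_distrib]
    refine prod_congr rfl fun i _ => ?_
    rw [← norm_mul, ← norm_neg]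
    congr 1
    have := norm_pos_iff.1 (hQs _ (hζ i).le)
    field_simp
    ring
  have p5 : R ^ 2 * (M + 1) ^ m ≤ ‖K‖ ^ m * (∏ i, ‖Qs τ (ζ i)‖) ^ 2 := by
    have t1 : 0 < (β ^ m) ^ 2 := by positivity
    apply le_of_mul_le_mul_right _ t1
    have t2 := pow_le_pow_left₀ (prod_nonneg fun _ _ => norm_nonneg _) p4 2
    calc R ^ 2 * (M + 1) ^ m * (β ^ m) ^ 2 = R ^ 2 * ((M + 1) * β ^ 2) ^ m := by
          rw [mul_pow]; ring
      _ ≤ R ^ 2 * ∏ j, (1 + S τ (v j)) := mul_le_mul_of_nonneg_left s3 (by positivity)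
      _ ≤ ‖K‖ ^ m * ((∏ i, ‖Qs τ (ζ i)‖) * β ^ m) ^ 2 := by
        rw [p3]; exact mul_le_mul_of_nonneg_left t2 (by positivity)
      _ = _ := by ring
  have p6 : ‖K‖ ^ m * ((∏ i, ‖Q τ (ζ i)‖) * ∏ i, ‖Qs τ (ζ i)‖) =
      A * R * ∏ k, ∏ l ∈ univ.erase k, ‖τ k - τ l‖ := by
    have t1 := prod_congr (s₁ := univ) rfl fun k (_ : k ∈ univ) => N_at_zero τ k
    rw [prod_mul_distrib, prod_mul_distrib] at t1
    rw [← t1]
    simp only [hK, norm_mul, norm_prod, g, prod_mul_distrib, prod_const, card_univ,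
      Fintype.card_fin, Q, Qs]
    rw [prod_comm (f := fun k i => ‖τ k - ζ i‖), prod_comm (f := fun k i => ‖1 - conj (ζ i) * τ k‖)]
    congr 2
    · exact prod_congr rfl fun i _ => prod_congr rfl fun k _ => norm_sub_rev _ _
    · refine prod_congr rfl fun i _ => prod_congr rfl fun k _ => ?_
      rw [← Complex.norm_conj]; simp [mul_comm]
  apply le_of_mul_le_mul_right _ hR0
  have hX : 0 ≤ ∏ i, ‖Q τ (ζ i)‖ := prod_nonneg fun _ _ => norm_nonneg _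
  calc _ = (∏ i, ‖Q τ (ζ i)‖) * (R ^ 2 * (M + 1) ^ m) := by ring
    _ ≤ (∏ i, ‖Q τ (ζ i)‖) * (‖K‖ ^ m * (∏ i, ‖Qs τ (ζ i)‖) ^ 2) :=
      mul_le_mul_of_nonneg_left p5 hX
    _ = (∏ i, ‖Qs τ (ζ i)‖) * (‖K‖ ^ m * ((∏ i, ‖Q τ (ζ i)‖) * ∏ i, ‖Qs τ (ζ i)‖)) := by ring
    _ = _ := by rw [p6]; ring

end

end Pool.Agent.P.MP_c3cac0_an
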