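import Pool.Agent.P.MP_c3cac0_an.Basic

set_option autoImplicit false

namespace Pool.Agent.P.MP_c3cac0_an

open Finset Polynomial ComplexConjugate

noncomputable section

lemma real_ineq (r e h x : ℝ) (hr0 : 0 ≤ r) (hr1 : r < 1) (he0 : 0 ≤ e) (he1 : e < 1)
    (hrx : r ≤ x) (hx1 : x < 1)
    (h1 : h * (1 + x ^ 2) = (2 * (1 - r ^ 2) * (1 + e ^ 2) + (1 - e ^ 2) * (1 + r ^ 2)) * x)
    (h2 : 2 * (1 - r ^ 2) * e - (1 - e ^ 2) * r ≤ h) :
    e * (1 - r ^ 4 * e ^ 2) ≤ h := by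
  have hd : 0 < 1 - r ^ 2 := by nlinarith
  have hη : 0 < 1 - e ^ 2 := by nlinarith
  set S := 2 * (1 - r ^ 2) * (1 + e ^ 2) + (1 - e ^ 2) * (1 + r ^ 2) with hS
  have hS0 : 0 < S := by positivity
  by_cases hc : e * (1 + r ^ 2) ^ 2 ≤ 2 * r * (1 + e ^ 2)
  · -- use the nearest critical point
    have h3 : S * r ≤ h * (1 + r ^ 2) := by
      have hx : 0 < 1 + x ^ 2 := by positivity
      have : S * r * (1 + x ^ 2) ≤ h * (1 + r ^ 2) * (1 + x ^ 2) := by
        have e1 : h * (1 + r ^ 2) * (1 + x ^ 2) = S * x * (1 + r ^ 2) := by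
          rw [← h1]; ring
        rw [e1]
        have : 0 ≤ (x - r) * (1 - r * x) := mul_nonneg (by linarith) (by nlinarith)
        nlinarith
      exact le_of_mul_le_mul_right this hx
    have h4 : e * (1 - r ^ 4 * e ^ 2) * (1 + r ^ 2) ≤ S * r := by
      have a1 : (1 - r ^ 2) * (e * (1 + r ^ 2) ^ 2) ≤ (1 - r ^ 2) * (2 * r * (1 + e ^ 2)) :=
        mul_le_mul_of_nonneg_left hc hd.le
      have a2 : e * r ^ 3 ≤ 1 := by
        have : r ^ 3 ≤ 1 := pow_le_one₀ hr0 hr1.le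
        nlinarith [pow_nonneg hr0 3]
      have a3 : 0 ≤ (1 - e ^ 2) * (1 + r ^ 2) * r * (1 - e * r ^ 3) := by
        have : 0 ≤ 1 - e * r ^ 3 := by linarith
        positivity
      rw [hS]; nlinarith
    have hp : 0 < 1 + r ^ 2 := by positivity
    exact le_of_mul_le_mul_right (h4.trans h3) hp
  · push Not at hc
    have he : 0 < e := by
      rcases he0.eq_or_lt with h | h
      · subst h; nlinarith
      · exact h
    have b1 : 4 * r < (1 + r ^ 2) ^ 2 := by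
      have : 4 * r * e ≤ 2 * r * (1 + e ^ 2) := by nlinarith [sq_nonneg (1 - e), mul_nonneg hr0 (sq_nonneg (1 - e))]
      have : e * (4 * r) < e * (1 + r ^ 2) ^ 2 := by linarith
      exact lt_of_mul_lt_mul_left this he0
    have b2 : r < 3 / 10 := by
      by_contra hb
      push Not at hb
      have : 0 ≤ (1 - r) * (r ^ 3 + r ^ 2 + 3 * r - 1) :=
        mul_nonneg (by linarith) (by nlinarith [sq_nonneg r, pow_nonneg hr0 3, mul_nonneg hr0 (sq_nonneg (r - 3/10))])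
      nlinarith
    have b3 : r ^ 2 ≤ 9 / 100 := by nlinarith
    have b4 : r ≤ e * (6 / 10) := by
      have : (1 + r ^ 2) ^ 2 ≤ 12 / 10 := by nlinarith [sq_nonneg r]
      nlinarith [sq_nonneg e, mul_nonneg hr0 (sq_nonneg e)]
    have b5 : (1 - e ^ 2) * r * (1 + e * r ^ 3) ≤ e * (1 - r ^ 2) ^ 2 := by
      have c1 : e * r ^ 3 ≤ 3 / 100 := by
        have : r ^ 3 ≤ 3 / 100 := by nlinarith [sq_nonneg r]
        nlinarith [pow_nonneg hr0 3]
      have c2 : (1 - e ^ 2) * r ≤ r := by nlinarith [mul_nonneg hr0 (sq_nonneg e)]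
      have c3 : (1 - e ^ 2) * r * (1 + e * r ^ 3) ≤ r * (103 / 100) :=
        mul_le_mul c2 (by linarith) (by positivity) hr0
      have c4 : 8 / 10 ≤ (1 - r ^ 2) ^ 2 := by nlinarith [sq_nonneg r]
      nlinarith
    nlinarith

lemma norm_one_sub_le {a z : ℂ} (ha : ‖a‖ < 1) (hz : 1 ≤ ‖z‖) : ‖1 - conj a * z‖ ≤ ‖z - a‖ := by
  have e : ‖z - a‖ ^ 2 - ‖1 - conj a * z‖ ^ 2 = (‖z‖ ^ 2 - 1) * (1 - ‖a‖ ^ 2) := by
    simp only [← Complex.normSq_eq_norm_sq, Complex.normSq_apply]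
    simp
    ring
  have : 0 ≤ (‖z‖ ^ 2 - 1) * (1 - ‖a‖ ^ 2) :=
    mul_nonneg (by nlinarith) (by nlinarith [norm_nonneg a])
  exact abs_le_of_sq_le_sq' (by linarith) (norm_nonneg _) |>.2

lemma norm_sub_lt {a z : ℂ} (ha : ‖a‖ < 1) (hz : ‖z‖ < 1) : ‖z - a‖ < ‖1 - conj a * z‖ := by
  have e : ‖1 - conj a * z‖ ^ 2 - ‖z - a‖ ^ 2 = (1 - ‖z‖ ^ 2) * (1 - ‖a‖ ^ 2) := by
    simp only [← Complex.normSq_eq_norm_sq, Complex.normSq_apply]
    simp
    ring
  have : 0 < (1 - ‖z‖ ^ 2) * (1 - ‖a‖ ^ 2) :=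
    mul_pos (by nlinarith [norm_nonneg z]) (by nlinarith [norm_nonneg a])
  exact abs_lt_of_sq_lt_sq' (by linarith) (norm_nonneg _) |>.2

lemma deg3_core (a b K x y : ℂ) (ha0 : a ≠ 0) (hb0 : b ≠ 0) (ha : ‖a‖ < 1) (hb : ‖b‖ < 1)
    (hx : ‖x‖ < 1) (hy : ‖y‖ < 1) (hxy : ‖x‖ ≤ ‖y‖)
    (hN : ∀ z, g a z * g b z + ((1 - conj a * a) * z * g b z + (1 - conj b * b) * z * g a z) =
      K * (g x z * g y z)) :
    ‖(x - a) * (x - b)‖ ≤ ‖a‖ * ‖b‖ * ‖(1 - conj a * x) * (1 - conj b * x)‖ := by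
  have hx0 : x ≠ 0 := by
    rintro rfl
    have := hN 0
    simp [g, ha0, hb0] at this
  have hD : (1 - conj a * x) * (1 - conj b * x) ≠ 0 :=
    mul_ne_zero (one_sub_ne ha hx.le) (one_sub_ne hb hx.le)
  set D := (1 - conj a * x) * (1 - conj b * x) with hDdef
  set w := x * ((x - a) * (x - b)) / D with hw
  have hwD : w * D = x * ((x - a) * (x - b)) := by rw [hw]; field_simp
  have hw1 : ‖w‖ < 1 := by
    rw [hw, norm_div, div_lt_one (norm_pos_iff.2 hD), hDdef, norm_mul, norm_mul, norm_mul]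
    have h1 := norm_sub_lt ha hx
    have h2 := norm_sub_lt hb hx
    have h3 : ‖x - a‖ * ‖x - b‖ < ‖1 - conj a * x‖ * ‖1 - conj b * x‖ :=
      mul_lt_mul'' h1 h2 (norm_nonneg _) (norm_nonneg _)
    have h4 : 0 ≤ ‖x - a‖ * ‖x - b‖ := by positivity
    nlinarith [norm_nonneg x]
  have hNx := hN x
  have hgx : g x x = 0 := by simp [g]
  rw [hgx, zero_mul, mul_zero] at hNx
  -- derivative condition
  have hP' : 3 * x ^ 2 - 2 * (a + b + w * (conj a * conj b)) * x + (a * b + w * (conj a + conj b)) = 0 := by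
    apply mul_left_cancel₀ hD
    rw [mul_zero]
    unfold g at hNx
    rw [hDdef] at hwD ⊢
    linear_combination hNx + ((conj a + conj b) - 2 * conj a * conj b * x) * hwD
  set e := a + b + w * (conj a * conj b) - 2 * x with he
  have r1 : a + b + w * (conj a * conj b) = 2 * x + e := by rw [he]; ring
  have r2 : a * b + w * (conj a + conj b) = x ^ 2 + 2 * x * e := by
    rw [he]; linear_combination hP'
  have r3 : w = x ^ 2 * e := by
    rw [hDdef] at hwD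
    rw [he]; linear_combination hwD + x * hP'
  have c1 : conj a + conj b + conj w * (a * b) = 2 * conj x + conj e := by
    have := congrArg conj r1
    simpa [map_ofNat] using this
  have c2 : conj a * conj b + conj w * (a + b) = conj x ^ 2 + 2 * conj x * conj e := by
    have := congrArg conj r2
    simpa [map_ofNat] using this
  have c3 : conj w = conj x ^ 2 * conj e := by
    have := congrArg conj r3
    simpa using this
  have he1 : ‖e‖ < 1 := by
    by_contra hcon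
    push Not at hcon
    have q1 : e * ((e - a) * (e - b)) = w * ((1 - conj a * e) * (1 - conj b * e)) := by
      linear_combination (-e ^ 2) * r1 + e * r2 - r3
    have q2 := congrArg (fun t : ℂ => ‖t‖) q1
    simp only [norm_mul] at q2
    have h1 := norm_one_sub_le ha hcon
    have h2 := norm_one_sub_le hb hcon
    have h3 : ‖1 - conj a * e‖ * ‖1 - conj b * e‖ ≤ ‖e - a‖ * ‖e - b‖ :=
      mul_le_mul h1 h2 (norm_nonneg _) (norm_nonneg _)
    have h4 : 0 < ‖e - a‖ := norm_pos_iff.2 (by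
      intro h; have : e = a := by linear_combination h
      rw [this] at hcon; linarith)
    have h5 : 0 < ‖e - b‖ := norm_pos_iff.2 (by
      intro h; have : e = b := by linear_combination h
      rw [this] at hcon; linarith)
    have h6 : 0 < ‖e - a‖ * ‖e - b‖ := mul_pos h4 h5
    have h7 : 0 ≤ ‖1 - conj a * e‖ * ‖1 - conj b * e‖ := by positivity
    nlinarith [norm_nonneg w]
  -- Wronskian identity
  have hW : ∀ z, (1 - conj w * w) * (K * (g x z * g y z)) =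
      g x z * (2 * (1 - conj x * x) * g e z + (1 - conj e * e) * g x z) := by
    intro z
    rw [← hN z]
    have i1 : (1 - conj w * w) *
        (g a z * g b z + ((1 - conj a * a) * z * g b z + (1 - conj b * b) * z * g a z)) =
        (3 * z ^ 2 - 2 * (a + b + w * (conj a * conj b)) * z + (a * b + w * (conj a + conj b))) *
          (1 - (conj a + conj b + conj w * (a * b)) * z +
            (conj a * conj b + conj w * (a + b)) * z ^ 2 - conj w * z ^ 3) -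
        (z ^ 3 - (a + b + w * (conj a * conj b)) * z ^ 2 + (a * b + w * (conj a + conj b)) * z - w) *
          (-(conj a + conj b + conj w * (a * b)) +
            2 * (conj a * conj b + conj w * (a + b)) * z - 3 * conj w * z ^ 2) := by
      unfold g; ring
    rw [i1, r1, r2, c1, c2, c3]
    conv_lhs => rw [r3]
    unfold g; ring
  have hW' : ∀ z, g x z ≠ 0 → (1 - conj w * w) * K * g y z =
      2 * (1 - conj x * x) * g e z + (1 - conj e * e) * g x z := by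
    intro z hz
    apply mul_left_cancel₀ hz
    rw [← hW z]; ring
  have g0 := hW' 0 (by simp [g, hx0])
  have g1 := hW' 1 (mul_ne_zero (sub_ne_circle hx (by simp)) (one_sub_ne hx (by simp)))
  have g2 := hW' (-1) (mul_ne_zero (sub_ne_circle hx (by simp)) (one_sub_ne hx (by simp)))
  set κ := (1 - conj w * w) * K with hκ
  set hh := 2 * (1 - conj x * x) * e + (1 - conj e * e) * x with hhh
  have k0 : κ * y = hh := by
    unfold g at g0; rw [hhh]; linear_combination -g0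
  have k1 : κ * (1 + conj y * y) =
      2 * (1 - conj x * x) * (1 + conj e * e) + (1 - conj e * e) * (1 + conj x * x) := by
    unfold g at g1 g2; linear_combination (g1 - g2) / 2
  have cm : ∀ t : ℂ, conj t * t = ((‖t‖ ^ 2 : ℝ) : ℂ) := by
    intro t; rw [mul_comm, Complex.mul_conj, Complex.normSq_eq_norm_sq]
  have k2 : ‖hh‖ * (1 + ‖y‖ ^ 2) =
      (2 * (1 - ‖x‖ ^ 2) * (1 + ‖e‖ ^ 2) + (1 - ‖e‖ ^ 2) * (1 + ‖x‖ ^ 2)) * ‖y‖ := by
    have t1 : hh * ((1 + ‖y‖ ^ 2 : ℝ) : ℂ) =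
        ((2 * (1 - ‖x‖ ^ 2) * (1 + ‖e‖ ^ 2) + (1 - ‖e‖ ^ 2) * (1 + ‖x‖ ^ 2) : ℝ) : ℂ) * y := by
      rw [cm, cm, cm] at k1
      push_cast at k1 ⊢
      linear_combination y * k1 - (1 + (‖y‖ : ℂ) ^ 2) * k0
    have t2 := congrArg (fun t : ℂ => ‖t‖) t1
    simp only [norm_mul, Complex.norm_real, Real.norm_eq_abs] at t2
    have p1 : 0 ≤ 1 - ‖x‖ ^ 2 := by nlinarith [norm_nonneg x]
    have p2 : 0 ≤ 1 - ‖e‖ ^ 2 := by nlinarith [norm_nonneg e]
    rw [abs_of_nonneg (by positivity), abs_of_nonneg (by positivity)] at t2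
    exact t2
  have k3 : 2 * (1 - ‖x‖ ^ 2) * ‖e‖ - (1 - ‖e‖ ^ 2) * ‖x‖ ≤ ‖hh‖ := by
    have p1 : 0 ≤ 1 - ‖x‖ ^ 2 := by nlinarith [norm_nonneg x]
    have p2 : 0 ≤ 1 - ‖e‖ ^ 2 := by nlinarith [norm_nonneg e]
    have t1 : hh = ((2 * (1 - ‖x‖ ^ 2) : ℝ) : ℂ) * e - -(((1 - ‖e‖ ^ 2 : ℝ) : ℂ) * x) := by
      rw [hhh, cm, cm]; push_cast; ring
    have t2 := norm_sub_norm_le (((2 * (1 - ‖x‖ ^ 2) : ℝ) : ℂ) * e) (-(((1 - ‖e‖ ^ 2 : ℝ) : ℂ) * x))
    rw [← t1, norm_neg, norm_mul, norm_mul, Complex.norm_real, Complex.norm_real,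
      Real.norm_of_nonneg (by positivity), Real.norm_of_nonneg p2] at t2
    exact t2
  have k4 := real_ineq ‖x‖ ‖e‖ ‖hh‖ ‖y‖ (norm_nonneg _) hx (norm_nonneg _) he1 hxy hy k2 k3
  have k5 : a * b * (1 - conj w * w) = x * hh := by
    rw [hhh]
    linear_combination r2 - w * c1 - (2 * conj x + conj e) * r3
  have hwn : ‖w‖ = ‖x‖ ^ 2 * ‖e‖ := by rw [r3]; simp
  have k6 : ‖a‖ * ‖b‖ * (1 - ‖w‖ ^ 2) = ‖x‖ * ‖hh‖ := by
    have t2 := congrArg (fun t : ℂ => ‖t‖) k5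
    rw [one_sub_conj_mul] at t2
    simp only [norm_mul, Complex.norm_real] at t2
    rwa [Real.norm_of_nonneg (by nlinarith [norm_nonneg w])] at t2
  have k7 : ‖x‖ * ‖e‖ ≤ ‖a‖ * ‖b‖ := by
    have p : 0 < 1 - ‖w‖ ^ 2 := by nlinarith [norm_nonneg w]
    apply le_of_mul_le_mul_right _ p
    rw [k6, hwn]
    have := mul_le_mul_of_nonneg_left k4 (norm_nonneg x)
    nlinarith
  have k8 : (x - a) * (x - b) = x * e * D := by
    apply mul_left_cancel₀ hx0
    rw [← hwD]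
    linear_combination D * r3
  rw [k8, norm_mul, norm_mul]
  exact mul_le_mul_of_nonneg_right k7 (norm_nonneg _)

lemma deg3 (τ : Fin 2 → ℂ) (hτ : ∀ k, τ k ≠ 0 ∧ ‖τ k‖ < 1) :
    ∃ ζ : ℂ, ‖ζ‖ < 1 ∧ N τ ζ = 0 ∧ ‖Q τ ζ‖ ≤ (∏ k, ‖τ k‖) * ‖Qs τ ζ‖ := by
  obtain ⟨K, ζ, hζ, hK⟩ := N_factor τ hτ
  have e0 : (univ : Finset (Fin 2)).erase 0 = {1} := by decide
  have e1 : (univ : Finset (Fin 2)).erase 1 = {0} := by decide
  have hN : ∀ z, g (τ 0) z * g (τ 1) z + ((1 - conj (τ 0) * τ 0) * z * g (τ 1) z +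
      (1 - conj (τ 1) * τ 1) * z * g (τ 0) z) = K * (g (ζ 0) z * g (ζ 1) z) := by
    intro z
    have := hK z
    simp only [N, Fin.prod_univ_two, Fin.sum_univ_two, e0, e1, prod_singleton] at this
    exact this
  simp only [Q, Qs, Fin.prod_univ_two]
  rcases le_total ‖ζ 0‖ ‖ζ 1‖ with h | h
  · refine ⟨ζ 0, hζ 0, ?_, deg3_core _ _ K _ (ζ 1) (hτ 0).1 (hτ 1).1 (hτ 0).2 (hτ 1).2 (hζ 0)
      (hζ 1) h hN⟩
    rw [hK]; simp [g]
  · refine ⟨ζ 1, hζ 1, ?_, deg3_core _ _ K _ (ζ 0) (hτ 0).1 (hτ 1).1 (hτ 0).2 (hτ 1).2 (hζ 1)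
      (hζ 0) h (fun z => by rw [hN z]; ring)⟩
    rw [hK]; simp [g]

end

end Pool.Agent.P.MP_c3cac0_an
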