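import Pool.Agent.P.MP_c3cac0_an.Crit

set_option autoImplicit false

namespace Pool.Agent.P.MP_c3cac0_an

open Finset Polynomial ComplexConjugate Real

noncomputable section

def G (s x : ℝ) : ℝ := Real.log (2 - 2 * cos x) - Real.log (1 + s ^ 2 - 2 * s * cos x)

lemma cos_lt_one_of_mem {x : ℝ} (hx : x ∈ Set.Ioo 0 (2 * π)) : cos x < 1 := by
  have h1 : 0 < sin (x / 2) := sin_pos_of_pos_of_lt_pi (by linarith [hx.1]) (by linarith [hx.2])
  have h2 : cos x = 1 - 2 * sin (x / 2) ^ 2 := by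
    have := cos_two_mul (x / 2)
    rw [show 2 * (x / 2) = x by ring] at this
    nlinarith [sin_sq_add_cos_sq (x / 2)]
  nlinarith

lemma den_pos {s : ℝ} (hs0 : 0 ≤ s) (hs1 : s < 1) (x : ℝ) : 0 < 1 + s ^ 2 - 2 * s * cos x := by
  nlinarith [cos_le_one x, mul_nonneg hs0 (sub_nonneg.2 (cos_le_one x))]

lemma G_concave {s : ℝ} (hs0 : 0 ≤ s) (hs1 : s < 1) : ConcaveOn ℝ (Set.Ioo 0 (2 * π)) (G s) := by
  have d1 : ∀ x ∈ Set.Ioo 0 (2 * π), HasDerivAt (G s)
      (2 * sin x / (2 - 2 * cos x) - 2 * s * sin x / (1 + s ^ 2 - 2 * s * cos x)) x := by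
    intro x hx
    have a1 : HasDerivAt (fun x => 2 - 2 * cos x) (2 * sin x) x :=
      (((hasDerivAt_cos x).const_mul 2).const_sub 2).congr_deriv (by ring)
    have a2 : HasDerivAt (fun x => 1 + s ^ 2 - 2 * s * cos x) (2 * s * sin x) x :=
      (((hasDerivAt_cos x).const_mul (2 * s)).const_sub (1 + s ^ 2)).congr_deriv (by ring)
    have := cos_lt_one_of_mem hx
    exact (a1.log (by linarith)).sub (a2.log (den_pos hs0 hs1 x).ne')
  have d2 : ∀ x ∈ Set.Ioo 0 (2 * π), HasDerivAt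
      (fun x => 2 * sin x / (2 - 2 * cos x) - 2 * s * sin x / (1 + s ^ 2 - 2 * s * cos x))
      ((2 * cos x * (2 - 2 * cos x) - 2 * sin x * (2 * sin x)) / (2 - 2 * cos x) ^ 2 -
        (2 * s * cos x * (1 + s ^ 2 - 2 * s * cos x) - 2 * s * sin x * (2 * s * sin x)) /
          (1 + s ^ 2 - 2 * s * cos x) ^ 2) x := by
    intro x hx
    have a1 : HasDerivAt (fun x => 2 - 2 * cos x) (2 * sin x) x :=
      (((hasDerivAt_cos x).const_mul 2).const_sub 2).congr_deriv (by ring)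
    have a2 : HasDerivAt (fun x => 1 + s ^ 2 - 2 * s * cos x) (2 * s * sin x) x :=
      (((hasDerivAt_cos x).const_mul (2 * s)).const_sub (1 + s ^ 2)).congr_deriv (by ring)
    have := cos_lt_one_of_mem hx
    exact (((hasDerivAt_sin x).const_mul 2).div a1 (by linarith)).sub
      (((hasDerivAt_sin x).const_mul (2 * s)).div a2 (den_pos hs0 hs1 x).ne')
  refine concaveOn_of_hasDerivWithinAt2_nonpos (convex_Ioo _ _)
    (fun x hx => (d1 x hx).continuousAt.continuousWithinAt)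
    (fun x hx => (d1 x (interior_subset hx)).hasDerivWithinAt)
    (fun x hx => (d2 x (interior_subset hx)).hasDerivWithinAt) ?_
  intro x hx
  have hx' : x ∈ Set.Ioo 0 (2 * π) := interior_subset hx
  have h1 := cos_lt_one_of_mem hx'
  have h2 := den_pos hs0 hs1 x
  have h3 : sin x ^ 2 = 1 - cos x ^ 2 := sin_sq x
  have h4 := neg_one_le_cos x
  set c := cos x with hc
  have e1 : (2 * c * (2 - 2 * c) - 2 * sin x * (2 * sin x)) / (2 - 2 * c) ^ 2 = -1 / (1 - c) := by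
    have : 2 - 2 * c ≠ 0 := by linarith
    have : 1 - c ≠ 0 := by linarith
    rw [div_eq_div_iff (by positivity) this]
    linear_combination (-4 * (1 - c)) * h3
  have e2 : 2 * s * c * (1 + s ^ 2 - 2 * s * c) - 2 * s * sin x * (2 * s * sin x) =
      2 * s * (1 + s ^ 2) * c - 4 * s ^ 2 := by
    linear_combination (-4 * s ^ 2) * h3
  rw [e1, e2, sub_nonpos, div_le_div_iff₀ (by linarith) (by positivity)]
  have h5 : 0 ≤ (1 - s) ^ 4 + 2 * s * (1 - s) ^ 2 * (1 - c) * (2 + c) := by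
    have : 0 ≤ 1 - c := by linarith
    have : 0 ≤ 2 + c := by linarith
    positivity
  nlinarith

lemma sum_wrap (n : ℕ) (j : Fin (n + 1)) (c : ℝ) :
    ∑ k : Fin (n + 1), (if k.val + j.val < n + 1 then 0 else c) = j.val * c := by
  rw [Fin.sum_univ_eq_sum_range (fun k => if k + j.val < n + 1 then 0 else c)]
  have hj := j.2
  have e : n + 1 = (n + 1 - j.val) + j.val := by omega
  conv_lhs => arg 1; rw [e]
  rw [sum_range_add, sum_eq_zero, zero_add]
  · rw [sum_congr rfl (g := fun _ => c)]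
    · simp
    · intro x hx
      rw [if_neg (by omega)]
  · intro x hx
    rw [if_pos (by have := mem_range.1 hx; omega)]

lemma energy_sorted {s : ℝ} (hs0 : 0 ≤ s) (hs1 : s < 1) (n : ℕ) (θ : Fin (n + 1) → ℝ)
    (hθ : StrictMono θ) (hr : ∀ k l, θ k - θ l < 2 * π) :
    ∑ k, ∑ l, G s (θ l - θ k) ≤ (n + 1) * ∑ j : Fin (n + 1), G s (2 * π * j.val / (n + 1)) := by
  have e1 : ∀ k, ∑ l, G s (θ l - θ k) = ∑ j, G s (θ (k + j) - θ k) := fun k =>
    (Equiv.sum_comp (Equiv.addLeft k) (fun l => G s (θ l - θ k))).symm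
  simp only [e1]
  rw [sum_comm, mul_sum]
  refine sum_le_sum fun j _ => ?_
  rcases eq_or_ne j 0 with rfl | hj
  · simp
  have hj0 : 0 < j.val := Nat.pos_of_ne_zero fun h => hj (Fin.ext h)
  set x : Fin (n + 1) → ℝ := fun k =>
    θ (k + j) - θ k + (if k.val + j.val < n + 1 then 0 else 2 * π) with hx
  have hxm : ∀ k, x k ∈ Set.Ioo 0 (2 * π) := by
    intro k
    simp only [hx]
    have hv := Fin.val_add k j
    have hk := k.2
    have hj2 := j.2
    split_ifs with h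
    · rw [Nat.mod_eq_of_lt h] at hv
      have : θ k < θ (k + j) := hθ (by rw [Fin.lt_def]; omega)
      exact ⟨by linarith, by linarith [hr (k + j) k]⟩
    · have : (k.val + j.val) % (n + 1) = k.val + j.val - (n + 1) := by
        rw [Nat.mod_eq_sub_mod (by omega), Nat.mod_eq_of_lt (by omega)]
      rw [this] at hv
      have : θ (k + j) < θ k := hθ (by rw [Fin.lt_def]; omega)
      exact ⟨by linarith [hr k (k + j)], by linarith⟩
  have hG : ∀ k, G s (θ (k + j) - θ k) = G s (x k) := by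
    intro k
    simp only [hx, G]
    split_ifs
    · simp
    · rw [cos_add_two_pi]
  have hsum : ∑ k, x k = j.val * (2 * π) := by
    simp only [hx]
    rw [sum_add_distrib, sum_sub_distrib, sum_wrap,
      Equiv.sum_comp (Equiv.addRight j) θ |>.symm]
    simp
  have hn : (0 : ℝ) < n + 1 := by positivity
  have J := (G_concave hs0 hs1).le_map_sum (t := univ) (w := fun _ => 1 / ((n : ℝ) + 1)) (p := x)
    (fun _ _ => by positivity) (by simp; field_simp) (fun k _ => hxm k)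
  simp only [smul_eq_mul, ← mul_sum, hsum] at J
  simp only [hG]
  rw [show 2 * π * j.val / ((n : ℝ) + 1) = 1 / ((n : ℝ) + 1) * (j.val * (2 * π)) by ring]
  have := mul_le_mul_of_nonneg_left J hn.le
  rwa [← mul_assoc, mul_one_div_cancel hn.ne', one_mul] at this

lemma energy_angles {s : ℝ} (hs0 : 0 ≤ s) (hs1 : s < 1) (n : ℕ) (θ : Fin (n + 1) → ℝ)
    (hθ : Function.Injective θ) (hr : ∀ k l, θ k - θ l < 2 * π) :
    ∑ k, ∑ l ∈ univ.erase k, G s (θ l - θ k) ≤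
      (n + 1) * ∑ i ∈ range n, G s (2 * π * (i + 1 : ℕ) / (n + 1)) := by
  set σ := Tuple.sort θ
  have h1 := energy_sorted hs0 hs1 n (θ ∘ σ)
    ((Tuple.monotone_sort θ).strictMono_of_injective (hθ.comp σ.injective)) (fun k l => hr _ _)
  have h2 : ∑ k, ∑ l, G s ((θ ∘ σ) l - (θ ∘ σ) k) = ∑ k, ∑ l, G s (θ l - θ k) := by
    rw [← Equiv.sum_comp σ (fun k => ∑ l, G s (θ l - θ k))]
    refine sum_congr rfl fun k _ => ?_
    exact Equiv.sum_comp σ (fun l => G s (θ l - θ (σ k)))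
  rw [h2, Fin.sum_univ_eq_sum_range (fun j => G s (2 * π * j / (n + 1))), sum_range_succ'] at h1
  have h3 : ∀ k, ∑ l, G s (θ l - θ k) = G s 0 + ∑ l ∈ univ.erase k, G s (θ l - θ k) := by
    intro k
    rw [← add_sum_erase univ _ (mem_univ k), sub_self]
  simp only [h3, sum_add_distrib, sum_const, card_univ, Fintype.card_fin, nsmul_eq_mul] at h1
  push_cast at h1 ⊢
  simp only [mul_zero, zero_div] at h1
  linarith

lemma normsq_exp (r x : ℝ) :
    ‖(r : ℂ) - Complex.exp (x * Complex.I)‖ ^ 2 = 1 + r ^ 2 - 2 * r * cos x := by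
  rw [← Complex.normSq_eq_norm_sq, Complex.normSq_apply]
  simp only [Complex.sub_re, Complex.sub_im, Complex.ofReal_re, Complex.ofReal_im,
    Complex.exp_ofReal_mul_I_re, Complex.exp_ofReal_mul_I_im]
  nlinarith [sin_sq_add_cos_sq x]

lemma sym_value {s : ℝ} (hs0 : 0 ≤ s) (hs1 : s < 1) (n : ℕ) :
    Real.exp (∑ i ∈ range n, G s (2 * π * (i + 1 : ℕ) / (n + 1))) =
      ((n + 1) * (1 - s) / (1 - s ^ (n + 1))) ^ 2 := by
  have hω := Complex.isPrimitiveRoot_exp (n + 1) (Nat.succ_ne_zero n)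
  set ω := Complex.exp (2 * π * Complex.I / (n + 1 : ℕ)) with hωd
  have hp : ∀ i : ℕ, ω ^ i = Complex.exp (((2 * π * i / (n + 1) : ℝ) : ℂ) * Complex.I) := by
    intro i
    rw [hωd, ← Complex.exp_nat_mul]
    congr 1
    push_cast; ring
  have a1 : ∏ i ∈ range n, (2 - 2 * cos (2 * π * (i + 1 : ℕ) / (n + 1))) = ((n : ℝ) + 1) ^ 2 := by
    have t := congrArg (fun z : ℂ => ‖z‖ ^ 2) hω.prod_one_sub_pow_eq_order
    simp only [norm_prod, ← prod_pow, hp] at t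
    have t2 : ‖(n : ℂ) + 1‖ = (n : ℝ) + 1 := by
      rw [show (n : ℂ) + 1 = ((n + 1 : ℕ) : ℂ) by push_cast; ring, Complex.norm_natCast]; push_cast; ring
    rw [t2] at t
    rw [← t]
    refine prod_congr rfl fun i _ => ?_
    have := normsq_exp 1 (2 * π * (i + 1 : ℕ) / (n + 1))
    rw [Complex.ofReal_one] at this
    rw [this]; ring
  have a2 : (∏ i ∈ range n, (1 + s ^ 2 - 2 * s * cos (2 * π * (i + 1 : ℕ) / (n + 1)))) * (1 - s) ^ 2 =
      (1 - s ^ (n + 1)) ^ 2 := by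
    have t0 := X_pow_sub_C_eq_prod hω n.zero_lt_succ (one_pow (n + 1))
    have t := congrArg (fun p : ℂ[X] => ‖p.eval (s : ℂ)‖ ^ 2) t0
    simp only [eval_sub, eval_pow, eval_X, eval_C, eval_prod, mul_one, norm_prod, ← prod_pow, hp,
      normsq_exp] at t
    rw [prod_range_succ'] at t
    have t2 : ‖(s : ℂ) ^ (n + 1) - 1‖ ^ 2 = (1 - s ^ (n + 1)) ^ 2 := by
      rw [show (s : ℂ) ^ (n + 1) - 1 = ((s ^ (n + 1) - 1 : ℝ) : ℂ) by push_cast; ring,
        Complex.norm_real, Real.norm_eq_abs, sq_abs]; ring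
    rw [← t2, t]
    congr 1
    simp; ring
  have hpos : ∀ i ∈ range n, 0 < 2 - 2 * cos (2 * π * (i + 1 : ℕ) / (n + 1)) := by
    intro i hi
    have hi' : (i : ℝ) < n := by exact_mod_cast mem_range.1 hi
    have : cos (2 * π * (i + 1 : ℕ) / (n + 1)) < 1 := by
      apply cos_lt_one_of_mem
      constructor
      · have := pi_pos; positivity
      · rw [div_lt_iff₀ (by positivity)]
        push_cast
        nlinarith [pi_pos]
    linarith
  rw [Real.exp_sum]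
  have a3 : ∏ i ∈ range n, Real.exp (G s (2 * π * (i + 1 : ℕ) / (n + 1))) =
      ∏ i ∈ range n, (2 - 2 * cos (2 * π * (i + 1 : ℕ) / (n + 1))) /
        (1 + s ^ 2 - 2 * s * cos (2 * π * (i + 1 : ℕ) / (n + 1))) := by
    refine prod_congr rfl fun i hi => ?_
    rw [G, Real.exp_sub, Real.exp_log (hpos i hi), Real.exp_log (den_pos hs0 hs1 _)]
  rw [a3, prod_div_distrib, a1]
  have b1 : 0 < 1 - s ^ (n + 1) := by
    exact sub_pos.2 (pow_lt_one₀ hs0 hs1 (Nat.succ_ne_zero n))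
  have b2 : 0 < ∏ i ∈ range n, (1 + s ^ 2 - 2 * s * cos (2 * π * (i + 1 : ℕ) / (n + 1))) :=
    prod_pos fun i _ => den_pos hs0 hs1 _
  rw [div_pow, div_eq_div_iff b2.ne' (by positivity), ← a2]
  ring

lemma energy (n : ℕ) (τ : Fin (n + 1) → ℂ) (t : ℝ) (ht0 : 0 < t) (ht1 : t < 1)
    (hτ : ∀ k, ‖τ k‖ = t) :
    ∏ k, ∏ l ∈ univ.erase k, ‖τ k - τ l‖ ≤
      (∏ k, ‖Qs τ (τ k)‖) * (t ^ n * ((n + 1) / (1 - (t ^ 2) ^ (n + 1)))) ^ (n + 1) := by
  have hs0 : 0 ≤ t ^ 2 := by positivity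
  have hs1 : t ^ 2 < 1 := by nlinarith
  have b1 : 0 < 1 - (t ^ 2) ^ (n + 1) := by
    exact sub_pos.2 (pow_lt_one₀ hs0 hs1 (Nat.succ_ne_zero n))
  by_cases hinj : Function.Injective τ
  swap
  · obtain ⟨k, l, hkl, hne⟩ := Function.not_injective_iff.1 hinj
    rw [prod_eq_zero (mem_univ k)
      (prod_eq_zero (mem_erase.2 ⟨hne.symm, mem_univ l⟩) (by rw [hkl]; simp))]
    positivity
  set θ : Fin (n + 1) → ℝ := fun k => Complex.arg (τ k) with hθ
  have hpol : ∀ k, τ k = t * Complex.exp (θ k * Complex.I) := by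
    intro k
    rw [← hτ k]; exact (Complex.norm_mul_exp_arg_mul_I (τ k)).symm
  have hθi : Function.Injective θ := by
    intro k l h
    apply hinj
    rw [hpol k, hpol l, h]
  have E := energy_angles hs0 hs1 n θ hθi (fun k l => by
    have h1 := Complex.arg_le_pi (τ k)
    have h2 := Complex.neg_pi_lt_arg (τ l)
    simp only [hθ]; linarith)
  have n1 : ∀ k l, ‖τ k - τ l‖ ^ 2 = t ^ 2 * (2 - 2 * cos (θ l - θ k)) := by
    intro k l
    have : τ k - τ l = t * Complex.exp (θ k * Complex.I) *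
        ((1 : ℝ) - Complex.exp (((θ l - θ k : ℝ) : ℂ) * Complex.I)) := by
      have q : Complex.exp (θ k * Complex.I) * Complex.exp (((θ l - θ k : ℝ) : ℂ) * Complex.I) =
          Complex.exp (θ l * Complex.I) := by
        rw [← Complex.exp_add]; push_cast; ring_nf
      rw [hpol k, hpol l, Complex.ofReal_one]
      linear_combination (t : ℂ) * q
    rw [this, norm_mul, norm_mul, mul_pow, normsq_exp, Complex.norm_exp_ofReal_mul_I,
      Complex.norm_real, Real.norm_of_nonneg ht0.le]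
    ring
  have n2 : ∀ k l, ‖1 - conj (τ l) * τ k‖ ^ 2 =
      1 + (t ^ 2) ^ 2 - 2 * t ^ 2 * cos (θ l - θ k) := by
    intro k l
    have : 1 - conj (τ l) * τ k = -Complex.exp (((θ k - θ l : ℝ) : ℂ) * Complex.I) *
        (((t ^ 2 : ℝ) : ℂ) - Complex.exp (((θ l - θ k : ℝ) : ℂ) * Complex.I)) := by
      rw [hpol k, hpol l, map_mul, Complex.conj_ofReal, ← Complex.exp_conj, map_mul,
        Complex.conj_ofReal, Complex.conj_I]
      have q1 : Complex.exp (((θ k - θ l : ℝ) : ℂ) * Complex.I) *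
          Complex.exp (((θ l - θ k : ℝ) : ℂ) * Complex.I) = 1 := by
        rw [← Complex.exp_add]; push_cast; ring_nf; simp
      have q2 : Complex.exp (θ l * -Complex.I) * Complex.exp (θ k * Complex.I) =
          Complex.exp (((θ k - θ l : ℝ) : ℂ) * Complex.I) := by
        rw [← Complex.exp_add]; push_cast; ring_nf
      push_cast at q1 q2 ⊢
      linear_combination -q1 - (t : ℂ) ^ 2 * q2
    rw [this, norm_mul, norm_neg, Complex.norm_exp_ofReal_mul_I, one_mul, normsq_exp]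
  have n3 : ∀ k, ∀ l ∈ univ.erase k,
      ‖τ k - τ l‖ ^ 2 = ‖1 - conj (τ l) * τ k‖ ^ 2 * (t ^ 2 * Real.exp (G (t ^ 2) (θ l - θ k))) := by
    intro k l hl
    have hne : τ k - τ l ≠ 0 := sub_ne_zero.2 fun h => (mem_erase.1 hl).1 (hinj h).symm
    have p1 : 0 < ‖τ k - τ l‖ ^ 2 := pow_pos (norm_pos_iff.2 hne) 2
    rw [n1] at p1
    have p2 : 0 < 2 - 2 * cos (θ l - θ k) := by
      by_contra h
      push Not at h
      nlinarith
    have p3 := den_pos hs0 hs1 (θ l - θ k)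
    rw [n1, n2, G, Real.exp_sub, Real.exp_log p2, Real.exp_log p3]
    generalize 1 + (t ^ 2) ^ 2 - 2 * t ^ 2 * cos (θ l - θ k) = D at p3 ⊢
    field_simp
  have n4 : ∀ k, ‖Qs τ (τ k)‖ = (1 - t ^ 2) * ∏ l ∈ univ.erase k, ‖1 - conj (τ l) * τ k‖ := by
    intro k
    rw [Qs, ← mul_prod_erase univ (fun l => 1 - conj (τ l) * τ k) (mem_univ k), norm_mul,
      norm_prod, one_sub_conj_mul, hτ, Complex.norm_real, Real.norm_of_nonneg (by linarith)]
  refine (abs_le_of_sq_le_sq' ?_ (by positivity)).2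
  have l1 : (∏ k, ∏ l ∈ univ.erase k, ‖τ k - τ l‖) ^ 2 =
      (∏ k, ∏ l ∈ univ.erase k, ‖1 - conj (τ l) * τ k‖) ^ 2 * (((t ^ 2) ^ n) ^ (n + 1) *
        Real.exp (∑ k, ∑ l ∈ univ.erase k, G (t ^ 2) (θ l - θ k))) := by
    simp only [← prod_pow, Real.exp_sum]
    rw [prod_congr rfl fun k _ => prod_congr rfl (n3 k)]
    simp only [prod_mul_distrib, prod_const, card_erase_of_mem (mem_univ _), card_univ,
      Fintype.card_fin, Nat.add_sub_cancel]
  have l2 : Real.exp (∑ k, ∑ l ∈ univ.erase k, G (t ^ 2) (θ l - θ k)) ≤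
      (((n + 1) * (1 - t ^ 2) / (1 - (t ^ 2) ^ (n + 1))) ^ 2) ^ (n + 1) := by
    rw [← sym_value hs0 hs1 n, ← Real.exp_nat_mul]
    apply Real.exp_le_exp.2
    push_cast at E ⊢
    exact E
  rw [l1]
  simp only [n4, prod_mul_distrib, prod_const, card_univ, Fintype.card_fin]
  refine (mul_le_mul_of_nonneg_left (mul_le_mul_of_nonneg_left l2 (by positivity))
    (by positivity)).trans (le_of_eq ?_)
  generalize (∏ k, ∏ l ∈ univ.erase k, ‖1 - conj (τ l) * τ k‖) = W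
  generalize (1 - (t ^ 2) ^ (n + 1)) = D
  generalize (1 - t ^ 2) = U
  generalize ((n : ℝ) + 1) = V
  simp only [mul_pow, div_pow]
  ring

lemma exists_le_of_prod {m : ℕ} (hm : 1 ≤ m) (x y : Fin m → ℝ) (hy : ∀ i, 0 < y i)
    (h : ∏ i, x i ≤ ∏ i, y i) : ∃ i, x i ≤ y i := by
  by_contra hc
  push Not at hc
  have hne : (univ : Finset (Fin m)).Nonempty := ⟨⟨0, hm⟩, mem_univ _⟩
  exact absurd (prod_lt_prod_of_nonempty (fun i _ => hy i) (fun i _ => hc i) hne) (not_lt.2 h)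

lemma equal_mod {m : ℕ} (hm : 1 ≤ m) (τ : Fin m → ℂ) (t : ℝ) (ht0 : 0 < t) (ht1 : t < 1)
    (hτ : ∀ k, ‖τ k‖ = t) :
    ∃ ζ : ℂ, ‖ζ‖ < 1 ∧ N τ ζ = 0 ∧
      ‖Q τ ζ‖ ≤ m / (m + 1 - t ^ (2 * m)) * (∏ k, ‖τ k‖) * ‖Qs τ ζ‖ := by
  have hτ' : ∀ k, τ k ≠ 0 ∧ ‖τ k‖ < 1 := fun k =>
    ⟨norm_pos_iff.1 (by rw [hτ]; exact ht0), by rw [hτ]; exact ht1⟩
  obtain ⟨K, ζ, hζ, hK⟩ := N_factor τ hτ'
  have C := criterion hm τ hτ' K ζ hζ hK
  obtain ⟨n, rfl⟩ : ∃ n, m = n + 1 := ⟨m - 1, by omega⟩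
  have E := energy n τ t ht0 ht1 hτ
  have hA : ∏ k, ‖τ k‖ = t ^ (n + 1) := by simp [hτ]
  have hQs : ∀ z, ‖z‖ ≤ 1 → 0 < ‖Qs τ z‖ := fun z hz =>
    norm_pos_iff.2 (prod_ne_zero_iff.2 fun k _ => one_sub_ne (hτ' k).2 hz)
  have hR : 0 < ∏ k, ‖Qs τ (τ k)‖ := prod_pos fun k _ => hQs _ (hτ' k).2.le
  have hu : t ^ (2 * (n + 1)) < 1 := pow_lt_one₀ ht0.le ht1 (by omega)
  rw [hA] at C ⊢
  rw [show (t ^ (n + 1)) ^ 2 = t ^ (2 * (n + 1)) by ring] at C
  rw [← pow_mul] at E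
  push_cast at C ⊢
  set u := t ^ (2 * (n + 1)) with hud
  have hu1 : 0 < 1 - u := by linarith
  have hu2 : 0 < (n : ℝ) + 1 + 1 - u := by have : (0 : ℝ) ≤ n := Nat.cast_nonneg n; linarith
  obtain ⟨i, hi⟩ := exists_le_of_prod hm (fun i => ‖Q τ (ζ i)‖)
    (fun i => ((n : ℝ) + 1) / (n + 1 + 1 - u) * t ^ (n + 1) * ‖Qs τ (ζ i)‖)
    (fun i => by have := hQs _ (hζ i).le; positivity) (by
      have hM : 0 < (∏ k, ‖Qs τ (τ k)‖) * (((n : ℝ) + 1) / (1 - u) + 1) ^ (n + 1) := by positivity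
      apply le_of_mul_le_mul_right _ hM
      refine C.trans ?_
      have hY : 0 ≤ ∏ i, ‖Qs τ (ζ i)‖ := prod_nonneg fun _ _ => norm_nonneg _
      refine (mul_le_mul_of_nonneg_left (mul_le_mul_of_nonneg_left E (by positivity)) hY).trans
        (le_of_eq ?_)
      rw [prod_mul_distrib, prod_const, card_univ, Fintype.card_fin]
      have e : t * (t ^ n * ((n + 1) / (1 - u))) =
          ((n : ℝ) + 1) / (n + 1 + 1 - u) * t ^ (n + 1) * (((n : ℝ) + 1) / (1 - u) + 1) := by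
        field_simp
        ring
      have e2 := congrArg (fun z => z ^ (n + 1)) e
      simp only [mul_pow t, mul_pow _ (((n : ℝ) + 1) / (1 - u) + 1)] at e2
      linear_combination (∏ i, ‖Qs τ (ζ i)‖) * (∏ k, ‖Qs τ (τ k)‖) * e2)
  refine ⟨ζ i, hζ i, ?_, hi⟩
  rw [hK, prod_eq_zero (mem_univ i) (by simp [g]), mul_zero]

lemma finish {m : ℕ} (τ : Fin m → ℂ) (hτ : ∀ k, ‖τ k‖ < 1) (c : ℝ)
    (h : ∃ ζ : ℂ, ‖ζ‖ < 1 ∧ N τ ζ = 0 ∧ ‖Q τ ζ‖ ≤ c * (∏ k, ‖τ k‖) * ‖Qs τ ζ‖) :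
    ∃ ζ : ℂ, ‖ζ‖ < 1 ∧
      deriv (fun z : ℂ => z * ∏ k, (z - τ k) / (1 - starRingEnd ℂ (τ k) * z)) ζ = 0 ∧
      ‖ζ * ∏ k, (ζ - τ k) / (1 - starRingEnd ℂ (τ k) * ζ)‖ ≤
        c * ‖deriv (fun z : ℂ => z * ∏ k, (z - τ k) / (1 - starRingEnd ℂ (τ k) * z)) 0‖ * ‖ζ‖ := by
  obtain ⟨ζ, h1, h2, h3⟩ := h
  have hne : ∀ k, 1 - conj (τ k) * ζ ≠ 0 := fun k => one_sub_ne (hτ k) h1.le
  have hQ : 0 < ‖Qs τ ζ‖ := norm_pos_iff.2 (prod_ne_zero_iff.2 fun k _ => hne k)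
  refine ⟨ζ, h1, by rw [deriv_eq τ ζ hne, h2, zero_div], ?_⟩
  rw [deriv_zero, prod_div_distrib, norm_mul, norm_div, mul_comm]
  exact mul_le_mul_of_nonneg_right ((div_le_iff₀ hQ).2 h3) (norm_nonneg _)

end

end Pool.Agent.P.MP_c3cac0_an
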