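import Mathlib

/-! A function on the disc, close to the identity, large on the circle, whose critical points lie
near the roots of `-1` and have critical values of modulus close to one. -/

set_option autoImplicit false

open Set Metric Filter Topology Complex

namespace Pool.Agent.P.MP_c3cac0_an.Four

noncomputable def mo (r : ℝ) (x : ℂ) : ℂ := (x + r) / (1 + r * x)

noncomputable def DD (r : ℝ) (n : ℕ) (x : ℂ) : ℂ := (mo r x / r) ^ n / (1 + r * x) ^ 2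

noncomputable def GG (r : ℝ) (n : ℕ) (x : ℂ) : ℂ := (mo r x / r) ^ (n + 1)

theorem hasDerivAt_GG {r : ℝ} (hr : r ≠ 0) (n : ℕ) {x : ℂ} (hx : 1 + r * x ≠ 0) :
    HasDerivAt (GG r n) ((((n + 1) * (1 - r ^ 2) / r : ℝ) : ℂ) * DD r n x) x := by
  have hr' : (r : ℂ) ≠ 0 := by exact_mod_cast hr
  have h1 : HasDerivAt (mo r) ((1 - r ^ 2) / (1 + r * x) ^ 2) x := by
    refine (((hasDerivAt_id x).add_const (r : ℂ)).div
      (((hasDerivAt_id x).const_mul (r : ℂ)).const_add 1) hx).congr_deriv ?_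
    simp only [id]
    congr 1
    ring
  refine ((h1.div_const (r : ℂ)).pow (n + 1)).congr_deriv ?_
  simp only [DD, Nat.add_sub_cancel]
  push_cast
  field_simp

theorem den_low {r u : ℝ} (hr : 0 ≤ r) {x : ℂ} (hx : ‖x‖ ≤ u) : 1 - r * u ≤ ‖1 + r * x‖ := by
  have := norm_sub_le (1 + r * x) (r * x)
  rw [add_sub_cancel_right, norm_one, norm_mul, norm_real, Real.norm_eq_abs, abs_of_nonneg hr]
    at this
  nlinarith

theorem den_ne {r : ℝ} (hr : 0 ≤ r) (hr1 : r < 1) {x : ℂ} (hx : ‖x‖ ≤ 1) : 1 + r * x ≠ 0 :=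
  norm_pos_iff.mp (lt_of_lt_of_le (by linarith) (den_low hr hx))

theorem mo_id (r : ℝ) (x : ℂ) :
    ‖x + r‖ ^ 2 = ‖1 + r * x‖ ^ 2 - (1 - r ^ 2) * (1 - ‖x‖ ^ 2) := by
  simp only [Complex.sq_norm, normSq_apply]
  simp
  ring

theorem mo_le_one {r : ℝ} (hr : 0 ≤ r) (hr1 : r < 1) {x : ℂ} (hx : ‖x‖ ≤ 1) : ‖mo r x‖ ≤ 1 := by
  rw [mo, norm_div]
  refine div_le_one_of_le₀ (le_of_sq_le_sq ?_ (norm_nonneg _)) (norm_nonneg _)
  have : 0 ≤ (1 - r ^ 2) * (1 - ‖x‖ ^ 2) :=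
    mul_nonneg (by nlinarith) (by nlinarith [norm_nonneg x])
  rw [mo_id]; linarith

theorem mo_eq_one {r : ℝ} (hr : 0 ≤ r) (hr1 : r < 1) {x : ℂ} (hx : ‖x‖ = 1) : ‖mo r x‖ = 1 := by
  rw [mo, norm_div, div_eq_one_iff_eq (norm_ne_zero_iff.mpr (den_ne hr hr1 hx.le))]
  have := mo_id r x
  rw [hx, one_pow, sub_self, mul_zero, sub_zero] at this
  exact (pow_left_inj₀ (norm_nonneg _) (norm_nonneg _) two_ne_zero).mp this

theorem mo_small {r : ℝ} (hr : 0 ≤ r) (hr1 : r < 1) {x : ℂ} (hx : ‖x‖ ≤ 8 / 9) :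
    ‖mo r x‖ ≤ 1 - (1 - r ^ 2) / 40 := by
  have hq : 0 ≤ 1 - r ^ 2 := by nlinarith
  have hq1 : 1 - r ^ 2 ≤ 1 := by nlinarith
  rw [mo, norm_div, div_le_iff₀ (norm_pos_iff.mpr (den_ne hr hr1 (by linarith)))]
  refine le_of_sq_le_sq ?_ (mul_nonneg (by linarith) (norm_nonneg _))
  have hb : ‖1 + r * x‖ ≤ 2 := by
    have := norm_add_le (1 : ℂ) (r * x)
    rw [norm_one, norm_mul, norm_real, Real.norm_eq_abs, abs_of_nonneg hr] at this
    nlinarith [norm_nonneg x]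
  have hb2 : ‖1 + r * x‖ ^ 2 ≤ 4 := by nlinarith [norm_nonneg (1 + r * x)]
  have hx2 : 1 / 5 ≤ 1 - ‖x‖ ^ 2 := by nlinarith [norm_nonneg x]
  rw [mo_id, mul_pow]
  generalize ‖1 + r * x‖ ^ 2 = b at hb2 ⊢
  have hb0 : 0 ≤ ‖1 + r * x‖ ^ 2 := by positivity
  generalize 1 - ‖x‖ ^ 2 = v at hx2 ⊢
  generalize 1 - r ^ 2 = q at hq hq1 ⊢
  rcases le_or_gt 0 b with h | h
  · nlinarith [mul_nonneg hq (sub_nonneg.mpr hx2), mul_nonneg hq (sub_nonneg.mpr hb2),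
      mul_nonneg (sq_nonneg q) h]
  · nlinarith [mul_nonneg hq (sub_nonneg.mpr hx2), mul_nonneg hq (neg_pos.mpr h).le,
      mul_nonneg (mul_nonneg hq (sub_nonneg.mpr hq1)) (neg_pos.mpr h).le]

theorem ray_bound {A : ℂ → ℂ} {A' : ℝ → ℂ} {τ : ℂ} (hτ : ‖τ‖ = 1) {a b C : ℝ} (hab : a ≤ b)
    (h : ∀ s ∈ Icc a b, HasDerivAt A (A' s) (s * τ)) (hb : ∀ s ∈ Icc a b, ‖A' s‖ ≤ C) :
    ‖A (b * τ) - A (a * τ)‖ ≤ C * (b - a) := by
  refine norm_image_sub_le_of_norm_deriv_le_segment' (f := fun s : ℝ => A (s * τ))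
    (f' := fun s => A' s * (1 * τ)) (fun s hs => ?_) (fun s hs => ?_) b (right_mem_Icc.mpr hab)
  · exact (((h s hs).comp (s : ℂ) ((hasDerivAt_id (s : ℂ)).mul_const τ)).comp_ofReal).hasDerivWithinAt
  · rw [one_mul, norm_mul, hτ, mul_one]
    exact hb s (Ico_subset_Icc_self hs)

theorem circle_bound {r κ : ℝ} {n M : ℕ} (hr : 0 < r) (hr1 : r < 1) {B : ℂ → ℂ}
    (hB : ∀ z, ‖z‖ ≤ 1 → HasDerivAt B (DD r n (z ^ (M + 1))) z) (hB0 : B 0 = 0)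
    (hκ : (1 - (1 - r ^ 2) / 40) ^ n ≤ κ) {τ : ℂ} (hτ : ‖τ‖ = 1) :
    r⁻¹ ^ (n + 1) / ((n + 1) * (1 - r ^ 2) / r * (M + 1)) * (6 / 7 - 8 / 7 * κ) -
      81 * (r⁻¹ ^ (n + 1) * κ) ≤ ‖B τ‖ := by
  set Q := r⁻¹ ^ (n + 1) with hQ
  set Λ : ℝ := (n + 1) * (1 - r ^ 2) / r with hΛ
  have hq : 0 < 1 - r ^ 2 := by nlinarith
  have hΛ0 : 0 < Λ := by positivity
  have hQ0 : 0 < Q := by positivity
  have hM : (0 : ℝ) < M + 1 := by positivity
  have hri : 1 ≤ r⁻¹ := (one_le_inv₀ hr).mpr hr1.le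
  set a : ℝ := 1 / (8 * (M + 1)) with ha
  have ha0 : 0 < a := by positivity
  have haM : (M + 1) * a = 1 / 8 := by rw [ha]; field_simp
  have ha1 : a ≤ 1 / 8 := by nlinarith [(Nat.cast_nonneg M : (0 : ℝ) ≤ M)]
  have hu1 : 7 / 8 ≤ (1 - a) ^ (M + 1) := by
    have := one_add_mul_le_pow (a := -a) (by linarith) (M + 1)
    push_cast at this
    rw [← sub_eq_add_neg] at this
    linarith
  have hu2 : (1 - a) ^ (M + 1) ≤ 8 / 9 := by
    have h1 := one_add_mul_le_pow (a := a) (by linarith) (M + 1)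
    push_cast at h1
    have h2 : (1 - a) ^ (M + 1) * (1 + a) ^ (M + 1) ≤ 1 := by
      rw [← mul_pow]
      exact pow_le_one₀ (by nlinarith) (by nlinarith)
    nlinarith
  have hn : ∀ s : ℝ, 0 ≤ s → ‖(s : ℂ) * τ‖ = s := fun s hs => by
    rw [norm_mul, hτ, mul_one, norm_real, Real.norm_eq_abs, abs_of_nonneg hs]
  have hmo : ∀ (x : ℂ) (j : ℕ), ‖(mo r x / r) ^ j‖ = ‖mo r x‖ ^ j * r⁻¹ ^ j := fun x j => by
    rw [norm_pow, norm_div, norm_real, Real.norm_eq_abs, abs_of_pos hr, div_eq_mul_inv, mul_pow]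
  have hκ' : ∀ x : ℂ, ‖x‖ ≤ 8 / 9 → ‖mo r x‖ ^ n ≤ κ := fun x hx =>
    (pow_le_pow_left₀ (norm_nonneg _) (mo_small hr.le hr1 hx) n).trans hκ
  have hκ0 : 0 ≤ κ := le_trans (by positivity) (hκ' 0 (by norm_num))
  -- inner part
  have p1 := ray_bound hτ (a := 0) (b := 1 - a) (C := 81 * (Q * κ)) (by linarith)
    (fun s hs => hB _ (by rw [hn s hs.1]; linarith [hs.2])) (fun s hs => by
      have hx : ‖((s : ℂ) * τ) ^ (M + 1)‖ ≤ 8 / 9 := by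
        rw [norm_pow, hn s hs.1]
        exact (pow_le_pow_left₀ hs.1 hs.2 _).trans hu2
      have b1 := den_low hr.le hx
      have b2 : 1 / 9 ≤ ‖1 + r * ((s : ℂ) * τ) ^ (M + 1)‖ := by nlinarith
      have b3 := pow_le_pow_left₀ (by norm_num) b2 2
      rw [DD, norm_div, hmo, norm_pow, div_le_iff₀ (by nlinarith)]
      have b4 : r⁻¹ ^ n ≤ Q := pow_le_pow_right₀ hri (Nat.le_succ n)
      have b5 := mul_le_mul (hκ' _ hx) b4 (by positivity) hκ0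
      have b6 := mul_nonneg hQ0.le hκ0
      nlinarith)
  rw [ofReal_zero, zero_mul, hB0, sub_zero, sub_zero] at p1
  -- outer part
  have hΛc : (Λ : ℂ) ≠ 0 := by exact_mod_cast hΛ0.ne'
  have hMc : ((M : ℂ) + 1) ≠ 0 := by exact_mod_cast hM.ne'
  have hnorm : ∀ (s : ℝ) (w : ℂ), 0 ≤ s →
      ‖w / (Λ * (M + 1) * ((s : ℂ) * τ) ^ (M + 1))‖ = ‖w‖ / (Λ * (M + 1) * s ^ (M + 1)) := by
    intro s w hs
    rw [norm_div, norm_mul, norm_mul, norm_pow, hn s hs, norm_real, Real.norm_eq_abs,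
      abs_of_pos hΛ0, show ‖(M : ℂ) + 1‖ = M + 1 by exact_mod_cast Complex.norm_natCast (M + 1)]
  have p2 := ray_bound hτ (a := 1 - a) (b := 1) (C := Q / (Λ * (7 / 8)))
    (A := fun z => B z - z * GG r n (z ^ (M + 1)) / (Λ * (M + 1) * z ^ (M + 1)))
    (A' := fun s => M * GG r n ((s * τ) ^ (M + 1)) / (Λ * (M + 1) * (s * τ) ^ (M + 1)))
    (by linarith) (fun s hs => by
      have hs0 : 0 ≤ s := by linarith [hs.1]
      have hz1 : ‖(s : ℂ) * τ‖ ≤ 1 := by rw [hn s hs0]; exact hs.2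
      have hz0 : (s : ℂ) * τ ≠ 0 := norm_pos_iff.mp (by rw [hn s hs0]; linarith [hs.1])
      generalize (s : ℂ) * τ = z at hz1 hz0
      have c1 := hasDerivAt_pow (M + 1) z
      have c2 := (hasDerivAt_GG hr.ne' n (den_ne hr.le hr1 (x := z ^ (M + 1)) (by
        rw [norm_pow]; exact pow_le_one₀ (norm_nonneg _) hz1))).comp z c1
      have c3 := ((hasDerivAt_id z).mul c2).div (c1.const_mul ((Λ : ℂ) * (M + 1)))
        (mul_ne_zero (mul_ne_zero hΛc hMc) (pow_ne_zero _ hz0))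
      refine ((hB z hz1).sub c3).congr_deriv ?_
      simp only [Function.comp, id, Pi.mul_apply, Nat.add_sub_cancel, ← hΛ]
      push_cast
      field_simp
      ring) (fun s hs => by
      have hs0 : 0 ≤ s := by linarith [hs.1]
      have hx : ‖((s : ℂ) * τ) ^ (M + 1)‖ ≤ 1 := by
        rw [norm_pow, hn s hs0]; exact pow_le_one₀ hs0 hs.2
      have b1 : 7 / 8 ≤ s ^ (M + 1) := hu1.trans (pow_le_pow_left₀ (by linarith) hs.1 _)
      have b2 : ‖GG r n ((s * τ) ^ (M + 1))‖ ≤ Q := by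
        rw [GG, hmo]
        exact mul_le_of_le_one_left hQ0.le (pow_le_one₀ (norm_nonneg _) (mo_le_one hr.le hr1 hx))
      rw [hnorm s _ hs0, norm_mul, Complex.norm_natCast]
      calc M * ‖GG r n ((s * τ) ^ (M + 1))‖ / (Λ * (M + 1) * s ^ (M + 1))
          ≤ (M + 1) * Q / (Λ * (M + 1) * (7 / 8)) := by gcongr; linarith
        _ = Q / (Λ * (7 / 8)) := by field_simp)
  have p3 := hnorm 1 (((1 : ℝ) : ℂ) * τ * GG r n ((((1 : ℝ) : ℂ) * τ) ^ (M + 1))) zero_le_one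
  rw [norm_mul, hn 1 zero_le_one, GG, hmo, mo_eq_one hr.le hr1 (by
    rw [norm_pow, hn 1 zero_le_one, one_pow]), one_pow, one_pow, one_mul, one_mul, mul_one,
    ← hQ, ← GG] at p3
  have p4 : ‖((1 - a : ℝ) : ℂ) * τ * GG r n ((((1 - a : ℝ) : ℂ) * τ) ^ (M + 1)) /
      (Λ * (M + 1) * (((1 - a : ℝ) : ℂ) * τ) ^ (M + 1))‖ ≤ Q * κ / (Λ * (M + 1) * (7 / 8)) := by
    have hs0 : 0 ≤ 1 - a := by linarith
    have hx : ‖(((1 - a : ℝ) : ℂ) * τ) ^ (M + 1)‖ ≤ 8 / 9 := by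
      rw [norm_pow, hn _ hs0]; exact hu2
    have b2 : ‖GG r n ((((1 - a : ℝ) : ℂ) * τ) ^ (M + 1))‖ ≤ Q * κ := by
      rw [GG, hmo, mul_comm]
      refine mul_le_mul_of_nonneg_left ?_ hQ0.le
      rw [pow_succ]
      exact (mul_le_of_le_one_right (by positivity)
        (mo_le_one hr.le hr1 (by linarith))).trans (hκ' _ hx)
    rw [hnorm _ _ hs0, norm_mul, hn _ hs0]
    have b3 : (1 - a) * ‖GG r n ((((1 - a : ℝ) : ℂ) * τ) ^ (M + 1))‖ ≤ Q * κ :=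
      (mul_le_of_le_one_left (norm_nonneg _) (by linarith)).trans b2
    gcongr
  have e1 : Q / (Λ * (7 / 8)) * (1 - (1 - a)) = Q / (Λ * (M + 1)) * (1 / 7) := by
    rw [sub_sub_cancel, ha]; field_simp
  have e2 : Q * κ / (Λ * (M + 1) * (7 / 8)) = Q / (Λ * (M + 1)) * (8 / 7 * κ) := by field_simp
  rw [e1] at p2
  rw [e2] at p4
  have key : ∀ x y u v : ℂ, ‖u‖ ≤ ‖x‖ + ‖x - u - (y - v)‖ + ‖y‖ + ‖v‖ := by
    intro x y u v
    calc ‖u‖ = ‖x - (x - u - (y - v)) - y + v‖ := by congr 1; ring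
      _ ≤ _ := (norm_add_le _ _).trans (add_le_add_left
        ((norm_sub_le _ _).trans (add_le_add_left (norm_sub_le _ _) _)) _)
  have p5 := key (B (((1 : ℝ) : ℂ) * τ)) (B (((1 - a : ℝ) : ℂ) * τ))
    (((1 : ℝ) : ℂ) * τ * GG r n ((((1 : ℝ) : ℂ) * τ) ^ (M + 1)) /
      (Λ * (M + 1) * (((1 : ℝ) : ℂ) * τ) ^ (M + 1)))
    (((1 - a : ℝ) : ℂ) * τ * GG r n ((((1 - a : ℝ) : ℂ) * τ) ^ (M + 1)) /
      (Λ * (M + 1) * (((1 - a : ℝ) : ℂ) * τ) ^ (M + 1)))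
  have p6 : 81 * (Q * κ) * (1 - a) ≤ 81 * (Q * κ) :=
    mul_le_of_le_one_right (by positivity) (by linarith)
  have p7 : ‖B (((1 : ℝ) : ℂ) * τ)‖ = ‖B τ‖ := by rw [ofReal_one, one_mul]
  linarith

theorem crit_value {r ε : ℝ} {n N : ℕ} (hN : N ≠ 0) (hr : 0 < r) (hr1 : r < 1) (hε : 0 < ε)
    (hε1 : ε < 1) {B : ℂ → ℂ} (hB : ∀ z, ‖z‖ ≤ 1 → HasDerivAt B (DD r n (z ^ N)) z) (hB0 : B 0 = 0)
    (h1 : (1 - ε) ^ N ≤ 1 / 2) (h2 : n * (1 - r ^ 2) * (1 - ε) ^ N ≤ ε / 2) {τ : ℂ}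
    (hτ : τ ^ N = -r) (hτ1 : ‖τ‖ ≤ 1) : ‖τ‖ * (1 - ε) ^ 2 ≤ ‖B τ‖ := by
  have hr' : (r : ℂ) ≠ 0 := by exact_mod_cast hr.ne'
  have hτ0 : τ ≠ 0 := by
    rintro rfl
    rw [zero_pow hN] at hτ
    exact hr' (neg_eq_zero.mp hτ.symm)
  have hq : 0 < 1 - r ^ 2 := by nlinarith
  have hden : ∀ s ∈ Icc (0 : ℝ) 1, 0 < 1 - r ^ 2 * s ^ N := fun s hs => by
    have := pow_le_one₀ hs.1 hs.2 (n := N)
    nlinarith [sq_nonneg r]
  have hder : ∀ s ∈ Icc (0 : ℝ) 1, HasDerivAt (fun x : ℝ => (B (x * τ) / τ).re)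
      (((1 - s ^ N) / (1 - r ^ 2 * s ^ N)) ^ n / (1 - r ^ 2 * s ^ N) ^ 2) s := by
    intro s hs
    have b1 := (((hB (s * τ) (by
      rw [norm_mul, norm_real, Real.norm_eq_abs, abs_of_nonneg hs.1]
      exact mul_le_one₀ hs.2 (norm_nonneg _) hτ1)).comp (s : ℂ)
        ((hasDerivAt_id (s : ℂ)).mul_const τ)).div_const τ)
    have hd : (1 - (r : ℂ) ^ 2 * s ^ N) ≠ 0 := by exact_mod_cast (hden s hs).ne'
    have b2 := (b1.congr_deriv (g' := ((((1 - s ^ N) / (1 - r ^ 2 * s ^ N)) ^ n /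
        (1 - r ^ 2 * s ^ N) ^ 2 : ℝ) : ℂ)) (by
      have e : (1 : ℂ) + r * (s ^ N * -r) = 1 - r ^ 2 * s ^ N := by ring
      rw [one_mul, mul_div_cancel_right₀ _ hτ0, DD, mo, mul_pow, hτ, e]
      push_cast
      congr 2
      field_simp
      ring)).real_of_complex
    rwa [ofReal_re] at b2
  have step : ∀ a b C : ℝ, 0 ≤ a → a ≤ b → b ≤ 1 → (∀ s ∈ Icc a b,
      C ≤ ((1 - s ^ N) / (1 - r ^ 2 * s ^ N)) ^ n / (1 - r ^ 2 * s ^ N) ^ 2) →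
      C * (b - a) ≤ (B (b * τ) / τ).re - (B (a * τ) / τ).re := by
    intro a b C ha hab hb hC
    have hs : Icc a b ⊆ Icc 0 1 := Icc_subset_Icc ha hb
    exact (convex_Icc a b).mul_sub_le_image_sub_of_le_deriv (f := fun x : ℝ => (B (x * τ) / τ).re)
      (fun s h => (hder s (hs h)).continuousAt.continuousWithinAt)
      (fun s h => (hder s (hs (interior_subset h))).differentiableAt.differentiableWithinAt)
      (fun s h => by rw [(hder s (hs (interior_subset h))).deriv]; exact hC s (interior_subset h))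
      a (left_mem_Icc.mpr hab) b (right_mem_Icc.mpr hab) hab
  have s1 := step 0 (1 - ε) (1 - ε) le_rfl (by linarith) (by linarith) fun s hs => by
    have hs' : s ∈ Icc (0 : ℝ) 1 := ⟨hs.1, by linarith [hs.2]⟩
    have d0 := hden s hs'
    have u0 : 0 ≤ s ^ N := pow_nonneg hs.1 N
    have u1 : s ^ N ≤ (1 - ε) ^ N := pow_le_pow_left₀ hs.1 hs.2 N
    generalize s ^ N = u at d0 u0 u1
    generalize (1 - ε) ^ N = ω at h1 h2 u1
    have r2 : 0 ≤ r ^ 2 * u := by positivity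
    have r3 : r ^ 2 * u ≤ 1 / 2 := by nlinarith
    have c0 : (1 - r ^ 2) * ω ≤ 1 / 2 := by nlinarith [sq_nonneg r]
    have c00 : 0 ≤ (1 - r ^ 2) * ω := mul_nonneg hq.le (u0.trans u1)
    have c1 : 1 + -(2 * ((1 - r ^ 2) * ω)) ≤ (1 - u) / (1 - r ^ 2 * u) := by
      rw [le_div_iff₀ d0]
      nlinarith [mul_le_mul_of_nonneg_left u1 hq.le, mul_le_mul_of_nonneg_left r3 c00]
    have c2 := one_add_mul_le_pow (a := -(2 * ((1 - r ^ 2) * ω))) (by linarith) n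
    have c3 := pow_le_pow_left₀ (by linarith) c1 n
    have c4 : 1 - ε ≤ ((1 - u) / (1 - r ^ 2 * u)) ^ n := by nlinarith
    rw [le_div_iff₀ (by positivity)]
    have c5 : (1 - r ^ 2 * u) ^ 2 ≤ 1 := pow_le_one₀ d0.le (by linarith)
    nlinarith
  have s2 := step (1 - ε) 1 0 (by linarith) (by linarith) le_rfl fun s hs => by
    have hs' : s ∈ Icc (0 : ℝ) 1 := ⟨by linarith [hs.1], hs.2⟩
    have d0 := hden s hs'
    have := sub_nonneg.mpr (pow_le_one₀ hs'.1 hs'.2 (n := N))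
    positivity
  rw [ofReal_zero, zero_mul, hB0, zero_div, zero_re] at s1
  rw [ofReal_one, one_mul] at s2
  have s3 := re_le_norm (B τ / τ)
  have s4 : (1 - ε) ^ 2 ≤ ‖B τ‖ / ‖τ‖ := by rw [← norm_div]; nlinarith
  rwa [le_div_iff₀ (norm_pos_iff.mpr hτ0), mul_comm] at s4

theorem final_arith {L m κ Q Λ : ℝ} (a1 : m ^ 2 * κ < 1 / (700 + 12 * |L|)) (hM : 1 ≤ m)
    (d3 : 1 ≤ Q * κ) (d4 : Λ ≤ 4 * m) (d5 : 0 < Λ) (hQ : 0 < Q) (hκ0 : 0 < κ) :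
    L ≤ Q / (Λ * m) * (6 / 7 - 8 / 7 * κ) - 81 * (Q * κ) := by
  have hL := abs_nonneg L
  rw [lt_div_iff₀ (by positivity)] at a1
  have hw : 0 < m ^ 2 * κ := by positivity
  have e1 : m ^ 2 * κ ≤ 1 / 700 := by nlinarith
  have e2 : 12 * |L| * (m ^ 2 * κ) ≤ 1 := by nlinarith
  have e3 : κ ≤ 1 / 700 := by nlinarith [one_le_pow₀ hM (n := 2)]
  have e4 : Q / (4 * m ^ 2) ≤ Q / (Λ * m) :=
    div_le_div_of_nonneg_left hQ.le (by positivity) (by nlinarith)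
  have e5 : Q * κ = Q / (4 * m ^ 2) * (4 * (m ^ 2 * κ)) := by field_simp
  have e6 : 3 * |L| ≤ Q / (4 * m ^ 2) := by
    rw [le_div_iff₀ (by positivity)]
    have h1 : 12 * |L| * m ^ 2 * 1 ≤ 12 * |L| * m ^ 2 * (Q * κ) :=
      mul_le_mul_of_nonneg_left d3 (by positivity)
    have h2 := mul_le_mul_of_nonneg_left e2 hQ.le
    linarith
  have e7 : Q / (4 * m ^ 2) * (6 / 7 - 8 / 7 * κ) ≤ Q / (Λ * m) * (6 / 7 - 8 / 7 * κ) :=
    mul_le_mul_of_nonneg_right e4 (by linarith)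
  have e8 : 0 ≤ Q / (4 * m ^ 2) := by positivity
  rw [e5]
  generalize Q / (4 * m ^ 2) = W at e6 e7 e8
  have h1 := mul_le_mul_of_nonneg_left e1 e8
  have h2 := mul_le_mul_of_nonneg_left e3 e8
  linarith [le_abs_self L]

theorem exists_B {ε : ℝ} (L : ℝ) (hε : 0 < ε) (hε1 : ε < 1) :
    ∃ N : ℕ, 0 < N ∧ Even N ∧ ∀ r0 < (1 : ℝ), ∃ r : ℝ, r0 < r ∧ 0 < r ∧ r < 1 ∧
      ∃ (R : ℝ) (B : ℂ → ℂ), 1 < R ∧ DifferentiableOn ℂ B (ball 0 R) ∧ B 0 = 0 ∧ deriv B 0 = 1 ∧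
        (∀ τ, ‖τ‖ = 1 → L ≤ ‖B τ‖) ∧
        ∀ τ, ‖τ‖ ≤ 1 → deriv B τ = 0 → τ ^ N = -r ∧ ‖τ‖ * (1 - ε) ^ 2 ≤ ‖B τ‖ := by
  set θ := Real.exp (-1 / 40) with hθ
  have hθ0 : 0 < θ := Real.exp_pos _
  have hθ1 : θ < 1 := Real.exp_lt_one_iff.mpr (by norm_num)
  have t1 := (tendsto_pow_const_mul_const_pow_of_abs_lt_one 2 (r := θ)
    (by rwa [abs_of_pos hθ0])).eventually
    (gt_mem_nhds (show 0 < 1 / (700 + 12 * |L|) by positivity))
  have t2 := (tendsto_self_mul_const_pow_of_lt_one (r := 1 - ε) (by linarith)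
    (by linarith)).eventually (gt_mem_nhds (half_pos hε))
  obtain ⟨N0, hN0⟩ := eventually_atTop.mp (t1.and t2)
  obtain ⟨a1, a2⟩ := hN0 (2 * N0 + 1 + 1) (by omega)
  refine ⟨2 * N0 + 1 + 1, by omega, ⟨N0 + 1, by ring⟩, fun r0 hr0 => ?_⟩
  generalize 2 * N0 + 1 = M at a1 a2 ⊢
  push_cast at a1 a2
  have hM : (1 : ℝ) ≤ M + 1 := by linarith [(Nat.cast_nonneg M : (0 : ℝ) ≤ M)]
  set r1 := max r0 (1 / 2) with hr1
  have b1 : r1 < 1 := max_lt hr0 (by norm_num)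
  have b2 : 1 / 2 ≤ r1 := le_max_right _ _
  have b3 : 0 < 1 - r1 ^ 2 := by nlinarith
  obtain ⟨n, hn⟩ := exists_nat_gt (((M : ℝ) + 1) / (1 - r1 ^ 2))
  have hn0 : (0 : ℝ) < n := lt_trans (by positivity) hn
  have b4 : ((M : ℝ) + 1) / n < 1 - r1 ^ 2 := by
    rw [div_lt_iff₀ b3] at hn
    rw [div_lt_iff₀ hn0]; linarith
  have b5 : 0 < ((M : ℝ) + 1) / n := by positivity
  set r := √(1 - ((M : ℝ) + 1) / n) with hr
  have c1 : r ^ 2 = 1 - ((M : ℝ) + 1) / n := Real.sq_sqrt (by nlinarith)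
  have c0 : 0 ≤ r := Real.sqrt_nonneg _
  have c2 : r1 < r := lt_of_pow_lt_pow_left₀ 2 c0 (by linarith)
  have c3 : r < 1 := lt_of_pow_lt_pow_left₀ 2 zero_le_one (by linarith)
  have c4 : 0 < r := by linarith
  have hq : 0 < 1 - r ^ 2 := by linarith
  have c5 : n * (1 - r ^ 2) = M + 1 := by rw [c1]; field_simp; ring
  obtain ⟨R, hR1, hR⟩ : ∃ R : ℝ, 1 < R ∧ r * R ^ (M + 1) < 1 := by
    have : ContinuousAt (fun R : ℝ => r * R ^ (M + 1)) 1 := by fun_prop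
    have h := (this.tendsto.mono_left (nhdsWithin_le_nhds (s := Ioi 1))).eventually
      (gt_mem_nhds (show r * 1 ^ (M + 1) < 1 by simpa using c3))
    obtain ⟨R, h1, h2⟩ := (h.and self_mem_nhdsWithin).exists
    exact ⟨R, h2, h1⟩
  have hden : ∀ z ∈ ball (0 : ℂ) R, 1 + r * z ^ (M + 1) ≠ 0 := fun z hz =>
    norm_pos_iff.mp (lt_of_lt_of_le (sub_pos.mpr hR) (den_low c0 (by
      rw [norm_pow]
      exact pow_le_pow_left₀ (norm_nonneg _) (mem_ball_zero_iff.mp hz).le _)))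
  have hD : DifferentiableOn ℂ (fun z => DD r n (z ^ (M + 1))) (ball 0 R) := by
    intro z hz
    have := hden z hz
    have f1 : DifferentiableAt ℂ (fun z : ℂ => 1 + r * z ^ (M + 1)) z := by fun_prop
    have f2 : DifferentiableAt ℂ (fun z : ℂ => z ^ (M + 1) + r) z := by fun_prop
    exact ((((f2.fun_div f1 this).div_const (r : ℂ)).fun_pow n).fun_div (f1.fun_pow 2)
      (pow_ne_zero _ this)).differentiableWithinAt
  obtain ⟨B, hB0, hB⟩ := hD.isExactOn_ball.with_val_at 0 0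
  have hB1 : ∀ z : ℂ, ‖z‖ ≤ 1 → HasDerivAt B (DD r n (z ^ (M + 1))) z := fun z hz =>
    hB z (mem_ball_zero_iff.mpr (by linarith))
  have hr' : (r : ℂ) ≠ 0 := by exact_mod_cast c4.ne'
  refine ⟨r, (le_max_left _ _).trans_lt c2, c4, c3, R, B, hR1,
    fun z hz => (hB z hz).differentiableAt.differentiableWithinAt, hB0, ?_, fun τ hτ => ?_,
    fun τ hτ h => ?_⟩
  · rw [(hB1 0 (by simp)).deriv]
    simp [DD, mo, hr']
  · have hq1 : 1 - r ^ 2 ≤ 1 := by nlinarith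
    have hκ : (1 - (1 - r ^ 2) / 40) ^ n ≤ θ ^ (M + 1) := by
      have d1 : 1 - (1 - r ^ 2) / 40 ≤ Real.exp (-((1 - r ^ 2) / 40)) := by
        linarith [Real.add_one_le_exp (-((1 - r ^ 2) / 40))]
      refine (pow_le_pow_left₀ (by linarith) d1 n).trans (le_of_eq ?_)
      rw [hθ, ← Real.exp_nat_mul, ← Real.exp_nat_mul]
      congr 1
      push_cast
      linarith
    refine le_trans ?_ (circle_bound c4 c3 hB1 hB0 hκ hτ)
    have d2 : r ^ (n + 1) ≤ θ ^ (M + 1) := by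
      have : r ≤ 1 - (1 - r ^ 2) / 40 := by nlinarith
      rw [pow_succ]
      exact (mul_le_of_le_one_right (by positivity) c3.le).trans
        ((pow_le_pow_left₀ c0 this n).trans hκ)
    have d3 : 1 ≤ r⁻¹ ^ (n + 1) * θ ^ (M + 1) := by
      rw [inv_pow, le_inv_mul_iff₀ (by positivity), mul_one]; exact d2
    have d4 : (n + 1) * (1 - r ^ 2) / r ≤ 4 * (M + 1) := by
      rw [div_le_iff₀ c4]; nlinarith
    have d5 : 0 < (n + 1) * (1 - r ^ 2) / r := by positivity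
    have hQ : 0 < r⁻¹ ^ (n + 1) := by positivity
    have hκ0 : 0 < θ ^ (M + 1) := by positivity
    exact final_arith a1 hM d3 d4 d5 hQ hκ0
  · have hz := hden τ (mem_ball_zero_iff.mpr (by linarith))
    rw [(hB1 τ hτ).deriv, DD, div_eq_zero_iff] at h
    have h1 := eq_zero_of_pow_eq_zero (h.resolve_right (pow_ne_zero _ hz))
    rw [div_eq_zero_iff, mo, div_eq_zero_iff] at h1
    have h2 : τ ^ (M + 1) = -r :=
      eq_neg_of_add_eq_zero_left ((h1.resolve_right hr').resolve_right hz)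
    have hω : 0 ≤ (1 - ε) ^ (M + 1) := pow_nonneg (by linarith) _
    have hω2 : (1 - ε) ^ (M + 1) ≤ 1 / 2 := by
      have := le_mul_of_one_le_left hω hM
      linarith
    exact ⟨h2, crit_value (Nat.succ_ne_zero M) c4 c3 hε hε1 hB1 hB0 hω2
      (by rw [c5]; exact a2.le) h2 hτ⟩

end Pool.Agent.P.MP_c3cac0_an.Four
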