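import Pool.Agent.P.MP_c3cac0_an.FourPipe

/-! The local example `h = B ∘ Φ⁻¹` on the image of the closed disc. -/

set_option autoImplicit false

open Set Metric Filter Topology Complex Polynomial Bornology

namespace Pool.Agent.P.MP_c3cac0_an.Four

theorem preconn_annulus (R : ℝ) : IsPreconnected {τ : ℂ | 1 < ‖τ‖ ∧ ‖τ‖ < R} := by
  have e : {τ : ℂ | 1 < ‖τ‖ ∧ ‖τ‖ < R} =
      (fun x : ℝ × ℝ => (x.1 : ℂ) * exp (x.2 * I)) '' (Ioo 1 R ×ˢ univ) := by
    ext z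
    simp only [mem_ofPred_eq, mem_image, mem_prod, mem_Ioo, mem_univ, and_true, Prod.exists]
    constructor
    · intro hz
      exact ⟨‖z‖, arg z, hz, norm_mul_exp_arg_mul_I z⟩
    · rintro ⟨a, b, ha, rfl⟩
      rw [norm_mul, norm_exp_ofReal_mul_I, mul_one, norm_real, Real.norm_eq_abs,
        abs_of_pos (by linarith [ha.1])]
      exact ha
  rw [e]
  exact (isPreconnected_Ioo.prod isPreconnected_univ).image _ (by fun_prop)

theorem open_image {Φ : ℂ → ℂ} {R : ℝ} (hd : DifferentiableOn ℂ Φ (ball 0 R))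
    (hd' : ∀ τ ∈ ball (0 : ℂ) R, deriv Φ τ ≠ 0) {U : Set ℂ} (hU : IsOpen U) (hUR : U ⊆ ball 0 R) :
    IsOpen (Φ '' U) := by
  rw [isOpen_iff_mem_nhds]
  rintro _ ⟨τ, hτ, rfl⟩
  have h := (hd.analyticAt (isOpen_ball.mem_nhds (hUR hτ))).hasStrictDerivAt
  rw [← h.map_nhds_eq (hd' τ (hUR hτ))]
  exact image_mem_map (hU.mem_nhds hτ)

theorem preconn_image {Φ : ℂ → ℂ} {R : ℝ} (hR : 1 < R) (hd : DifferentiableOn ℂ Φ (ball 0 R))
    (hd' : ∀ τ ∈ ball (0 : ℂ) R, deriv Φ τ ≠ 0) (hi : InjOn Φ (ball 0 R)) :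
    IsPreconnected (Φ '' closedBall 0 1)ᶜ := by
  set S := Φ '' closedBall 0 1 with hS
  have hsub : closedBall (0 : ℂ) 1 ⊆ ball 0 R := closedBall_subset_ball hR
  have hSc : IsClosed S :=
    ((isCompact_closedBall 0 1).image_of_continuousOn (hd.continuousOn.mono hsub)).isClosed
  set A := {τ : ℂ | 1 < ‖τ‖ ∧ ‖τ‖ < R} with hA
  have hAR : A ⊆ ball 0 R := fun τ hτ => mem_ball_zero_iff.mpr hτ.2
  have hE : IsPreconnected (Φ '' A) := (preconn_annulus R).image _ (hd.continuousOn.mono hAR)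
  have hES : Φ '' A ⊆ Sᶜ := by
    rintro _ ⟨τ, hτ, rfl⟩ ⟨σ, hσ, e⟩
    have := hi (hsub hσ) (hAR hτ) e
    subst this
    exact absurd hτ.1 (not_lt.mpr (mem_closedBall_zero_iff.mp hσ))
  have hW := open_image hd hd' isOpen_ball subset_rfl
  obtain ⟨x, hx⟩ : (Φ '' A).Nonempty := by
    refine ⟨Φ (((1 + R) / 2 : ℝ) : ℂ), _, ?_, rfl⟩
    constructor <;> rw [norm_real, Real.norm_eq_abs, abs_of_pos (by linarith)] <;> linarith
  refine isPreconnected_of_forall x fun y hy => ?_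
  set U := connectedComponentIn Sᶜ y with hU
  have hUo : IsOpen U := hSc.isOpen_compl.connectedComponentIn
  have hyU : y ∈ U := mem_connectedComponentIn hy
  have hUS : U ⊆ Sᶜ := connectedComponentIn_subset _ _
  obtain ⟨z, hz1, hz2⟩ : ∃ z ∈ closure U, z ∉ U := by
    by_contra h
    push Not at h
    have hcl : IsClosed U := closure_subset_iff_isClosed.mp h
    rcases isClopen_iff.mp (⟨hcl, hUo⟩ : IsClopen U) with h1 | h1
    · rw [h1] at hyU; exact hyU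
    · exact hUS (h1 ▸ mem_univ (Φ 0)) ⟨0, by simp, rfl⟩
  have hzS : z ∈ S := by
    by_contra hz'
    have hzS : z ∈ Sᶜ := hz'
    have hV : IsOpen (connectedComponentIn Sᶜ z) := hSc.isOpen_compl.connectedComponentIn
    obtain ⟨w, hw1, hw2⟩ := mem_closure_iff.mp hz1 _ hV (mem_connectedComponentIn hzS)
    have e1 := connectedComponentIn_eq hw1
    have e2 := connectedComponentIn_eq hw2
    apply hz2
    rw [hU, e2, ← e1]
    exact mem_connectedComponentIn hzS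
  obtain ⟨w, ⟨τ, hτ, rfl⟩, hw2⟩ := mem_closure_iff.mp hz1 _ hW (image_mono hsub hzS)
  have hwA : Φ τ ∈ Φ '' A := by
    refine ⟨τ, ⟨?_, mem_ball_zero_iff.mp hτ⟩, rfl⟩
    by_contra h
    exact hUS hw2 ⟨τ, mem_closedBall_zero_iff.mpr (not_lt.mp h), rfl⟩
  exact ⟨Φ '' A ∪ U, union_subset hES hUS, Or.inl hx, Or.inr hyU,
    IsPreconnected.union _ hwA hw2 hE isPreconnected_connectedComponentIn⟩

theorem good_of_pair {Φ B : ℂ → ℂ} {R ρ k : ℝ} (hk : 1 ≤ k) (hR : 1 < R)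
    (hd : DifferentiableOn ℂ Φ (ball 0 R)) (hd' : ∀ τ ∈ ball (0 : ℂ) R, deriv Φ τ ≠ 0)
    (hi : InjOn Φ (ball 0 R)) (hΦ0 : Φ 0 = 0) (hB : DifferentiableOn ℂ B (ball 0 R))
    (hB0 : B 0 = 0) (hρ : k * ‖deriv B 0‖ < ρ * ‖deriv Φ 0‖)
    (hgood : ∀ τ : ℂ, ‖τ‖ ≤ 1 → ‖B τ‖ ≤ ρ * ‖Φ τ‖ → ‖τ‖ < 1 ∧ deriv B τ ≠ 0) :
    ∃ g : ℂ[X], 0 < g.degree ∧ Good k g := by
  have hsub : closedBall (0 : ℂ) 1 ⊆ ball 0 R := closedBall_subset_ball hR
  have h0R : (0 : ℂ) ∈ ball (0 : ℂ) R := mem_ball_self (by linarith)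
  set Ψ := Function.invFunOn Φ (ball 0 R) with hΨ
  have hΨΦ : ∀ τ ∈ ball (0 : ℂ) R, Ψ (Φ τ) = τ := fun τ hτ => hi.leftInvOn_invFunOn hτ
  have hder : ∀ τ ∈ ball (0 : ℂ) R,
      HasDerivAt (fun z => B (Ψ z)) (deriv B τ * (deriv Φ τ)⁻¹) (Φ τ) := by
    intro τ hτ
    have h := (hd.analyticAt (isOpen_ball.mem_nhds hτ)).hasStrictDerivAt
    have h1 := (h.to_local_left_inverse (hd' τ hτ) (g := Ψ) (by
      filter_upwards [isOpen_ball.mem_nhds hτ] with σ hσ using hΨΦ σ hσ)).hasDerivAt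
    have h2 : HasDerivAt B (deriv B τ) (Ψ (Φ τ)) := by
      rw [hΨΦ τ hτ]; exact (hB.differentiableAt (isOpen_ball.mem_nhds hτ)).hasDerivAt
    exact h2.comp (Φ τ) h1
  set h : ℂ → ℂ := fun z => B (Ψ z) with hh
  have hW := open_image hd hd' isOpen_ball subset_rfl
  have hhd : DifferentiableOn ℂ h (Φ '' ball 0 R) := by
    rintro _ ⟨τ, hτ, rfl⟩
    exact (hder τ hτ).differentiableAt.differentiableWithinAt
  have h0W : (0 : ℂ) ∈ Φ '' ball 0 R := ⟨0, h0R, hΦ0⟩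
  have hh0 : h 0 = 0 := by
    have := hΨΦ 0 h0R
    rw [hΦ0] at this
    simp only [hh, this, hB0]
  have hg : DifferentiableOn ℂ (dslope h 0) (Φ '' ball 0 R) :=
    (differentiableOn_dslope (hW.mem_nhds h0W)).mpr hhd
  have hzg : (fun z => z * dslope h 0 z) = h := by
    funext z
    have := sub_smul_dslope h 0 z
    simpa [hh0] using this
  have hK : IsCompact (Φ '' closedBall 0 1) :=
    (isCompact_closedBall 0 1).image_of_continuousOn (hd.continuousOn.mono hsub)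
  have hO := open_image hd hd' (U := ball 0 1) isOpen_ball (ball_subset_ball hR.le)
  have hOK : Φ '' ball 0 1 ⊆ Φ '' closedBall 0 1 := image_mono ball_subset_closedBall
  have h0K : (0 : ℂ) ∈ Φ '' closedBall 0 1 := ⟨0, by simp, hΦ0⟩
  obtain ⟨p, hp⟩ := approx (ρ := ρ) hk hK (preconn_image hR hd hd' hi) (image_mono hsub) hg hO hOK
    h0K (by
      have := (hder 0 h0R).deriv
      rw [hΦ0] at this
      rw [dslope_same, this, norm_mul, norm_inv, ← mul_assoc,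
        mul_inv_lt_iff₀ (norm_pos_iff.mpr (hd' 0 h0R))]
      exact hρ) (by
      rintro _ ⟨τ, hτ, rfl⟩ hle
      have hτR := hsub hτ
      have e : Φ τ * dslope h 0 (Φ τ) = B τ := by
        have := congrFun hzg (Φ τ)
        simp only [hh, hΨΦ τ hτR] at this ⊢
        exact this
      have := hgood τ (mem_closedBall_zero_iff.mp hτ) (by
        rw [← e, norm_mul, mul_comm]
        exact mul_le_mul_of_nonneg_right hle (norm_nonneg _))
      refine ⟨⟨τ, mem_ball_zero_iff.mpr this.1, rfl⟩, ?_⟩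
      rw [hzg, (hder τ hτR).deriv]
      exact mul_ne_zero this.2 (inv_ne_zero (hd' τ hτR)))
  exact exists_good hk hK hO hOK h0K hp

end Pool.Agent.P.MP_c3cac0_an.Four
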