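import Mathlib

/-! A bounded univalent map close to the Koebe function which sends finitely many given boundary
points close to the tip of the slit. -/

set_option autoImplicit false

open Set Metric Filter Topology Complex

namespace Pool.Agent.P.MP_c3cac0_an.Four

noncomputable def F1 (T : Finset ℝ) (y : ℂ) : ℂ := ∑ t ∈ T, (-I * t) * log (y - I * t)

noncomputable def F2 (T : Finset ℝ) (y : ℂ) : ℂ := ∑ t ∈ T, (-I * t) * (y - I * t)⁻¹

theorem hasDerivAt_F1 (T : Finset ℝ) {y : ℂ} (hy : 0 < y.re) : HasDerivAt (F1 T) (F2 T y) y := by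
  unfold F1 F2
  refine HasDerivAt.fun_sum fun t _ => HasDerivAt.const_mul _ ?_
  have := ((hasDerivAt_id y).sub_const (I * t)).clog (by
    left; simpa using hy)
  simpa using this

theorem re_mul_F2 (T : Finset ℝ) {y : ℂ} (hy : 0 < y.re) : 0 ≤ (y * F2 T y).re := by
  unfold F2
  rw [Finset.mul_sum, re_sum]
  refine Finset.sum_nonneg fun t _ => ?_
  have e : (y * (-I * t * (y - I * t)⁻¹)).re = y.re * t ^ 2 / normSq (y - I * t) := by
    simp [inv_re, inv_im]
    ring
  rw [e]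
  exact div_nonneg (by positivity) (normSq_nonneg _)

theorem abs_re_F1 (T : Finset ℝ) (y : ℂ) : |(F1 T y).re| ≤ 4 * ∑ t ∈ T, |t| := by
  unfold F1
  rw [re_sum, Finset.mul_sum]
  refine (Finset.abs_sum_le_sum_abs _ _).trans (Finset.sum_le_sum fun t _ => ?_)
  have e : (-I * t * log (y - I * t)).re = t * arg (y - I * t) := by
    simp [log_im]
  rw [e, abs_mul, mul_comm]
  exact mul_le_mul_of_nonneg_right ((abs_arg_le_pi _).trans Real.pi_le_four) (abs_nonneg _)

noncomputable def Th (c e : ℝ) (T : Finset ℝ) (y : ℂ) : ℂ := y + c + e * F1 T y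

theorem hasDerivAt_Th (c e : ℝ) (T : Finset ℝ) {y : ℂ} (hy : 0 < y.re) :
    HasDerivAt (Th c e T) (1 + e * F2 T y) y :=
  ((hasDerivAt_id y).add_const (c : ℂ)).add ((hasDerivAt_F1 T hy).const_mul (e : ℂ))

theorem re_mul_Th {e : ℝ} (he : 0 ≤ e) (T : Finset ℝ) {y : ℂ} (hy : 0 < y.re) :
    0 < (y * (1 + e * F2 T y)).re := by
  have := mul_nonneg he (re_mul_F2 T hy)
  rw [mul_add, mul_one, mul_left_comm, add_re, re_ofReal_mul]
  linarith

theorem Th_inj (c : ℝ) {e : ℝ} (he : 0 ≤ e) (T : Finset ℝ) : InjOn (Th c e T) {y | 0 < y.re} := by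
  intro y1 h1 y2 h2 h
  by_contra hne
  have h1 : 0 < y1.re := h1
  have h2 : 0 < y2.re := h2
  have n1 : y1 ≠ 0 := by rintro rfl; simp at h1
  have n2 : y2 ≠ 0 := by rintro rfl; simp at h2
  set δ := log y2 - log y1 with hδ
  have hδ0 : δ ≠ 0 := by
    intro h0
    apply hne
    rw [← exp_log n1, ← exp_log n2, sub_eq_zero.mp h0]
  have a1 := abs_lt.mp (abs_arg_lt_pi_div_two_iff.mpr (Or.inl h1))
  have a2 := abs_lt.mp (abs_arg_lt_pi_div_two_iff.mpr (Or.inl h2))
  have hre : ∀ s ∈ Icc (0 : ℝ) 1, 0 < (exp (log y1 + s * δ)).re := by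
    intro s hs
    rw [exp_re]
    refine mul_pos (Real.exp_pos _) (Real.cos_pos_of_mem_Ioo ?_)
    have e : (log y1 + s * δ).im = (1 - s) * arg y1 + s * arg y2 := by
      simp [hδ, log_im]; ring
    rw [e]
    have := (convex_Ioo (𝕜 := ℝ) (-(Real.pi / 2)) (Real.pi / 2)) (x := arg y1) a1 (y := arg y2) a2
      (a := 1 - s) (b := s) (by linarith [hs.2]) hs.1 (by ring)
    simpa using this
  have hder : ∀ s ∈ Icc (0 : ℝ) 1, HasDerivAt
      (fun x : ℝ => (Th c e T (exp (log y1 + x * δ)) / δ).re)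
      (exp (log y1 + s * δ) * (1 + e * F2 T (exp (log y1 + s * δ)))).re s := by
    intro s hs
    have b1 : HasDerivAt (fun w : ℂ => exp (log y1 + w * δ)) (exp (log y1 + s * δ) * (1 * δ)) s :=
      (((hasDerivAt_id (s : ℂ)).mul_const δ).const_add (log y1)).cexp
    have b2 := ((hasDerivAt_Th c e T (hre s hs)).comp (s : ℂ) b1).div_const δ
    refine (b2.congr_deriv ?_).real_of_complex
    field_simp
  have hm : StrictMonoOn (fun x : ℝ => (Th c e T (exp (log y1 + x * δ)) / δ).re) (Icc 0 1) := by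
    refine strictMonoOn_of_deriv_pos (convex_Icc 0 1)
      (fun s hs => (hder s hs).continuousAt.continuousWithinAt) fun s hs => ?_
    have hs' := interior_subset hs
    rw [(hder s hs').deriv]
    exact re_mul_Th he T (hre s hs')
  have := hm (left_mem_Icc.mpr zero_le_one) (right_mem_Icc.mpr zero_le_one) zero_lt_one
  simp only [ofReal_zero, zero_mul, add_zero, ofReal_one, one_mul, hδ, add_sub_cancel,
    exp_log n1, exp_log n2, h] at this
  exact lt_irrefl _ this

theorem Th_tendsto (c : ℝ) {e : ℝ} (he : 0 < e) (T : Finset ℝ) {t : ℝ} (ht : t ∈ T) (ht0 : t ≠ 0) :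
    Tendsto (fun y => ‖Th c e T y‖) (𝓝[{y | 0 < y.re}] (I * t)) atTop := by
  classical
  have hc : ContinuousAt (fun y => y + c + e * F1 (T.erase t) y) (I * t) := by
    refine (continuousAt_id.add continuousAt_const).add (continuousAt_const.mul ?_)
    unfold F1
    refine tendsto_finsetSum _ fun u hu => (continuousAt_const.mul ?_).tendsto
    refine (continuousAt_id.sub continuousAt_const).clog ?_
    right
    simpa [sub_eq_zero] using (Finset.ne_of_mem_erase hu).symm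
  have h1 : Tendsto (fun y : ℂ => ‖y - I * t‖) (𝓝[{y | 0 < y.re}] (I * t)) (𝓝[>] 0) := by
    refine tendsto_nhdsWithin_iff.mpr ⟨?_, ?_⟩
    · have : ContinuousAt (fun y : ℂ => ‖y - I * t‖) (I * t) := by fun_prop
      simpa using this.tendsto.mono_left nhdsWithin_le_nhds
    · filter_upwards [self_mem_nhdsWithin] with y hy
      refine norm_pos_iff.mpr fun h => ?_
      have := congrArg re h
      simp at this
      exact absurd hy (by simp [this])
  have h2 := tendsto_neg_atBot_atTop.comp (Real.tendsto_log_nhdsGT_zero.comp h1)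
  have h3 := (h2.const_mul_atTop (mul_pos he (abs_pos.mpr ht0))).atTop_add
    (hc.tendsto.mono_left nhdsWithin_le_nhds).norm.neg
  refine tendsto_atTop_mono (fun y => ?_) h3
  have e1 : Th c e T y = (y + c + e * F1 (T.erase t) y) + e * (-I * t * log (y - I * t)) := by
    unfold Th F1
    rw [← Finset.sum_erase_add T _ ht]; ring
  have e2 := norm_sub_le (Th c e T y) (y + c + e * F1 (T.erase t) y)
  have e3 : e * |t| * -Real.log ‖y - I * t‖ ≤ ‖(e : ℂ) * (-I * t * log (y - I * t))‖ := by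
    rw [norm_mul, norm_mul, norm_mul, norm_neg, norm_I, one_mul, norm_real, norm_real,
      Real.norm_eq_abs, Real.norm_eq_abs, abs_of_pos he, ← mul_assoc]
    refine mul_le_mul_of_nonneg_left ?_ (by positivity)
    rw [← log_re]
    exact (neg_le_abs _).trans (abs_re_le_norm _)
  rw [e1, add_sub_cancel_left, ← e1] at e2
  simp only [Function.comp]
  linarith

theorem cay_re (τ : ℂ) : ((1 - τ) / (1 + τ)).re = (1 - ‖τ‖ ^ 2) / normSq (1 + τ) := by
  rw [div_re, Complex.sq_norm, normSq_apply τ]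
  simp
  ring

theorem one_add_ne {τ : ℂ} (h : ‖τ‖ < 1) : 1 + τ ≠ 0 := by
  intro h0
  rw [(eq_neg_of_add_eq_zero_right h0), norm_neg, norm_one] at h
  exact lt_irrefl _ h

theorem cay_pos {τ : ℂ} (h : ‖τ‖ < 1) : 0 < ((1 - τ) / (1 + τ)).re := by
  rw [cay_re]
  exact div_pos (by nlinarith [norm_nonneg τ]) (normSq_pos.mpr (one_add_ne h))

theorem exists_Phi {c : ℝ} (hc : 0 < c) (Z : Finset ℂ)
    (hZ : ∀ b ∈ Z, ‖b‖ = 1 ∧ b ≠ 1 ∧ b ≠ -1) :
    ∃ Φ : ℂ → ℂ, DifferentiableOn ℂ Φ (ball 0 1) ∧ (∀ τ ∈ ball (0 : ℂ) 1, deriv Φ τ ≠ 0) ∧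
      InjOn Φ (ball 0 1) ∧ Φ 0 = 0 ∧ 4 * (1 - c) / (1 + 2 * c) ^ 3 ≤ ‖deriv Φ 0‖ ∧
      (∀ τ ∈ ball (0 : ℂ) 1, ‖Φ τ‖ ≤ 8 / c ^ 2) ∧
      ∀ᶠ s : ℝ in 𝓝[<] 1, ∀ b ∈ Z, ‖Φ (s * b)‖ ≤ 1 + c := by
  classical
  set T : Finset ℝ := Z.image fun b => ((1 - b) / (1 + b)).im with hT
  have hs0 : 0 ≤ ∑ t ∈ T, |t| := Finset.sum_nonneg fun t _ => abs_nonneg t
  set A := 4 * ∑ t ∈ T, |t| + ‖F1 T 1‖ + ‖F2 T 1‖ + 1 with hA
  have hA0 : 0 < A := by positivity
  set e := c / (2 * A) with he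
  have he0 : 0 < e := by positivity
  have heA : e * A = c / 2 := by rw [he]; field_simp
  have n1 := mul_nonneg he0.le hs0
  have n2 := mul_nonneg he0.le (norm_nonneg (F1 T 1))
  have n3 := mul_nonneg he0.le (norm_nonneg (F2 T 1))
  have hre : ∀ y : ℂ, y.re + c / 2 ≤ (Th c e T y).re := by
    intro y
    have a := mul_le_mul_of_nonneg_left (abs_le.mp (abs_re_F1 T y)).1 he0.le
    rw [Th, add_re, add_re, ofReal_re, re_ofReal_mul]
    nlinarith
  have hlow : ∀ y : ℂ, 0 < y.re → c / 2 ≤ ‖Th c e T y‖ := fun y hy =>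
    le_trans (by linarith [hre y]) (re_le_norm _)
  have hne : ∀ y : ℂ, 0 < y.re → Th c e T y ≠ 0 := fun y hy =>
    norm_pos_iff.mp (lt_of_lt_of_le (by positivity) (hlow y hy))
  have hder : ∀ τ : ℂ, ‖τ‖ < 1 → HasDerivAt
      (fun τ => (Th c e T ((1 - τ) / (1 + τ)) ^ 2)⁻¹ - (Th c e T 1 ^ 2)⁻¹)
      (4 * (1 + e * F2 T ((1 - τ) / (1 + τ))) /
        (Th c e T ((1 - τ) / (1 + τ)) ^ 3 * (1 + τ) ^ 2)) τ := by
    intro τ hτ
    have b0 := one_add_ne hτ
    have b1 := ((hasDerivAt_id τ).const_sub 1).div ((hasDerivAt_id τ).const_add 1) b0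
    have b2 := (hasDerivAt_Th c e T (cay_pos hτ)).comp τ b1
    have b3 := hne _ (cay_pos hτ)
    refine (((b2.pow 2).inv (pow_ne_zero 2 b3)).sub_const _).congr_deriv ?_
    simp only [Function.comp, id, Pi.pow_apply, Pi.div_apply]
    field_simp
    norm_num
    ring
  have hone : (0 : ℝ) < (1 : ℂ).re := by simp
  have hT1 : 1 ≤ ‖Th c e T 1‖ := by
    have := hre 1
    rw [one_re] at this
    exact le_trans (by linarith) (re_le_norm _)
  refine ⟨_, fun τ hτ => (hder τ (mem_ball_zero_iff.mp hτ)).differentiableAt.differentiableWithinAt,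
    fun τ hτ => ?_, fun τ hτ σ hσ h => ?_, by simp, ?_, fun τ hτ => ?_, ?_⟩
  · have hτ := mem_ball_zero_iff.mp hτ
    rw [(hder τ hτ).deriv]
    refine div_ne_zero (mul_ne_zero (by norm_num) fun h => ?_)
      (mul_ne_zero (pow_ne_zero _ (hne _ (cay_pos hτ))) (pow_ne_zero _ (one_add_ne hτ)))
    have := re_mul_Th he0.le T (cay_pos hτ)
    rw [h] at this
    simp at this
  · have hτ := mem_ball_zero_iff.mp hτ
    have hσ := mem_ball_zero_iff.mp hσ
    have h1 := inv_injective (sub_left_injective h)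
    have h2 : Th c e T ((1 - τ) / (1 + τ)) = Th c e T ((1 - σ) / (1 + σ)) := by
      rcases sq_eq_sq_iff_eq_or_eq_neg.mp h1 with h3 | h3
      · exact h3
      · have := congrArg re h3
        rw [neg_re] at this
        linarith [hre ((1 - τ) / (1 + τ)), hre ((1 - σ) / (1 + σ)), cay_pos hτ, cay_pos hσ]
    have h3 := Th_inj c he0.le T (cay_pos hτ) (cay_pos hσ) h2
    rw [div_eq_div_iff (one_add_ne hτ) (one_add_ne hσ)] at h3
    linear_combination (-1 / 2 : ℂ) * h3
  · rw [(hder 0 (by simp)).deriv]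
    simp only [sub_zero, add_zero, div_one, one_pow, mul_one, norm_div, norm_mul, norm_pow,
      Complex.norm_ofNat]
    have a1 : 1 - c ≤ ‖1 + e * F2 T 1‖ := by
      have := norm_sub_le (1 + e * F2 T 1) (e * F2 T 1)
      rw [add_sub_cancel_right, norm_one, norm_mul, norm_real, Real.norm_eq_abs,
        abs_of_pos he0] at this
      nlinarith
    have a2 : ‖Th c e T 1‖ ≤ 1 + 2 * c := by
      have b := norm_add₃_le (a := (1 : ℂ)) (b := (c : ℂ)) (c := e * F1 T 1)
      rw [norm_one, norm_mul, norm_real, norm_real, Real.norm_eq_abs, Real.norm_eq_abs,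
        abs_of_pos he0, abs_of_pos hc] at b
      rw [Th]
      nlinarith
    calc 4 * (1 - c) / (1 + 2 * c) ^ 3 ≤ 4 * ‖1 + e * F2 T 1‖ / (1 + 2 * c) ^ 3 := by gcongr
      _ ≤ _ := by gcongr
  · have hτ := mem_ball_zero_iff.mp hτ
    have b : ∀ y : ℂ, 0 < y.re → ‖(Th c e T y ^ 2)⁻¹‖ ≤ 4 / c ^ 2 := by
      intro y hy
      rw [norm_inv, norm_pow, show 4 / c ^ 2 = ((c / 2) ^ 2)⁻¹ by field_simp; norm_num]
      have := hlow y hy
      gcongr
    have := norm_sub_le (Th c e T ((1 - τ) / (1 + τ)) ^ 2)⁻¹ (Th c e T 1 ^ 2)⁻¹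
    have b1 := b _ (cay_pos hτ)
    have b2 := b _ hone
    have : 8 / c ^ 2 = 4 / c ^ 2 + 4 / c ^ 2 := by ring
    linarith
  · rw [eventually_all_finset]
    intro b hb
    obtain ⟨c1, c2, c3⟩ := hZ b hb
    have d0 : 1 + b ≠ 0 := fun h => c3 (eq_neg_of_add_eq_zero_right h)
    set t := ((1 - b) / (1 + b)).im with ht
    have d1 : (1 - b) / (1 + b) = I * t := by
      apply Complex.ext
      · rw [cay_re, c1]; simp
      · simp [ht]
    have d2 : t ≠ 0 := by
      intro h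
      rw [h, ofReal_zero, mul_zero, div_eq_zero_iff] at d1
      exact c2 (sub_eq_zero.mp (d1.resolve_right d0)).symm
    have d3 : Tendsto (fun s : ℝ => (1 - (s : ℂ) * b) / (1 + s * b)) (𝓝[<] 1)
        (𝓝[{y | 0 < y.re}] (I * t)) := by
      refine tendsto_nhdsWithin_iff.mpr ⟨?_, ?_⟩
      · have : ContinuousAt (fun s : ℝ => (1 - (s : ℂ) * b) / (1 + s * b)) 1 :=
          ContinuousAt.div (by fun_prop) (by fun_prop) (by simpa using d0)
        have := this.tendsto.mono_left (nhdsWithin_le_nhds (s := Iio 1))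
        simpa [d1] using this
      · filter_upwards [Ioo_mem_nhdsLT (show (0 : ℝ) < 1 by norm_num)] with s hs
        refine cay_pos ?_
        rw [norm_mul, c1, mul_one, norm_real, Real.norm_eq_abs, abs_of_pos hs.1]
        exact hs.2
    have d4 := (Th_tendsto c he0 T (Finset.mem_image_of_mem _ hb) d2).comp d3
    have d5 := ((tendsto_pow_atTop two_ne_zero).comp d4).eventually (eventually_ge_atTop c⁻¹)
    filter_upwards [d5] with s hs
    simp only [Function.comp] at hs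
    refine (norm_sub_le _ _).trans ?_
    rw [norm_inv, norm_inv, norm_pow, norm_pow]
    have f1 := inv_le_of_inv_le₀ hc hs
    have f2 : (‖Th c e T 1‖ ^ 2)⁻¹ ≤ 1 := inv_le_one_of_one_le₀ (one_le_pow₀ hT1)
    linarith

end Pool.Agent.P.MP_c3cac0_an.Four
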