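import Pool.Agent.P.MP_c3cac0_an.FourLocal
import Pool.Agent.P.MP_c3cac0_an.FourPhi
import Pool.Agent.P.MP_c3cac0_an.FourB

/-! The constant four cannot be lowered. -/

set_option autoImplicit false

open Set Metric Filter Topology Complex Polynomial

namespace Pool.Agent.P.MP_c3cac0_an.Four

theorem exists_good_lt_four {k : ℝ} (hk : 1 ≤ k) (hk4 : k < 4) :
    ∃ g : ℂ[X], 0 < g.degree ∧ Good k g := by
  classical
  obtain ⟨c, hc, hc1, hck⟩ : ∃ c : ℝ, 0 < c ∧ c < 1 ∧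
      k * (1 + c) < (1 - c) ^ 4 * (4 * (1 - c) / (1 + 2 * c) ^ 3) := by
    have h1 : ContinuousAt (fun c : ℝ => k * (1 + c)) 0 := by fun_prop
    have h2 : ContinuousAt (fun c : ℝ => (1 - c) ^ 4 * (4 * (1 - c) / (1 + 2 * c) ^ 3)) 0 :=
      ContinuousAt.mul (by fun_prop) (ContinuousAt.div (by fun_prop) (by fun_prop) (by norm_num))
    have h := (h1.eventually_lt h2 (by simpa using hk4)).filter_mono
      (nhdsWithin_le_nhds (s := Ioi 0))
    obtain ⟨c, a, b⟩ := (h.and (Ioo_mem_nhdsGT (show (0 : ℝ) < 1 by norm_num))).exists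
    exact ⟨c, b.1, b.2, a⟩
  obtain ⟨N, hN, hNe, hB⟩ := exists_B (8 / c ^ 2 + 1) hc hc1
  obtain ⟨Φ, hd, hd', hi, hΦ0, hΦ1, hM, hZ⟩ := exists_Phi hc (nthRootsFinset N (-1 : ℂ)) (by
    intro b hb
    rw [mem_nthRootsFinset hN] at hb
    refine ⟨?_, ?_, ?_⟩
    · have := congrArg norm hb
      rw [norm_pow, norm_neg, norm_one] at this
      exact (pow_eq_one_iff_of_nonneg (norm_nonneg _) hN.ne').mp this
    · rintro rfl
      norm_num at hb
    · rintro rfl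
      rw [hNe.neg_one_pow] at hb
      norm_num at hb)
  obtain ⟨s0, hs0, hs⟩ := (nhdsLT_basis (1 : ℝ)).eventually_iff.mp hZ
  obtain ⟨r, hr0, hr, hr1, R, B, hR, hBd, hB0, hB1, hBL, hBc⟩ :=
    hB (max (1 - c) ((1 + s0) / 2)) (max_lt (by linarith) (by linarith))
  have ra : 1 - c < r := (le_max_left _ _).trans_lt hr0
  have rb : (1 + s0) / 2 < r := (le_max_right _ _).trans_lt hr0
  have rc : s0 < r * r := by nlinarith [sq_nonneg (1 - r)]
  have hnr : ‖(r : ℂ)‖ = r := by rw [norm_real, Real.norm_eq_abs, abs_of_pos hr]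
  have hr' : (r : ℂ) ≠ 0 := by exact_mod_cast hr.ne'
  set R' := min R r⁻¹ with hR'
  have hR1 : 1 < R' := lt_min hR ((one_lt_inv₀ hr).mpr hr1)
  have hin : ∀ τ ∈ ball (0 : ℂ) R', (r : ℂ) * τ ∈ ball (0 : ℂ) 1 := fun τ hτ => by
    rw [mem_ball_zero_iff] at hτ ⊢
    rw [norm_mul, hnr]
    calc r * ‖τ‖ < r * r⁻¹ := mul_lt_mul_of_pos_left (hτ.trans_le (min_le_right _ _)) hr
      _ = 1 := mul_inv_cancel₀ hr.ne'
  have hder : ∀ τ ∈ ball (0 : ℂ) R',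
      HasDerivAt (fun τ => Φ (r * τ)) (deriv Φ (r * τ) * (r * 1)) τ := fun τ hτ =>
    (hd.differentiableAt (isOpen_ball.mem_nhds (hin τ hτ))).hasDerivAt.comp τ
      ((hasDerivAt_id τ).const_mul (r : ℂ))
  have hc' : 0 < 1 - c := by linarith
  set w := 4 * (1 - c) / (1 + 2 * c) ^ 3 with hw
  have hw0 : 0 < w := by positivity
  obtain ⟨ρ, hρ1, hρ2⟩ := exists_between (show k / ((1 - c) * w) < (1 - c) ^ 3 / (1 + c) by
    rw [div_lt_div_iff₀ (by positivity) (by positivity)]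
    nlinarith)
  have hρ0 : 0 < ρ := lt_trans (by positivity) hρ1
  rw [div_lt_iff₀ (by positivity)] at hρ1
  rw [lt_div_iff₀ (by positivity)] at hρ2
  have hρ3 : ρ < 1 := by
    have : (1 - c) ^ 3 ≤ 1 := pow_le_one₀ hc'.le (by linarith)
    nlinarith
  refine good_of_pair (Φ := fun τ => Φ (r * τ)) (B := B) (ρ := ρ) hk hR1
    (fun τ hτ => (hder τ hτ).differentiableAt.differentiableWithinAt) (fun τ hτ => ?_)
    (fun τ hτ σ hσ h => mul_left_cancel₀ hr' (hi (hin τ hτ) (hin σ hσ) h)) (by simpa using hΦ0)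
    (hBd.mono (ball_subset_ball (min_le_left _ _))) hB0 ?_ fun τ hτ hle => ?_
  · rw [(hder τ hτ).deriv]
    exact mul_ne_zero (hd' _ (hin τ hτ)) (by simpa using hr')
  · rw [(hder 0 (mem_ball_self (by linarith))).deriv, hB1, norm_one, mul_one, mul_zero, mul_one,
      norm_mul, hnr]
    refine hρ1.trans_le (mul_le_mul_of_nonneg_left ?_ hρ0.le)
    rw [mul_comm]
    exact mul_le_mul hΦ1 ra.le hc'.le (norm_nonneg _)
  · have hτR : τ ∈ ball (0 : ℂ) R' := mem_ball_zero_iff.mpr (hτ.trans_lt hR1)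
    refine ⟨lt_of_le_of_ne hτ fun h => ?_, fun h => ?_⟩
    · have a1 := hBL τ h
      have a2 := hM _ (hin τ hτR)
      have a3 := mul_le_of_le_one_left (norm_nonneg (Φ (r * τ))) hρ3.le
      linarith
    · obtain ⟨a1, a2⟩ := hBc τ hτ h
      have a3 : ‖τ‖ ^ N = r := by rw [← norm_pow, a1, norm_neg, hnr]
      have a4 : r ≤ ‖τ‖ := a3 ▸ pow_le_of_le_one (norm_nonneg _) hτ hN.ne'
      have a5 : ((‖τ‖ : ℝ) : ℂ) ≠ 0 := by exact_mod_cast (hr.trans_le a4).ne'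
      have a6 := hs (x := r * ‖τ‖) ⟨by nlinarith, by nlinarith⟩ (τ / ‖τ‖) (by
        rw [mem_nthRootsFinset hN, div_pow, a1, ← ofReal_pow, a3, neg_div, div_self hr'])
      rw [show ((r * ‖τ‖ : ℝ) : ℂ) * (τ / ‖τ‖) = r * τ by push_cast; field_simp] at a6
      have a7 := mul_le_mul_of_nonneg_left a6 hρ0.le
      have a8 : (1 - c) * (1 - c) ^ 2 ≤ ‖τ‖ * (1 - c) ^ 2 :=
        mul_le_mul_of_nonneg_right (by linarith) (by positivity)
      nlinarith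

theorem main {K : ℝ} (hK : K < 4) :
    ∃ m : ℕ, 1 ≤ m ∧ ∃ τ : Fin m → ℂ, (∀ k, τ k ≠ 0 ∧ ‖τ k‖ < 1) ∧
      ∀ ζ : ℂ, ‖ζ‖ < 1 →
        deriv (fun z : ℂ => z * ∏ k, (z - τ k) / (1 - starRingEnd ℂ (τ k) * z)) ζ = 0 →
        K * (‖deriv (fun z : ℂ => z * ∏ k, (z - τ k) / (1 - starRingEnd ℂ (τ k) * z)) 0‖ * ‖ζ‖) <
          ‖ζ * ∏ k, (ζ - τ k) / (1 - starRingEnd ℂ (τ k) * ζ)‖ := by
  obtain ⟨g, hg, hG⟩ := exists_good_lt_four (le_max_right K 1) (max_lt hK (by norm_num))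
  have h := blaschke hg hG
  push Not at h
  obtain ⟨m, hm, τ, hτ, h⟩ := h
  exact ⟨m, hm, τ, hτ, fun ζ h1 h2 => lt_of_le_of_lt
    (mul_le_mul_of_nonneg_right (le_max_left _ _) (by positivity)) (h ζ h1 h2)⟩

end Pool.Agent.P.MP_c3cac0_an.Four
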