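import Mathlib
import Pool.Agent.Lib.Mergelyan.Main

/-! From a local example with ratio `> k` to a polynomial and a Blaschke product
(helper89's three steps, with a factor `k`). -/

set_option autoImplicit false

open Set Metric Filter Topology Complex Polynomial Bornology

namespace Pool.Agent.P.MP_c3cac0_an.Four

/-- polynomial approximation keeps the local picture -/
theorem approx {K Ω O : Set ℂ} {g : ℂ → ℂ} {ρ k : ℝ} (hk : 1 ≤ k) (hK : IsCompact K) (hc : IsPreconnected Kᶜ)
    (hKΩ : K ⊆ Ω) (hg : DifferentiableOn ℂ g Ω) (hO : IsOpen O) (hOK : O ⊆ K) (h0 : (0 : ℂ) ∈ K)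
    (hρ : k * ‖g 0‖ < ρ) (hgood : ∀ z ∈ K, ‖g z‖ ≤ ρ → z ∈ O ∧ deriv (fun z => z * g z) z ≠ 0) :
    ∃ p : ℂ[X], ∀ z ∈ K, ‖p.eval z‖ ≤ k * ‖p.eval 0‖ →
      z ∈ O ∧ (derivative (X * p)).eval z ≠ 0 := by
  have hgK : ContinuousOn g K := hg.continuousOn.mono hKΩ
  have hPA := Pool.Agent.Lib.Mergelyan.mergelyan hK hc hgK (hg.mono (interior_subset.trans hKΩ))
  choose p hp using fun n : ℕ => hPA (1 / ((n : ℝ) + 1)) (by positivity)
  obtain ⟨M, hM⟩ := hK.isBounded.exists_pos_norm_le
  have hlim : Tendsto (fun n : ℕ => 1 / ((n : ℝ) + 1)) atTop (𝓝 0) :=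
    tendsto_one_div_add_atTop_nhds_zero_nat
  have hU : TendstoUniformlyOn (fun n z => (X * p n).eval z) (fun z => z * g z) atTop O := by
    rw [Metric.tendstoUniformlyOn_iff]
    intro ε hε
    filter_upwards [hlim.eventually (gt_mem_nhds (div_pos hε hM.1))] with n hn z hz
    rw [dist_eq_norm, eval_mul, eval_X, ← mul_sub, norm_mul]
    calc ‖z‖ * ‖g z - (p n).eval z‖ ≤ M * (1 / ((n : ℝ) + 1)) :=
          mul_le_mul (hM.2 z (hOK hz)) (hp n z (hOK hz)) (norm_nonneg _) hM.1.le
      _ < M * (ε / M) := mul_lt_mul_of_pos_left hn hM.1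
      _ = ε := by field_simp [hM.1.ne']
  have hD := hU.tendstoLocallyUniformlyOn.deriv
    (Eventually.of_forall fun n => (Polynomial.differentiable _).differentiableOn) hO
  set W := K ∩ (fun z => ‖g z‖) ⁻¹' Iic ρ with hW
  have hWc : IsCompact W :=
    hK.of_isClosed_subset (hgK.norm.preimage_isClosed_of_isClosed hK.isClosed isClosed_Iic)
      inter_subset_left
  have hWO : W ⊆ O := fun z hz => (hgood z hz.1 hz.2).1
  have hDW := (tendstoLocallyUniformlyOn_iff_tendstoUniformlyOn_of_compact hWc).mp (hD.mono hWO)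
  have hF : DifferentiableOn ℂ (fun z => z * g z) O :=
    differentiableOn_id.mul (hg.mono (hOK.trans hKΩ))
  have hcont : ContinuousOn (fun z => ‖deriv (fun z => z * g z) z‖) W :=
    ((hF.deriv hO).continuousOn.mono hWO).norm
  obtain ⟨z0, hz0, hmin⟩ := hWc.exists_isMinOn
    ⟨0, h0, (le_mul_of_one_le_left (norm_nonneg _) hk).trans hρ.le⟩ hcont
  have hκ : 0 < ‖deriv (fun z => z * g z) z0‖ := norm_pos_iff.mpr (hgood z0 hz0.1 hz0.2).2
  obtain ⟨n, hn1, hn2⟩ := (((Metric.tendstoUniformlyOn_iff.mp hDW) _ hκ).and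
    (hlim.eventually (gt_mem_nhds (show 0 < (ρ - k * ‖g 0‖) / (k + 1) from
      div_pos (by linarith) (by linarith))))).exists
  refine ⟨p n, fun z hz hle => ?_⟩
  have hzW : z ∈ W := by
    refine ⟨hz, ?_⟩
    have a1 := norm_sub_norm_le (g z) ((p n).eval z)
    have a2 := norm_sub_norm_le ((p n).eval 0) (g 0)
    rw [norm_sub_rev] at a2
    show ‖g z‖ ≤ ρ
    have a3 := hp n z hz
    have a4 := hp n 0 h0
    rw [lt_div_iff₀ (by linarith)] at hn2
    have a5 : k * ‖(p n).eval 0‖ ≤ k * (‖g 0‖ + 1 / ((n : ℝ) + 1)) :=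
      mul_le_mul_of_nonneg_left (by linarith) (by linarith)
    nlinarith
  refine ⟨hWO hzW, fun h => ?_⟩
  have a := hn1 z hzW
  simp only [Function.comp] at a
  rw [Polynomial.deriv, h, dist_zero_right] at a
  exact absurd (hmin hzW) (not_le.mpr a)

theorem isBounded_sub {p : ℂ[X]} (hp : 0 < p.degree) (c : ℝ) : IsBounded {z | ‖p.eval z‖ ≤ c} := by
  have h := p.tendsto_norm_atTop hp (l := cobounded ℂ) (z := id) tendsto_norm_cobounded_atTop
  have := h.eventually (eventually_gt_atTop c)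
  rw [isBounded_def]
  filter_upwards [this] with z hz
  simpa using hz

theorem isCompact_sub {p : ℂ[X]} (hp : 0 < p.degree) (c : ℝ) : IsCompact {z | ‖p.eval z‖ ≤ c} :=
  Metric.isCompact_of_isClosed_isBounded (isClosed_le p.continuous.norm continuous_const)
    (isBounded_sub hp c)

/-- the complement of a polynomial sublevel set is connected -/
theorem preconn_compl {p : ℂ[X]} (hp : 0 < p.degree) (c : ℝ) :
    IsPreconnected {z | ‖p.eval z‖ ≤ c}ᶜ := by
  set S := {z | ‖p.eval z‖ ≤ c} with hS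
  have hSc : IsClosed S := (isCompact_sub hp c).isClosed
  obtain ⟨R, hR⟩ := (isBounded_sub hp c).subset_closedBall 0
  have hE : IsPreconnected (closedBall (0 : ℂ) R)ᶜ := by
    rcases lt_or_ge R 0 with h | h
    · rw [closedBall_eq_empty.mpr h, compl_empty]; exact isPreconnected_univ
    · have e : (closedBall (0 : ℂ) R)ᶜ =
          (fun x : ℝ × ℝ => (x.1 : ℂ) * exp (x.2 * I)) '' (Ioi R ×ˢ univ) := by
        ext z
        simp only [mem_compl_iff, mem_closedBall, dist_zero_right, not_le, mem_image, mem_prod,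
          mem_Ioi, mem_univ, and_true, Prod.exists]
        constructor
        · intro hz
          exact ⟨‖z‖, arg z, hz, norm_mul_exp_arg_mul_I z⟩
        · rintro ⟨a, b, ha, rfl⟩
          rw [norm_mul, norm_exp_ofReal_mul_I, mul_one, norm_real, Real.norm_eq_abs]
          exact ha.trans_le (le_abs_self a)
      rw [e]
      exact (isPreconnected_Ioi.prod isPreconnected_univ).image _ (by fun_prop)
  have hES : (closedBall (0 : ℂ) R)ᶜ ⊆ Sᶜ := compl_subset_compl.mpr hR
  obtain ⟨x, hx⟩ : ((closedBall (0 : ℂ) R)ᶜ).Nonempty := by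
    rw [nonempty_compl]
    intro h
    exact NormedSpace.unbounded_univ ℝ ℂ (h ▸ isBounded_closedBall)
  refine isPreconnected_of_forall x fun y hy => ?_
  set U := connectedComponentIn Sᶜ y with hU
  have hUo : IsOpen U := hSc.isOpen_compl.connectedComponentIn
  have hyU : y ∈ U := mem_connectedComponentIn hy
  have hUS : U ⊆ Sᶜ := connectedComponentIn_subset _ _
  by_cases hb : U ⊆ closedBall 0 R
  · exfalso
    have := Complex.norm_le_of_forall_mem_frontier_norm_le (isBounded_closedBall.subset hb)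
      (f := fun z => p.eval z) (C := c) p.differentiable.diffContOnCl (fun z hz => ?_)
      (subset_closure hyU)
    · exact hy this
    · by_contra hz'
      have hzS : z ∈ Sᶜ := hz'
      have hV : IsOpen (connectedComponentIn Sᶜ z) := hSc.isOpen_compl.connectedComponentIn
      obtain ⟨w, hw1, hw2⟩ := mem_closure_iff.mp hz.1 _ hV (mem_connectedComponentIn hzS)
      have e1 := connectedComponentIn_eq hw1
      have e2 := connectedComponentIn_eq hw2
      apply hz.2
      rw [hUo.interior_eq, hU, e2, ← e1]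
      exact mem_connectedComponentIn hzS
  · obtain ⟨w, hw1, hw2⟩ := not_subset.mp hb
    exact ⟨(closedBall (0 : ℂ) R)ᶜ ∪ U, union_subset hES hUS, Or.inl hx, Or.inr hyU,
      IsPreconnected.union w hw2 hw1 hE isPreconnected_connectedComponentIn⟩

/-- every critical point of `z g(z)` has ratio `> k` -/
def Good (k : ℝ) (g : ℂ[X]) : Prop :=
  ∀ z, (derivative (X * g)).eval z = 0 → k * ‖g.eval 0‖ < ‖g.eval z‖

theorem limit_step {p T : ℂ[X]} {k : ℝ} (hk : 1 ≤ k) (hT : 0 < T.degree) (hT0 : ‖T.eval 0‖ < 1)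
    (hcrit : ∀ z, ‖T.eval z‖ = 1 → (derivative T).eval z ≠ 0)
    (hS : ∀ z, ‖p.eval z‖ ≤ k * ‖p.eval 0‖ → ‖T.eval z‖ ≤ 1 →
      ‖T.eval z‖ < 1 ∧ (derivative (X * p)).eval z ≠ 0) :
    ∃ g : ℂ[X], 0 < g.degree ∧ Good k g := by
  by_contra hno
  push Not at hno
  have hT' : T ≠ 0 := by rintro rfl; simp at hT
  have hTn : 0 < T.natDegree := natDegree_pos_iff_degree_pos.mpr hT
  set d := p.natDegree with hd
  have hdeg : ∀ N, d + 1 ≤ N → p.degree < (T ^ N).degree := by
    intro N hN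
    refine degree_lt_degree ?_
    rw [natDegree_pow]
    nlinarith
  have hz : ∀ n : ℕ, ∃ z, (derivative (X * (p + T ^ (n + d + 1)))).eval z = 0 ∧
      ‖(p + T ^ (n + d + 1)).eval z‖ ≤ k * ‖(p + T ^ (n + d + 1)).eval 0‖ := by
    intro n
    have h1 : 0 < (p + T ^ (n + d + 1)).degree := by
      rw [degree_add_eq_right_of_degree_lt (hdeg _ (by omega)), ← natDegree_pos_iff_degree_pos,
        natDegree_pow]
      positivity
    have := hno _ h1
    unfold Good at this
    push Not at this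
    exact this
  choose z hz1 hz2 using hz
  have hz3 : ∀ n, ‖T.eval (z n)‖ ^ (n + d + 1) ≤ ‖p.eval (z n)‖ + (k * (‖p.eval 0‖ + 1)) := by
    intro n
    have a := hz2 n
    rw [eval_add, eval_add, eval_pow, eval_pow] at a
    have b := norm_add_le (p.eval 0) (T.eval 0 ^ (n + d + 1))
    have c : ‖T.eval 0 ^ (n + d + 1)‖ ≤ 1 := by
      rw [norm_pow]; exact pow_le_one₀ (norm_nonneg _) hT0.le
    have e := norm_sub_le (p.eval (z n) + T.eval (z n) ^ (n + d + 1)) (p.eval (z n))
    rw [add_sub_cancel_left, norm_pow] at e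
    have e2 : k * ‖p.eval 0 + T.eval 0 ^ (n + d + 1)‖ ≤ k * (‖p.eval 0‖ + 1) :=
      mul_le_mul_of_nonneg_left (by linarith) (by linarith)
    linarith
  -- boundedness
  have hbd : IsBounded {w | ∃ N, d + 1 ≤ N ∧ ‖T.eval w‖ ^ N ≤ ‖p.eval w‖ + (k * (‖p.eval 0‖ + 1))} := by
    have h1 := (isLittleO_cobounded_of_degree_lt (hdeg (d + 1) le_rfl)).def
      (show (0 : ℝ) < 1 / 2 by norm_num)
    have h2 := (T.tendsto_norm_atTop hT (l := cobounded ℂ) (z := id)
      tendsto_norm_cobounded_atTop).eventually (eventually_gt_atTop (2 * (k * (‖p.eval 0‖ + 1))))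
    rw [isBounded_def]
    filter_upwards [h1, h2] with w a b
    rintro ⟨N, hN, hw⟩
    simp only [id] at b
    rw [eval_pow, norm_pow] at a
    have t1 : 1 ≤ ‖T.eval w‖ := by nlinarith [norm_nonneg (p.eval 0)]
    have t2 := pow_le_pow_right₀ t1 hN
    have t3 := pow_le_pow_right₀ t1 (show 1 ≤ d + 1 by omega)
    rw [pow_one] at t3
    linarith
  obtain ⟨ζ, -, φ, hφ, hlim⟩ := tendsto_subseq_of_bounded hbd
    (x := z) fun n => ⟨n + d + 1, by omega, hz3 n⟩
  set y := z ∘ φ with hy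
  set M : ℕ → ℕ := fun n => φ n + d with hM
  have hMt : Tendsto M atTop atTop := (tendsto_add_atTop_nat d).comp hφ.tendsto_atTop
  have ev : ∀ q : ℂ[X], Tendsto (fun n => q.eval (y n)) atTop (𝓝 (q.eval ζ)) := fun q =>
    (q.continuous.tendsto ζ).comp hlim
  have hcr : ∀ n, (derivative (X * p)).eval (y n) + T.eval (y n) ^ M n *
      (T.eval (y n) + (M n + 1 : ℂ) * (y n * (derivative T).eval (y n))) = 0 := by
    intro n
    have a := hz1 (φ n)
    rw [mul_add, derivative_add, eval_add, derivative_mul (f := X) (g := T ^ _),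
      derivative_pow_succ] at a
    simp only [derivative_X, eval_add, eval_mul, eval_pow, eval_X, eval_one, eval_natCast,
      one_mul, map_add, map_one, map_natCast] at a
    simp only [hM, hy, Function.comp, eval_mul, derivative_mul, derivative_X, eval_add, eval_X,
      one_mul] at a ⊢
    linear_combination a
  have hle : ∀ n, ‖p.eval (y n) + T.eval (y n) ^ M n * T.eval (y n)‖ ≤
      k * ‖p.eval 0 + T.eval 0 ^ M n * T.eval 0‖ := by
    intro n
    have a := hz2 (φ n)
    rw [eval_add, eval_add, eval_pow, eval_pow, pow_succ, pow_succ] at a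
    exact a
  -- small powers give the limit inequality
  have fin : Tendsto (fun n => T.eval (y n) ^ M n) atTop (𝓝 0) → ‖p.eval ζ‖ ≤ k * ‖p.eval 0‖ := by
    intro h
    have l1 := ((ev p).add (h.mul (ev T))).norm
    have l2 := ((tendsto_const_nhds (x := p.eval 0)).add
      (((tendsto_pow_atTop_nhds_zero_of_norm_lt_one hT0).comp hMt).mul_const (T.eval 0))).norm
    simp only [zero_mul, add_zero] at l1 l2
    exact le_of_tendsto_of_tendsto' l1 (l2.const_mul k) hle
  rcases lt_trichotomy ‖T.eval ζ‖ 1 with h | h | h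
  · obtain ⟨r, hr1, hr2⟩ := exists_between h
    have hr0 : 0 ≤ r := (norm_nonneg _).trans hr1.le
    have hev := (ev T).norm.eventually (gt_mem_nhds hr1)
    have t1 : Tendsto (fun n => T.eval (y n) ^ M n) atTop (𝓝 0) := by
      refine squeeze_zero_norm' ?_ ((tendsto_pow_atTop_nhds_zero_of_lt_one hr0 hr2).comp hMt)
      filter_upwards [hev] with n hn
      rw [norm_pow]; exact pow_le_pow_left₀ (norm_nonneg _) hn.le _
    have t2 : Tendsto (fun n => (M n : ℂ) * T.eval (y n) ^ M n) atTop (𝓝 0) := by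
      refine squeeze_zero_norm' ?_
        ((tendsto_self_mul_const_pow_of_lt_one hr0 hr2).comp hMt)
      filter_upwards [hev] with n hn
      rw [norm_mul, norm_pow, Complex.norm_natCast]
      exact mul_le_mul_of_nonneg_left (pow_le_pow_left₀ (norm_nonneg _) hn.le _) (by positivity)
    have t3 := (ev (derivative (X * p))).add ((t1.mul (ev T)).add
      ((t2.add t1).mul (hlim.mul (ev (derivative T)))))
    simp only [zero_mul, add_zero] at t3
    refine (hS ζ (fin t1) h.le).2 (tendsto_nhds_unique t3 ?_)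
    refine tendsto_const_nhds.congr fun n => ?_
    linear_combination -hcr n
  · have hζ : ζ ≠ 0 := by rintro rfl; linarith
    have hinv : Tendsto (fun n => ((M n : ℂ) + 1)⁻¹) atTop (𝓝 0) := by
      have := (tendsto_one_div_add_atTop_nhds_zero_nat (𝕜 := ℂ)).comp hMt
      simpa [Function.comp_def] using this
    have hne : ∀ n, (M n : ℂ) + 1 ≠ 0 := fun n => by exact_mod_cast Nat.succ_ne_zero (M n)
    have hu := ((ev T).mul hinv).add (hlim.mul (ev (derivative T)))
    simp only [mul_zero, zero_add] at hu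
    have hu0 : ζ * (derivative T).eval ζ ≠ 0 := mul_ne_zero hζ (hcrit ζ h)
    have t0 := (((ev (derivative (X * p))).mul hinv).neg).div hu hu0
    simp only [mul_zero, neg_zero, zero_div] at t0
    have t1 : Tendsto (fun n => T.eval (y n) ^ M n) atTop (𝓝 0) := by
      refine t0.congr' ?_
      filter_upwards [hu.eventually_ne hu0] with n hn
      simp only [Pi.div_apply]
      rw [div_eq_iff hn]
      have := hne n
      field_simp
      linear_combination -hcr n
    exact absurd (hS ζ (fin t1) h.le).1 (by rw [h]; exact lt_irrefl _)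
  · obtain ⟨r, hr1, hr2⟩ := exists_between h
    have hev := (ev T).norm.eventually (lt_mem_nhds hr2)
    have hev2 := (ev p).norm.eventually (gt_mem_nhds (lt_add_one _))
    have hev3 := ((tendsto_pow_atTop_atTop_of_one_lt hr1).comp hMt).eventually
      (eventually_gt_atTop (‖p.eval ζ‖ + 1 + (k * (‖p.eval 0‖ + 1))))
    obtain ⟨n, ⟨a, b⟩, c⟩ := ((hev.and hev2).and hev3).exists
    have e := hz3 (φ n)
    have e2 : r ^ M n ≤ ‖T.eval (y n)‖ ^ (φ n + d + 1) :=
      (pow_le_pow_right₀ hr1.le (Nat.le_succ _)).trans (pow_le_pow_left₀ (by linarith) a.le _)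
    simp only [Function.comp, hy] at a b c e2
    linarith

theorem exists_good {p : ℂ[X]} {K O : Set ℂ} {k : ℝ} (hk : 1 ≤ k) (hK : IsCompact K)
    (hO : IsOpen O) (hOK : O ⊆ K) (h0 : (0 : ℂ) ∈ K)
    (hp : ∀ z ∈ K, ‖p.eval z‖ ≤ k * ‖p.eval 0‖ → z ∈ O ∧ (derivative (X * p)).eval z ≠ 0) :
    ∃ g : ℂ[X], 0 < g.degree ∧ Good k g := by
  classical
  have hpd : 0 < p.degree := by
    by_contra h
    rw [eq_C_of_degree_le_zero (not_lt.mp h)] at hp
    have e : O = K := hOK.antisymm fun z hz => (hp z hz (by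
      simpa using le_mul_of_one_le_left (norm_nonneg _) hk)).1
    rcases isClopen_iff.mp (⟨hK.isClosed, e ▸ hO⟩ : IsClopen K) with h1 | h1
    · rw [h1] at h0; exact h0
    · exact NormedSpace.unbounded_univ ℝ ℂ (h1 ▸ hK.isBounded)
  set S := {z | ‖p.eval z‖ ≤ k * ‖p.eval 0‖} with hS
  by_cases hSK : S ⊆ K
  · exact ⟨p, hpd, fun z hz => lt_of_not_ge fun h => (hp z (hSK h) h).2 hz⟩
  obtain ⟨s, hs1, hs2⟩ := not_subset.mp hSK
  set f : ℂ → ℂ := fun z => if z ∈ K then 0 else 2 with hf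
  have hfd : ∀ z ∈ S, DifferentiableAt ℂ f z := by
    intro z hz
    by_cases h : z ∈ K
    · refine (differentiableAt_const (0 : ℂ)).congr_of_eventuallyEq ?_
      filter_upwards [hO.mem_nhds (hp z h hz).1] with w hw
      simp [hf, hOK hw]
    · refine (differentiableAt_const (2 : ℂ)).congr_of_eventuallyEq ?_
      filter_upwards [hK.isClosed.isOpen_compl.mem_nhds h] with w hw
      simp only [hf]; rw [if_neg hw]
  obtain ⟨T, hT⟩ := Pool.Agent.Lib.Mergelyan.mergelyan (isCompact_sub hpd _) (preconn_compl hpd _)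
    (f := f) (fun z hz => (hfd z hz).continuousAt.continuousWithinAt)
    (fun z hz => (hfd z (interior_subset hz)).differentiableWithinAt) (1 / 4) (by norm_num)
  have hin : ∀ z ∈ S, z ∈ K → ‖T.eval z‖ ≤ 1 / 4 := fun z hz h => by
    simpa [hf, h] using hT z hz
  have hout : ∀ z ∈ S, z ∉ K → 7 / 4 ≤ ‖T.eval z‖ := fun z hz h => by
    have a := hT z hz
    simp only [hf, if_neg h] at a
    have b := norm_sub_norm_le (2 : ℂ) (T.eval z)
    simp only [Complex.norm_ofNat] at b
    linarith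
  have h0S : (0 : ℂ) ∈ S := le_mul_of_one_le_left (norm_nonneg (p.eval 0)) hk
  have hTd : 0 < T.degree := by
    by_contra h
    have a := hin 0 h0S h0
    have b := hout s hs1 hs2
    rw [eq_C_of_degree_le_zero (not_lt.mp h), eval_C] at a b
    linarith
  have hT' : derivative T ≠ 0 := by
    intro h
    have := derivative_eq_zero.mp h
    exact absurd (natDegree_pos_iff_degree_pos.mpr hTd) (by omega)
  obtain ⟨l, hl1, hl2⟩ := (Ioo_infinite (show (1 / 2 : ℝ) < 1 by norm_num)).exists_notMem_finset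
    ((derivative T).roots.toFinset.image fun c => ‖T.eval c‖)
  have hl0 : 0 < l := by linarith [hl1.1]
  have hn : ∀ z, ‖(C ((l : ℂ)⁻¹) * T).eval z‖ = ‖T.eval z‖ / l := fun z => by
    rw [eval_mul, eval_C, norm_mul, norm_inv, norm_real, Real.norm_eq_abs, abs_of_pos hl0]
    ring
  have hlc : ((l : ℂ)⁻¹) ≠ 0 := inv_ne_zero (by exact_mod_cast hl0.ne')
  refine limit_step (p := p) (T := C ((l : ℂ)⁻¹) * T) hk (by rwa [degree_C_mul hlc]) ?_ ?_ ?_
  · rw [hn, div_lt_one hl0]; linarith [hin 0 h0S h0, hl1.1]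
  · intro z hz h
    rw [hn, div_eq_one_iff_eq hl0.ne'] at hz
    rw [derivative_C_mul, eval_mul, eval_C, mul_eq_zero] at h
    apply hl2
    refine Finset.mem_image.mpr ⟨z, ?_, hz⟩
    rw [Multiset.mem_toFinset, mem_roots hT']
    exact h.resolve_left hlc
  · intro z hz h
    rw [hn, div_le_one hl0] at h
    have hzK : z ∈ K := by
      by_contra h'
      linarith [hout z hz h', hl1.2]
    refine ⟨?_, (hp z hzK hz).2⟩
    rw [hn, div_lt_one hl0]; linarith [hin z hz hzK, hl1.1]

theorem exists_good_prod {g : ℂ[X]} {κ : ℝ} (hg : 0 < g.degree) (hG : Good κ g) :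
    ∃ (m : ℕ) (τ : Fin m → ℂ), 1 ≤ m ∧ Good κ (∏ k, (X - C (τ k))) := by
  have hg0 : g ≠ 0 := by rintro rfl; simp at hg
  have hc : g.leadingCoeff ≠ 0 := leadingCoeff_ne_zero.mpr hg0
  obtain ⟨m, τ, hτ⟩ : ∃ (m : ℕ) (τ : Fin m → ℂ), g.roots = Finset.univ.val.map τ := by
    induction g.roots using Quotient.inductionOn with
    | h l => exact ⟨l.length, l.get, by simp⟩
  have e : g = C g.leadingCoeff * ∏ k, (X - C (τ k)) := by
    have := (IsAlgClosed.splits g).eq_prod_roots
    rw [hτ, Multiset.map_map] at this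
    exact this
  refine ⟨m, τ, ?_, fun z hz => ?_⟩
  · rcases Nat.eq_zero_or_pos m with rfl | h
    · rw [e] at hg; simp [degree_C hc] at hg
    · exact h
  · have := hG z (by
      rw [e, mul_left_comm, derivative_C_mul, eval_mul, hz, mul_zero])
    rw [e, eval_mul, eval_mul, norm_mul, norm_mul, eval_C, eval_C] at this
    rw [mul_left_comm] at this
    exact lt_of_mul_lt_mul_left this (norm_nonneg _)

theorem blaschke {g : ℂ[X]} {κ : ℝ} (hg : 0 < g.degree) (hg2 : Good κ g) :
    ¬ (∀ m : ℕ, 1 ≤ m → ∀ τ : Fin m → ℂ, (∀ k, τ k ≠ 0 ∧ ‖τ k‖ < 1) →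
      ∃ ζ : ℂ, ‖ζ‖ < 1 ∧
        deriv (fun z : ℂ => z * ∏ k, (z - τ k) / (1 - starRingEnd ℂ (τ k) * z)) ζ = 0 ∧
        ‖ζ * ∏ k, (ζ - τ k) / (1 - starRingEnd ℂ (τ k) * ζ)‖ ≤
          κ * (‖deriv (fun z : ℂ => z * ∏ k, (z - τ k) / (1 - starRingEnd ℂ (τ k) * z)) 0‖ *
            ‖ζ‖)) := by
  intro H
  obtain ⟨m, τ, hm, hG⟩ := exists_good_prod hg hg2
  set q : ℂ[X] := ∏ k, (X - C (τ k)) with hq
  set R : ℂ[X] := ∏ k, (1 - C (starRingEnd ℂ (τ k)) * X) with hR
  have hd0 : (derivative (X * q)).eval 0 = q.eval 0 := by simp [derivative_mul]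
  have hq0 : q.eval 0 ≠ 0 := fun h => by
    have := hG 0 (hd0.trans h)
    simp [h] at this
  have hτ0 : ∀ k, τ k ≠ 0 := by
    intro k hk
    apply hq0
    rw [hq, eval_prod]
    exact Finset.prod_eq_zero (Finset.mem_univ k) (by simp [hk])
  have hqd : 0 < q.degree := by
    rw [← natDegree_pos_iff_degree_pos, hq, natDegree_finsetProd_X_sub_C_eq_card]
    simp only [Finset.card_univ, Fintype.card_fin]; omega
  have hR0 : R.eval 0 = 1 := by simp [hR, eval_prod]
  obtain ⟨A, hA0, hA⟩ := (finite_range τ).isBounded.exists_pos_norm_lt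
  have step : ∀ ε : ℝ, 0 < ε → ε * A ≤ 1 → ∃ ζ u : ℂ, ‖ζ‖ < 1 ∧
      (derivative (X * q)).eval u * R.eval (ε * ζ) =
        ε ^ 2 * ((X * q).eval u * (derivative R).eval (ε * ζ)) ∧
      ‖q.eval u‖ ≤ κ * ‖q.eval 0‖ * ‖R.eval (ε * ζ)‖ := by
    intro ε hε hεA
    have hεc : (ε : ℂ) ≠ 0 := by exact_mod_cast hε.ne'
    have hn : ∀ k, ‖(ε : ℂ) * τ k‖ < 1 := fun k => by
      rw [norm_mul, norm_real, Real.norm_eq_abs, abs_of_pos hε]
      exact (mul_lt_mul_of_pos_left (hA _ ⟨k, rfl⟩) hε).trans_le hεA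
    obtain ⟨ζ, h1, h2, h3⟩ := H m hm (fun k => ε * τ k) fun k => ⟨mul_ne_zero hεc (hτ0 k), hn k⟩
    have e : ∀ z : ℂ, z * ∏ k, (z - ε * τ k) / (1 - starRingEnd ℂ (ε * τ k) * z) =
        ε ^ (m + 1) * ((X * q).eval (z / ε) / R.eval (ε * z)) := by
      intro z
      have a : ∏ k, (z - ε * τ k) = ε ^ m * q.eval (z / ε) := by
        rw [hq, eval_prod, show (ε : ℂ) ^ m = ∏ _k : Fin m, (ε : ℂ) by simp,
          ← Finset.prod_mul_distrib]
        refine Finset.prod_congr rfl fun k _ => ?_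
        simp only [eval_sub, eval_X, eval_C]; field_simp
      have b : ∏ k, (1 - starRingEnd ℂ (ε * τ k) * z) = R.eval (ε * z) := by
        rw [hR, eval_prod]
        refine Finset.prod_congr rfl fun k _ => ?_
        simp only [map_mul, conj_ofReal, eval_sub, eval_one, eval_mul, eval_C, eval_X]; ring
      rw [Finset.prod_div_distrib, a, b, eval_mul, eval_X]
      field_simp
      ring
    have hRne : ∀ z : ℂ, ‖z‖ < 1 → R.eval (ε * z) ≠ 0 := by
      intro z hz
      rw [hR, eval_prod]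
      refine Finset.prod_ne_zero_iff.mpr fun k _ h => ?_
      simp only [eval_sub, eval_one, eval_mul, eval_C, eval_X] at h
      have a : ‖starRingEnd ℂ (τ k) * (ε * z)‖ < 1 := by
        rw [show starRingEnd ℂ (τ k) * (ε * z) = starRingEnd ℂ (ε * τ k) * z by
          simp only [map_mul, conj_ofReal]; ring, norm_mul, norm_conj]
        exact mul_lt_one_of_nonneg_of_lt_one_left (norm_nonneg _) (hn k) hz.le
      rw [← sub_eq_zero.mp h, norm_one] at a
      exact lt_irrefl _ a
    have hder : ∀ z : ℂ, ‖z‖ < 1 →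
        deriv (fun z : ℂ => z * ∏ k, (z - ε * τ k) / (1 - starRingEnd ℂ (ε * τ k) * z)) z =
          ε ^ (m + 1) * (((derivative (X * q)).eval (z / ε) * (1 / ε) * R.eval (ε * z) -
            (X * q).eval (z / ε) * ((derivative R).eval (ε * z) * (ε * 1))) / R.eval (ε * z) ^ 2) := by
      intro z hz
      simp only [e]
      have a := ((X * q).hasDerivAt (z / ε)).comp z ((hasDerivAt_id z).div_const (ε : ℂ))
      have b := (R.hasDerivAt (ε * z)).comp z ((hasDerivAt_id z).const_mul (ε : ℂ))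
      exact ((a.div b (hRne z hz)).const_mul _).deriv
    have hz := hRne ζ h1
    rw [hder ζ h1] at h2
    rw [hder 0 (by simp), e] at h3
    simp only [zero_div, mul_zero, hR0, hd0, eval_mul, eval_X, zero_mul] at h3
    have h4 : (derivative (X * q)).eval (ζ / ε) * R.eval (ε * ζ) =
        ε ^ 2 * ((X * q).eval (ζ / ε) * (derivative R).eval (ε * ζ)) := by
      have := (div_eq_zero_iff.mp ((mul_eq_zero.mp h2).resolve_left (pow_ne_zero _ hεc))).resolve_right
        (pow_ne_zero _ hz)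
      have h1e : (ε : ℂ) * (1 / ε) = 1 := by field_simp
      linear_combination ε * this -
        (derivative (X * q)).eval (ζ / ε) * R.eval (ε * ζ) * h1e
    refine ⟨ζ, ζ / ε, h1, h4, ?_⟩
    have hζ : ζ ≠ 0 := by
      rintro rfl
      apply hq0
      simpa [hd0, hR0] using h4
    have p1 : 0 < ‖ζ‖ := norm_pos_iff.mpr hζ
    have p2 : 0 < ‖(ε : ℂ)‖ := norm_pos_iff.mpr hεc
    have p3 : 0 < ‖R.eval (ε * ζ)‖ := norm_pos_iff.mpr hz
    simp only [norm_mul, norm_div, norm_pow, sub_zero, mul_one, one_pow, div_one, norm_one] at h3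
    generalize ‖R.eval (ε * ζ)‖ = r at h3 p3
    generalize ‖q.eval (ζ / ε)‖ = t at h3
    field_simp at h3
    linarith
  set ε : ℕ → ℝ := fun n => 1 / ((n : ℝ) + 1) * A⁻¹ with hε
  have hεt : Tendsto ε atTop (𝓝 0) := by
    have := (tendsto_one_div_add_atTop_nhds_zero_nat (𝕜 := ℝ)).mul_const A⁻¹
    rwa [zero_mul] at this
  choose ζ u h1 h2 h3 using fun n => step (ε n) (by positivity) (by
    rw [hε, mul_assoc, inv_mul_cancel₀ hA0.ne', mul_one, div_le_one (by positivity)]
    linarith [(Nat.cast_nonneg n : (0 : ℝ) ≤ n)])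
  have hεc : Tendsto (fun n => (ε n : ℂ)) atTop (𝓝 0) := by
    have := (continuous_ofReal.tendsto 0).comp hεt
    rwa [ofReal_zero] at this
  have hw : Tendsto (fun n => (ε n : ℂ) * ζ n) atTop (𝓝 0) := by
    refine squeeze_zero_norm (fun n => ?_) (by simpa using hεc.norm)
    rw [norm_mul]
    simpa using mul_le_of_le_one_right (norm_nonneg (ε n : ℂ)) (h1 n).le
  have hRt : Tendsto (fun n => R.eval ((ε n : ℂ) * ζ n)) atTop (𝓝 1) :=
    hR0 ▸ (R.continuous.tendsto 0).comp hw
  have hRt' := ((derivative R).continuous.tendsto 0).comp hw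
  obtain ⟨c, hc⟩ := (hRt.norm.const_mul (κ * ‖q.eval 0‖)).bddAbove_range
  obtain ⟨v, -, φ, hφ, hlim⟩ := tendsto_subseq_of_bounded (isBounded_sub hqd c)
    (x := u) fun n => (h3 n).trans (hc ⟨n, rfl⟩)
  have ev : ∀ p : ℂ[X], Tendsto (fun n => p.eval (u (φ n))) atTop (𝓝 (p.eval v)) := fun p =>
    (p.continuous.tendsto v).comp hlim
  have hφt := hφ.tendsto_atTop
  have l1 := (ev (derivative (X * q))).mul (hRt.comp hφt)
  have l2 := ((hεc.comp hφt).pow 2).mul ((ev (X * q)).mul (hRt'.comp hφt))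
  simp only [mul_one, ne_eq, OfNat.ofNat_ne_zero, not_false_eq_true, zero_pow, zero_mul] at l1 l2
  have c1 : (derivative (X * q)).eval v = 0 :=
    tendsto_nhds_unique l1 (l2.congr fun n => (h2 (φ n)).symm)
  have l3 := ((hRt.comp hφt).norm.const_mul (κ * ‖q.eval 0‖))
  simp only [norm_one, mul_one] at l3
  exact absurd (hG v c1) (not_lt.mpr (le_of_tendsto_of_tendsto' (ev q).norm l3 fun n => h3 (φ n)))

end Pool.Agent.P.MP_c3cac0_an.Four
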