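import Pool.Agent.P.MP_c3cac0_an.Basic

set_option autoImplicit false

namespace Pool.Agent.P.MP_c3cac0_an

open Finset Polynomial ComplexConjugate

noncomputable section

lemma real_line {m : ℕ} (hm : 1 ≤ m) (r : Fin m → ℝ) (h0 : ∀ k, r k ≠ 0) (h1 : ∀ k, |r k| < 1)
    (hs : 0 ≤ ∑ k, (1 - r k ^ 2) / r k) :
    ∃ x : ℝ, 0 < x ∧ x < 1 ∧
      (∏ k, (x - r k) / (1 - r k * x) +
        x * ∑ k, (∏ l ∈ univ.erase k, (x - r l) / (1 - r l * x)) *
          ((1 - r k * r k) / (1 - r k * x) ^ 2)) = 0 ∧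
      ∏ k, |(x - r k) / (1 - r k * x)| ≤ ∏ k, |r k| := by
  have hsq : ∀ k, 0 < 1 - r k ^ 2 := fun k => by
    have := abs_lt.1 (h1 k); nlinarith
  have hpos : ∃ k, 0 < r k := by
    by_contra hc
    push Not at hc
    have : ∑ k, (1 - r k ^ 2) / r k < 0 := by
      have hne : (univ : Finset (Fin m)).Nonempty := ⟨⟨0, hm⟩, mem_univ _⟩
      have := sum_lt_sum_of_nonempty hne (f := fun k => (1 - r k ^ 2) / r k) (g := fun _ => 0)
        (fun k _ => div_neg_of_pos_of_neg (hsq k) (lt_of_le_of_ne (hc k) (h0 k)))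
      simpa using this
    linarith
  obtain ⟨k0, hk0, hmin⟩ := exists_min_image (univ.filter fun k => 0 < r k) r
    (by obtain ⟨k, hk⟩ := hpos; exact ⟨k, by simpa using hk⟩)
  have hk0' : 0 < r k0 := by simpa using hk0
  have hlt : r k0 < 1 := (abs_lt.1 (h1 k0)).2
  have hden : ∀ x, 0 ≤ x → x ≤ 1 → ∀ k, 0 < 1 - r k * x := by
    intro x hx hx1 k
    have := abs_lt.1 (h1 k)
    rcases le_total (r k) 0 with h | h
    · nlinarith
    · nlinarith
  have hsign : ∀ x, 0 ≤ x → x < r k0 → ∀ k, 0 < (r k - x) / r k := by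
    intro x hx hx1 k
    rcases lt_or_gt_of_ne (h0 k) with h | h
    · exact div_pos_of_neg_of_neg (by linarith) h
    · have := hmin k (by simpa using h)
      exact div_pos (by linarith) h
  obtain ⟨x, hx, hx'⟩ := exists_hasDerivAt_eq_zero (a := 0) (b := r k0)
    (f := fun z => z * ∏ k, (z - r k) / (1 - r k * z))
    (f' := fun x => ∏ k, (x - r k) / (1 - r k * x) +
        x * ∑ k, (∏ l ∈ univ.erase k, (x - r l) / (1 - r l * x)) *
          ((1 - r k * r k) / (1 - r k * x) ^ 2)) hk0'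
    (fun x hx => (hasDerivAt_gen r r x
      (fun k => (hden x hx.1 (hx.2.trans hlt.le) k).ne')).continuousAt.continuousWithinAt)
    (by
      rw [prod_eq_zero (mem_univ k0) (f := fun k => (r k0 - r k) / (1 - r k * r k0)) (by simp)]
      simp)
    (fun x hx => hasDerivAt_gen r r x (fun k => (hden x hx.1.le (hx.2.le.trans hlt.le) k).ne'))
  refine ⟨x, hx.1, hx.2.trans hlt, hx', ?_⟩
  set L : ℝ → ℝ := fun y => ∑ k, (Real.log ((r k - y) / r k) - Real.log (1 - r k * y)) with hL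
  have hder : ∀ y, 0 ≤ y → y < r k0 →
      HasDerivAt L (∑ k, (-1 / r k / ((r k - y) / r k) - (-(r k * 1)) / (1 - r k * y))) y := by
    intro y hy hy1
    apply HasDerivAt.fun_sum
    intro k _
    have a1 : HasDerivAt (fun y => (r k - y) / r k) (-1 / r k) y :=
      ((hasDerivAt_id y).const_sub (r k)).div_const _
    have a2 : HasDerivAt (fun y => 1 - r k * y) (-(r k * 1)) y :=
      ((hasDerivAt_id y).const_mul (r k)).const_sub 1
    exact (a1.log (hsign y hy hy1 k).ne').sub (a2.log (hden y hy (hy1.le.trans hlt.le) k).ne')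
  have hneg : ∀ y, 0 ≤ y → y < r k0 →
      ∑ k, (-1 / r k / ((r k - y) / r k) - (-(r k * 1)) / (1 - r k * y)) ≤ 0 := by
    intro y hy hy1
    have hy2 : 0 < 1 - y ^ 2 := by nlinarith
    have : (1 - y ^ 2) * ∑ k, (-1 / r k / ((r k - y) / r k) - (-(r k * 1)) / (1 - r k * y)) ≤
        -∑ k, (1 - r k ^ 2) / r k := by
      rw [mul_sum, ← sum_neg_distrib]
      refine sum_le_sum fun k _ => ?_
      have b1 := hsign y hy hy1 k
      have b2 := hden y hy (hy1.le.trans hlt.le) k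
      have b3 := h0 k
      have b4 : r k - y ≠ 0 := by intro h; rw [h] at b1; simp at b1
      have b5 : 0 < r k * (r k - y) := by
        have : r k * (r k - y) = (r k - y) / r k * r k ^ 2 := by field_simp
        rw [this]; positivity
      have b6 : 0 ≤ 1 + r k ^ 2 - 2 * r k * y := by nlinarith [sq_nonneg (r k - y)]
      have e : -((1 - r k ^ 2) / r k) -
          (1 - y ^ 2) * (-1 / r k / ((r k - y) / r k) - (-(r k * 1)) / (1 - r k * y)) =
          (1 - r k ^ 2) * (y * (1 + r k ^ 2 - 2 * r k * y)) / ((r k * (r k - y)) * (1 - r k * y)) := by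
        have := b2.ne'
        field_simp
        ring
      have : 0 ≤ (1 - r k ^ 2) * (y * (1 + r k ^ 2 - 2 * r k * y)) /
          ((r k * (r k - y)) * (1 - r k * y)) :=
        div_nonneg (mul_nonneg (hsq k).le (mul_nonneg hy b6)) (mul_pos b5 b2).le
      linarith
    by_contra hc
    push Not at hc
    have := mul_pos hy2 hc
    linarith
  have hanti : AntitoneOn L (Set.Icc 0 x) := by
    apply antitoneOn_of_deriv_nonpos (convex_Icc 0 x)
    · intro y hy
      exact (hder y hy.1 (hy.2.trans_lt hx.2)).continuousAt.continuousWithinAt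
    · intro y hy
      rw [interior_Icc] at hy
      exact (hder y hy.1.le (hy.2.trans hx.2)).differentiableAt.differentiableWithinAt
    · intro y hy
      rw [interior_Icc] at hy
      rw [(hder y hy.1.le (hy.2.trans hx.2)).deriv]
      exact hneg y hy.1.le (hy.2.trans hx.2)
  have hLx : L x ≤ L 0 := hanti ⟨le_rfl, hx.1.le⟩ ⟨hx.1.le, le_rfl⟩ hx.1.le
  have hL0 : L 0 = 0 := by
    simp only [hL]
    refine sum_eq_zero fun k _ => ?_
    simp [h0 k]
  have hexp : Real.exp (L x) = ∏ k, ((r k - x) / r k) / (1 - r k * x) := by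
    simp only [hL]
    rw [Real.exp_sum]
    refine prod_congr rfl fun k _ => ?_
    rw [Real.exp_sub, Real.exp_log (hsign x hx.1.le hx.2 k),
      Real.exp_log (hden x hx.1.le (hx.2.le.trans hlt.le) k)]
  have hle : ∏ k, ((r k - x) / r k) / (1 - r k * x) ≤ 1 := by
    rw [← hexp]; exact Real.exp_le_one_iff.2 (by linarith)
  have e : ∏ k, |(x - r k) / (1 - r k * x)| =
      (∏ k, ((r k - x) / r k) / (1 - r k * x)) * ∏ k, |r k| := by
    rw [← prod_mul_distrib]
    refine prod_congr rfl fun k _ => ?_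
    have b1 := hsign x hx.1.le hx.2 k
    have b2 := hden x hx.1.le (hx.2.le.trans hlt.le) k
    rw [← abs_of_pos (div_pos b1 b2), ← abs_mul, ← abs_neg]
    congr 1
    have := h0 k
    field_simp
    ring
  rw [e]
  exact mul_le_of_le_one_left (prod_nonneg fun k _ => abs_nonneg _) hle

lemma line_aux {m : ℕ} (hm : 1 ≤ m) (τ : Fin m → ℂ) (hτ : ∀ k, τ k ≠ 0 ∧ ‖τ k‖ < 1)
    (u : ℂ) (hu : ‖u‖ = 1) (r : Fin m → ℝ) (hr : ∀ k, τ k = r k * u)
    (hs : 0 ≤ ∑ k, (1 - r k ^ 2) / r k) :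
    ∃ ζ : ℂ, ‖ζ‖ < 1 ∧ N τ ζ = 0 ∧ ‖Q τ ζ‖ ≤ (∏ k, ‖τ k‖) * ‖Qs τ ζ‖ := by
  have hn : ∀ k, ‖τ k‖ = |r k| := fun k => by rw [hr]; simp [hu]
  have h0 : ∀ k, r k ≠ 0 := fun k h => (hτ k).1 (by rw [hr, h]; simp)
  obtain ⟨x, hx0, hx1, hx, hle⟩ := real_line hm r h0 (fun k => hn k ▸ (hτ k).2) hs
  have huu : conj u * u = 1 := by
    rw [mul_comm, Complex.mul_conj, Complex.normSq_eq_norm_sq, hu]; simp
  have hz : ‖(x : ℂ) * u‖ < 1 := by simp [hu, abs_of_pos hx0, hx1]
  have hd : ∀ k, 1 - conj (τ k) * (x * u) = ((1 - r k * x : ℝ) : ℂ) := by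
    intro k; rw [hr, map_mul, Complex.conj_ofReal]; push_cast
    linear_combination (-(r k : ℂ) * x) * huu
  have hd2 : ∀ k, 1 - conj (τ k) * τ k = ((1 - r k * r k : ℝ) : ℂ) := by
    intro k; rw [hr, map_mul, Complex.conj_ofReal]; push_cast
    linear_combination (-(r k : ℂ) * r k) * huu
  have hd3 : ∀ k, (x * u - τ k) / (1 - conj (τ k) * (x * u)) =
      u * (((x - r k) / (1 - r k * x) : ℝ) : ℂ) := by
    intro k; rw [hd, hr]; push_cast; ring
  have hne : ∀ k, 1 - conj (τ k) * (x * u) ≠ 0 := fun k => one_sub_ne (hτ k).2 hz.le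
  have hQ : Qs τ (x * u) ≠ 0 := prod_ne_zero_iff.2 fun k _ => hne k
  refine ⟨x * u, hz, ?_, ?_⟩
  · have e1 := deriv_eq τ _ hne
    rw [(hasDerivAt_gen τ (fun k => conj (τ k)) _ hne).deriv] at e1
    simp only [hd3] at e1
    simp only [hd, hd2, prod_mul_distrib, prod_const] at e1
    have hx' := congrArg (fun t : ℝ => (t : ℂ)) hx
    obtain ⟨n, rfl⟩ : ∃ n, m = n + 1 := ⟨m - 1, by omega⟩
    simp only [card_erase_of_mem (mem_univ _), card_univ, Fintype.card_fin,
      Nat.add_sub_cancel] at e1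
    have e2 : N τ (x * u) / Qs τ (x * u) ^ 2 = 0 := by
      rw [← e1]
      push_cast at hx' ⊢
      simp only [mul_assoc, ← mul_sum]
      linear_combination u ^ (n + 1) * hx'
    rcases div_eq_zero_iff.1 e2 with h | h
    · exact h
    · exact absurd h (pow_ne_zero 2 hQ)
  · have e1 : ‖Q τ (x * u)‖ / ‖Qs τ (x * u)‖ = ∏ k, |(x - r k) / (1 - r k * x)| := by
      rw [← norm_div, Q, Qs, ← prod_div_distrib, norm_prod]
      refine prod_congr rfl fun k _ => ?_
      rw [hd3, norm_mul, hu, one_mul, Complex.norm_real, Real.norm_eq_abs]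
    rw [← e1, div_le_iff₀ (norm_pos_iff.2 hQ)] at hle
    simpa only [hn] using hle

lemma line {m : ℕ} (hm : 1 ≤ m) (τ : Fin m → ℂ) (hτ : ∀ k, τ k ≠ 0 ∧ ‖τ k‖ < 1)
    (u : ℂ) (hr : ∀ k, ∃ r : ℝ, τ k = r * u) :
    ∃ ζ : ℂ, ‖ζ‖ < 1 ∧ N τ ζ = 0 ∧ ‖Q τ ζ‖ ≤ (∏ k, ‖τ k‖) * ‖Qs τ ζ‖ := by
  choose r hr using hr
  have hu0 : u ≠ 0 := by
    rintro rfl
    exact (hτ ⟨0, hm⟩).1 (by rw [hr]; simp)
  have hn : (‖u‖ : ℂ) ≠ 0 := by exact_mod_cast norm_ne_zero_iff.2 hu0
  have hu : ‖u / (‖u‖ : ℂ)‖ = 1 := by simp [hu0]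
  rcases le_total 0 (∑ k, (1 - (r k * ‖u‖) ^ 2) / (r k * ‖u‖)) with h | h
  · refine line_aux hm τ hτ (u / ‖u‖) hu (fun k => r k * ‖u‖) (fun k => ?_) h
    rw [hr]; push_cast; field_simp
  · refine line_aux hm τ hτ (-(u / ‖u‖)) (by rw [norm_neg, hu]) (fun k => -(r k * ‖u‖))
      (fun k => ?_) ?_
    · rw [hr]; push_cast; field_simp
    · simp only [neg_sq, div_neg, sum_neg_distrib]
      linarith

end

end Pool.Agent.P.MP_c3cac0_an
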