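import Pool.Agent.P.MP_c3cac0_an.SmPoly

/-! Shrinking the zeros: from the polynomial to a Blaschke product. -/

open Set Metric Filter Topology Complex Polynomial Bornology

namespace Pool.Agent.P.MP_c3cac0_an.Sm

theorem exists_good_prod : ∃ (m : ℕ) (τ : Fin m → ℂ), 1 ≤ m ∧ Good (∏ k, (X - C (τ k))) := by
  obtain ⟨g, hg, hG⟩ := exists_good
  have hg0 : g ≠ 0 := by rintro rfl; simp at hg
  have hc : g.leadingCoeff ≠ 0 := leadingCoeff_ne_zero.mpr hg0
  obtain ⟨m, τ, hτ⟩ : ∃ (m : ℕ) (τ : Fin m → ℂ), g.roots = Finset.univ.val.map τ := by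
    induction g.roots using Quotient.inductionOn with
    | h l => exact ⟨l.length, l.get, by simp⟩
  have e : g = C g.leadingCoeff * ∏ k, (X - C (τ k)) := by
    have := (IsAlgClosed.splits g).eq_prod_roots
    rw [hτ, Multiset.map_map] at this
    exact this
  refine ⟨m, τ, ?_, fun z hz => ?_⟩
  · rcases Nat.eq_zero_or_pos m with rfl | h
    · rw [e] at hg; simp [degree_C hc] at hg
    · exact h
  · have := hG z (by
      rw [e, mul_left_comm, derivative_C_mul, eval_mul, hz, mul_zero])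
    rw [e, eval_mul, eval_mul, norm_mul, norm_mul, eval_C, eval_C] at this
    exact lt_of_mul_lt_mul_left this (norm_nonneg _)

theorem main :
    ¬ (∀ m : ℕ, 1 ≤ m → ∀ τ : Fin m → ℂ, (∀ k, τ k ≠ 0 ∧ ‖τ k‖ < 1) →
      ∃ ζ : ℂ, ‖ζ‖ < 1 ∧
        deriv (fun z : ℂ => z * ∏ k, (z - τ k) / (1 - starRingEnd ℂ (τ k) * z)) ζ = 0 ∧
        ‖ζ * ∏ k, (ζ - τ k) / (1 - starRingEnd ℂ (τ k) * ζ)‖ ≤
          ‖deriv (fun z : ℂ => z * ∏ k, (z - τ k) / (1 - starRingEnd ℂ (τ k) * z)) 0‖ * ‖ζ‖) := by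
  intro H
  obtain ⟨m, τ, hm, hG⟩ := exists_good_prod
  set q : ℂ[X] := ∏ k, (X - C (τ k)) with hq
  set R : ℂ[X] := ∏ k, (1 - C (starRingEnd ℂ (τ k)) * X) with hR
  have hd0 : (derivative (X * q)).eval 0 = q.eval 0 := by simp [derivative_mul]
  have hq0 : q.eval 0 ≠ 0 := fun h => lt_irrefl _ (hG 0 (hd0.trans h))
  have hτ0 : ∀ k, τ k ≠ 0 := by
    intro k hk
    apply hq0
    rw [hq, eval_prod]
    exact Finset.prod_eq_zero (Finset.mem_univ k) (by simp [hk])
  have hqd : 0 < q.degree := by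
    rw [← natDegree_pos_iff_degree_pos, hq, natDegree_finsetProd_X_sub_C_eq_card]
    simp only [Finset.card_univ, Fintype.card_fin]; omega
  have hR0 : R.eval 0 = 1 := by simp [hR, eval_prod]
  obtain ⟨A, hA0, hA⟩ := (finite_range τ).isBounded.exists_pos_norm_lt
  have step : ∀ ε : ℝ, 0 < ε → ε * A ≤ 1 → ∃ ζ u : ℂ, ‖ζ‖ < 1 ∧
      (derivative (X * q)).eval u * R.eval (ε * ζ) =
        ε ^ 2 * ((X * q).eval u * (derivative R).eval (ε * ζ)) ∧
      ‖q.eval u‖ ≤ ‖q.eval 0‖ * ‖R.eval (ε * ζ)‖ := by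
    intro ε hε hεA
    have hεc : (ε : ℂ) ≠ 0 := by exact_mod_cast hε.ne'
    have hn : ∀ k, ‖(ε : ℂ) * τ k‖ < 1 := fun k => by
      rw [norm_mul, norm_real, Real.norm_eq_abs, abs_of_pos hε]
      exact (mul_lt_mul_of_pos_left (hA _ ⟨k, rfl⟩) hε).trans_le hεA
    obtain ⟨ζ, h1, h2, h3⟩ := H m hm (fun k => ε * τ k) fun k => ⟨mul_ne_zero hεc (hτ0 k), hn k⟩
    have e : ∀ z : ℂ, z * ∏ k, (z - ε * τ k) / (1 - starRingEnd ℂ (ε * τ k) * z) =
        ε ^ (m + 1) * ((X * q).eval (z / ε) / R.eval (ε * z)) := by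
      intro z
      have a : ∏ k, (z - ε * τ k) = ε ^ m * q.eval (z / ε) := by
        rw [hq, eval_prod, show (ε : ℂ) ^ m = ∏ _k : Fin m, (ε : ℂ) by simp,
          ← Finset.prod_mul_distrib]
        refine Finset.prod_congr rfl fun k _ => ?_
        simp only [eval_sub, eval_X, eval_C]; field_simp
      have b : ∏ k, (1 - starRingEnd ℂ (ε * τ k) * z) = R.eval (ε * z) := by
        rw [hR, eval_prod]
        refine Finset.prod_congr rfl fun k _ => ?_
        simp only [map_mul, conj_ofReal, eval_sub, eval_one, eval_mul, eval_C, eval_X]; ring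
      rw [Finset.prod_div_distrib, a, b, eval_mul, eval_X]
      field_simp
      ring
    have hRne : ∀ z : ℂ, ‖z‖ < 1 → R.eval (ε * z) ≠ 0 := by
      intro z hz
      rw [hR, eval_prod]
      refine Finset.prod_ne_zero_iff.mpr fun k _ h => ?_
      simp only [eval_sub, eval_one, eval_mul, eval_C, eval_X] at h
      have a : ‖starRingEnd ℂ (τ k) * (ε * z)‖ < 1 := by
        rw [show starRingEnd ℂ (τ k) * (ε * z) = starRingEnd ℂ (ε * τ k) * z by
          simp only [map_mul, conj_ofReal]; ring, norm_mul, norm_conj]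
        exact mul_lt_one_of_nonneg_of_lt_one_left (norm_nonneg _) (hn k) hz.le
      rw [← sub_eq_zero.mp h, norm_one] at a
      exact lt_irrefl _ a
    have hder : ∀ z : ℂ, ‖z‖ < 1 →
        deriv (fun z : ℂ => z * ∏ k, (z - ε * τ k) / (1 - starRingEnd ℂ (ε * τ k) * z)) z =
          ε ^ (m + 1) * (((derivative (X * q)).eval (z / ε) * (1 / ε) * R.eval (ε * z) -
            (X * q).eval (z / ε) * ((derivative R).eval (ε * z) * (ε * 1))) / R.eval (ε * z) ^ 2) := by
      intro z hz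
      simp only [e]
      have a := ((X * q).hasDerivAt (z / ε)).comp z ((hasDerivAt_id z).div_const (ε : ℂ))
      have b := (R.hasDerivAt (ε * z)).comp z ((hasDerivAt_id z).const_mul (ε : ℂ))
      exact ((a.div b (hRne z hz)).const_mul _).deriv
    have hz := hRne ζ h1
    rw [hder ζ h1] at h2
    rw [hder 0 (by simp), e] at h3
    simp only [zero_div, mul_zero, hR0, hd0, eval_mul, eval_X, zero_mul] at h3
    have h4 : (derivative (X * q)).eval (ζ / ε) * R.eval (ε * ζ) =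
        ε ^ 2 * ((X * q).eval (ζ / ε) * (derivative R).eval (ε * ζ)) := by
      have := (div_eq_zero_iff.mp ((mul_eq_zero.mp h2).resolve_left (pow_ne_zero _ hεc))).resolve_right
        (pow_ne_zero _ hz)
      have h1e : (ε : ℂ) * (1 / ε) = 1 := by field_simp
      linear_combination ε * this -
        (derivative (X * q)).eval (ζ / ε) * R.eval (ε * ζ) * h1e
    refine ⟨ζ, ζ / ε, h1, h4, ?_⟩
    have hζ : ζ ≠ 0 := by
      rintro rfl
      apply hq0
      simpa [hd0, hR0] using h4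
    have p1 : 0 < ‖ζ‖ := norm_pos_iff.mpr hζ
    have p2 : 0 < ‖(ε : ℂ)‖ := norm_pos_iff.mpr hεc
    have p3 : 0 < ‖R.eval (ε * ζ)‖ := norm_pos_iff.mpr hz
    simp only [norm_mul, norm_div, norm_pow, sub_zero, mul_one, one_pow, div_one, norm_one] at h3
    generalize ‖R.eval (ε * ζ)‖ = r at h3 p3
    generalize ‖q.eval (ζ / ε)‖ = t at h3
    field_simp at h3
    linarith
  set ε : ℕ → ℝ := fun n => 1 / ((n : ℝ) + 1) * A⁻¹ with hε
  have hεt : Tendsto ε atTop (𝓝 0) := by
    have := (tendsto_one_div_add_atTop_nhds_zero_nat (𝕜 := ℝ)).mul_const A⁻¹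
    rwa [zero_mul] at this
  choose ζ u h1 h2 h3 using fun n => step (ε n) (by positivity) (by
    rw [hε, mul_assoc, inv_mul_cancel₀ hA0.ne', mul_one, div_le_one (by positivity)]
    linarith [(Nat.cast_nonneg n : (0 : ℝ) ≤ n)])
  have hεc : Tendsto (fun n => (ε n : ℂ)) atTop (𝓝 0) := by
    have := (continuous_ofReal.tendsto 0).comp hεt
    rwa [ofReal_zero] at this
  have hw : Tendsto (fun n => (ε n : ℂ) * ζ n) atTop (𝓝 0) := by
    refine squeeze_zero_norm (fun n => ?_) (by simpa using hεc.norm)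
    rw [norm_mul]
    simpa using mul_le_of_le_one_right (norm_nonneg (ε n : ℂ)) (h1 n).le
  have hRt : Tendsto (fun n => R.eval ((ε n : ℂ) * ζ n)) atTop (𝓝 1) :=
    hR0 ▸ (R.continuous.tendsto 0).comp hw
  have hRt' := ((derivative R).continuous.tendsto 0).comp hw
  obtain ⟨c, hc⟩ := (hRt.norm.const_mul ‖q.eval 0‖).bddAbove_range
  obtain ⟨v, -, φ, hφ, hlim⟩ := tendsto_subseq_of_bounded (isBounded_sub hqd c)
    (x := u) fun n => (h3 n).trans (hc ⟨n, rfl⟩)
  have ev : ∀ p : ℂ[X], Tendsto (fun n => p.eval (u (φ n))) atTop (𝓝 (p.eval v)) := fun p =>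
    (p.continuous.tendsto v).comp hlim
  have hφt := hφ.tendsto_atTop
  have l1 := (ev (derivative (X * q))).mul (hRt.comp hφt)
  have l2 := ((hεc.comp hφt).pow 2).mul ((ev (X * q)).mul (hRt'.comp hφt))
  simp only [mul_one, ne_eq, OfNat.ofNat_ne_zero, not_false_eq_true, zero_pow, zero_mul] at l1 l2
  have c1 : (derivative (X * q)).eval v = 0 :=
    tendsto_nhds_unique l1 (l2.congr fun n => (h2 (φ n)).symm)
  have l3 := ((hRt.comp hφt).norm.const_mul ‖q.eval 0‖)
  simp only [norm_one, mul_one] at l3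
  exact absurd (hG v c1) (not_lt.mpr (le_of_tendsto_of_tendsto' (ev q).norm l3 fun n => h3 (φ n)))

end Pool.Agent.P.MP_c3cac0_an.Sm
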