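import Mathlib
import Pool.Agent.Lib.Mergelyan.Main

/-! The local example: the Riemann map of a slit plane. -/

open Set Metric Filter Topology Complex Polynomial

namespace Pool.Agent.P.MP_c3cac0_an.Sm

theorem norm_le_of_sq {z : ℂ} {r : ℝ} (hr : 0 ≤ r) (h : z.re ^ 2 + z.im ^ 2 ≤ r ^ 2) : ‖z‖ ≤ r := by
  apply le_of_sq_le_sq _ hr
  rw [Complex.sq_norm, normSq_apply]; nlinarith

theorem le_norm_of_sq {z : ℂ} {r : ℝ} (h : r ^ 2 ≤ z.re ^ 2 + z.im ^ 2) : r ≤ ‖z‖ := by
  apply le_of_sq_le_sq _ (norm_nonneg _)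
  rw [Complex.sq_norm, normSq_apply]; nlinarith

/-- the cubic has no root in the disc -/
theorem cubic_ne (s : ℂ) (h : s.re ^ 2 + (s.im - 10) ^ 2 + 1 ≤ 66 * s.re) :
    s ^ 3 + (1 - 20 * I) * s ^ 2 - 101 * s + 17 + 144 * I ≠ 0 := by
  intro hs
  set c : ℂ := 33 + 10 * I with hc
  have hsc : ‖s - c‖ ≤ 33 := by
    apply norm_le_of_sq (by norm_num)
    simp [hc]; nlinarith
  have key : ∀ (a b d : ℝ), (33 + d) ^ 2 ≤ (a - 33) ^ 2 + (b - 10) ^ 2 →
      d ≤ ‖s - (a + b * I)‖ := by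
    intro a b d hab
    have h1 : 33 + d ≤ ‖(a + b * I : ℂ) - c‖ := by
      apply le_norm_of_sq
      simp [hc]; nlinarith
    have h2 := norm_sub_le_norm_sub_add_norm_sub ((a + b * I : ℂ)) s c
    rw [norm_sub_rev ((a + b * I : ℂ)) s] at h2
    linarith
  have h1 := key (765 / 10000) (42605 / 10000) (4 / 10) (by norm_num)
  have h2 := key (-16390 / 10000) (132545 / 10000) (17 / 10) (by norm_num)
  have h3 := key (5625 / 10000) (24850 / 10000) (28 / 100) (by norm_num)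
  have hn : ‖s‖ ≤ 70 := by
    have h4 : ‖c‖ ≤ 37 := by
      apply norm_le_of_sq (by norm_num)
      simp [hc]; norm_num
    have := norm_add_le (s - c) c
    rw [sub_add_cancel] at this
    linarith
  set e1 : ℂ := -69 / 500000 - 1539 / 4000000 * I with he1
  set e0 : ℂ := -3857441 / 1600000000 + 1494113 / 1600000000 * I with he0
  have hid : (s - ((765 / 10000 : ℝ) + (42605 / 10000 : ℝ) * I)) *
      (s - ((-16390 / 10000 : ℝ) + (132545 / 10000 : ℝ) * I)) *
      (s - ((5625 / 10000 : ℝ) + (24850 / 10000 : ℝ) * I)) = -(e1 * s + e0) := by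
    have hI : I ^ 2 = -1 := I_sq
    have hI3 : I ^ 3 = -I := I_pow_three
    push_cast
    rw [he1, he0]
    linear_combination hs + (s * (42605 / 10000 * (132545 / 10000) + 42605 / 10000 * (24850 / 10000)
      + 132545 / 10000 * (24850 / 10000)) - (765 / 10000 * (132545 / 10000) * (24850 / 10000)
      + -16390 / 10000 * (42605 / 10000) * (24850 / 10000)
      + 5625 / 10000 * (42605 / 10000) * (132545 / 10000))) * hI
      - (42605 / 10000 * (132545 / 10000) * (24850 / 10000)) * hI3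
  have b1 : ‖e1‖ ≤ 6 / 10000 := by
    apply norm_le_of_sq (by norm_num)
    simp [he1]; norm_num
  have b0 : ‖e0‖ ≤ 4 / 1000 := by
    apply norm_le_of_sq (by norm_num)
    simp [he0]; norm_num
  have hb : ‖e1 * s + e0‖ ≤ 6 / 10000 * 70 + 4 / 1000 := by
    refine (norm_add_le _ _).trans (add_le_add ?_ b0)
    rw [norm_mul]
    exact mul_le_mul b1 hn (norm_nonneg _) (by norm_num)
  have := congrArg norm hid
  rw [norm_neg, norm_mul, norm_mul] at this
  have h12 := mul_le_mul h1 h2 (by norm_num) (norm_nonneg _)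
  have h123 := mul_le_mul h12 h3 (by norm_num) (by positivity)
  rw [this] at h123
  norm_num at h123 hb
  linarith

/-- principal square root of `z - 17 - 144 i` -/
noncomputable def sq (z : ℂ) : ℂ := (z - (17 + 144 * I)) ^ (2⁻¹ : ℂ)

noncomputable def phi (s : ℂ) : ℂ := s ^ 2 + (17 + 144 * I)

noncomputable def g0 (z : ℂ) : ℂ := (sq z - (1 + 10 * I)) / (sq z + (1 - 10 * I))

theorem sq_sq (z : ℂ) : sq z ^ 2 = z - (17 + 144 * I) := by
  simp [sq]

theorem phi_sq (z : ℂ) : phi (sq z) = z := by rw [phi, sq_sq]; ring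

theorem sq_phi {s : ℂ} (h : 0 < s.re) : sq (phi s) = s := by
  rw [sq, phi, add_sub_cancel_right]; exact sq_cpow_two_inv h

theorem phi_slit {s : ℂ} (h : 0 < s.re) : phi s - (17 + 144 * I) ∈ slitPlane := by
  rw [phi, add_sub_cancel_right, mem_slitPlane_iff]
  by_cases hb : s.im = 0
  · left; simp [pow_two, hb]; exact h.ne'
  · right; simp [pow_two]
    intro h'; apply hb; nlinarith

theorem diff_sq {z : ℂ} (h : z - (17 + 144 * I) ∈ slitPlane) : DifferentiableAt ℂ sq z :=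
  (differentiableAt_id.sub_const _).cpow_const h

theorem deriv_sq {z : ℂ} (h : z - (17 + 144 * I) ∈ slitPlane) : 2 * sq z * deriv sq z = 1 := by
  have h1 := (diff_sq h).hasDerivAt.pow 2
  have h2 : HasDerivAt (fun z => sq z ^ 2) 1 z := by
    simp only [sq_sq]; exact (hasDerivAt_id z).sub_const _
  have := h1.unique h2
  simpa using this

def Rc : Set ℂ := Icc (1 / 100 : ℝ) 70 ×ℂ Icc (-70 : ℝ) 70
def Ro : Set ℂ := Ioo (1 / 100 : ℝ) 70 ×ℂ Ioo (-70 : ℝ) 70
def Om : Set ℂ := {z | z - (17 + 144 * I) ∈ slitPlane ∧ 0 < (sq z).re}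
def Kc : Set ℂ := phi '' Rc
def Oo : Set ℂ := {z | z - (17 + 144 * I) ∈ slitPlane} ∩ sq ⁻¹' Ro

theorem open_aux {U : Set ℂ} (hU : IsOpen U) :
    IsOpen ({z | z - (17 + 144 * I) ∈ slitPlane} ∩ sq ⁻¹' U) := by
  refine ContinuousOn.isOpen_inter_preimage (fun z hz => (diff_sq hz).continuousAt.continuousWithinAt)
    ?_ hU
  exact isOpen_slitPlane.preimage (continuous_id.sub continuous_const)

theorem isOpen_Om : IsOpen Om :=
  open_aux (U := {s | 0 < s.re}) (isOpen_lt continuous_const continuous_re)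

theorem isOpen_Oo : IsOpen Oo := open_aux (isOpen_Ioo.reProdIm isOpen_Ioo)

theorem continuous_phi : Continuous phi := by unfold phi; fun_prop

theorem isCompact_Kc : IsCompact Kc :=
  (isCompact_Icc.reProdIm isCompact_Icc).image continuous_phi

theorem Rc_re {s : ℂ} (h : s ∈ Rc) : 0 < s.re := by
  have : (1 / 100 : ℝ) ≤ s.re := h.1.1
  linarith

theorem Kc_sub : Kc ⊆ Om := by
  rintro _ ⟨s, hs, rfl⟩
  exact ⟨phi_slit (Rc_re hs), by rw [sq_phi (Rc_re hs)]; exact Rc_re hs⟩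

theorem Oo_sub : Oo ⊆ Kc := fun z hz =>
  ⟨sq z, ⟨Ioo_subset_Icc_self hz.2.1, Ioo_subset_Icc_self hz.2.2⟩, phi_sq z⟩

theorem phi_s0 : phi (8 - 9 * I) = 0 := by
  have hI : I ^ 2 = -1 := I_sq
  rw [phi]; linear_combination 81 * hI

theorem sq_zero : sq 0 = 8 - 9 * I := by
  rw [← phi_s0, sq_phi (by simp)]

theorem zero_mem_Kc : (0 : ℂ) ∈ Kc :=
  ⟨8 - 9 * I, ⟨by constructor <;> simp <;> norm_num, by constructor <;> simp <;> norm_num⟩, phi_s0⟩

theorem den_ne {z : ℂ} (h : z ∈ Om) : sq z + (1 - 10 * I) ≠ 0 := by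
  intro h'
  have := congrArg re h'
  simp at this
  linarith [h.2]

theorem diff_g0 : DifferentiableOn ℂ g0 Om := fun _ hz =>
  (((diff_sq hz.1).sub_const _).div ((diff_sq hz.1).add_const _) (den_ne hz)).differentiableWithinAt

theorem norm_g0_zero : ‖g0 0‖ < 97 / 100 := by
  rw [g0, sq_zero, norm_div, div_lt_iff₀ (norm_pos_iff.mpr (by
    intro h; have := congrArg re h; simp at this; norm_num at this))]
  have h1 : ‖(8 - 9 * I - (1 + 10 * I) : ℂ)‖ ≤ 2025 / 100 := by
    apply norm_le_of_sq (by norm_num); simp; norm_num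
  have h2 : 21 ≤ ‖(8 - 9 * I + (1 - 10 * I) : ℂ)‖ := by
    apply le_norm_of_sq; simp; norm_num
  linarith

theorem g0_good {z : ℂ} (hz : z ∈ Kc) (h : ‖g0 z‖ ≤ 97 / 100) :
    z ∈ Oo ∧ deriv (fun z => z * g0 z) z ≠ 0 := by
  have hO := Kc_sub hz
  have hd := den_ne hO
  have hre := hO.2
  rw [g0, norm_div, div_le_iff₀ (norm_pos_iff.mpr hd)] at h
  have h2 := pow_le_pow_left₀ (norm_nonneg _) h 2
  rw [mul_pow, Complex.sq_norm, Complex.sq_norm, normSq_apply, normSq_apply] at h2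
  simp at h2
  have hdisc : (sq z).re ^ 2 + ((sq z).im - 10) ^ 2 + 1 ≤ 66 * (sq z).re := by nlinarith
  refine ⟨⟨hO.1, ⟨?_, ?_⟩, ⟨?_, ?_⟩⟩, ?_⟩
  · nlinarith [sq_nonneg (sq z).re, sq_nonneg ((sq z).im - 10)]
  · nlinarith [sq_nonneg ((sq z).im - 10)]
  · nlinarith [sq_nonneg ((sq z).re - 33)]
  · nlinarith [sq_nonneg ((sq z).re - 33)]
  · have hs := (diff_sq hO.1).hasDerivAt
    have hg : HasDerivAt g0 _ z := (hs.sub_const (1 + 10 * I)).div (hs.add_const (1 - 10 * I)) hd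
    have hF := (hasDerivAt_id z).mul hg
    have : deriv (fun z => z * g0 z) z = _ := hF.deriv
    rw [this]
    intro h0
    apply cubic_ne _ hdisc
    have hD := deriv_sq hO.1
    have hq := sq_sq z
    have hI : I ^ 2 = -1 := I_sq
    simp only [id, g0, one_mul] at h0
    field_simp at h0
    linear_combination (sq z) * h0 - z * hD + hq - 100 * sq z * hI

theorem compl_Kc : IsPreconnected Kcᶜ := by
  have e : Kcᶜ = phi '' (((Ico (0 : ℝ) (1 / 100) ×ℂ univ) ∪ (Ici (0 : ℝ) ×ℂ Iio (-70 : ℝ))) ∪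
      ((Ici (0 : ℝ) ×ℂ Ioi (70 : ℝ)) ∪ (Ioi (70 : ℝ) ×ℂ univ))) := by
    ext z
    constructor
    · intro hz
      have : ∃ s : ℂ, 0 ≤ s.re ∧ phi s = z := by
        by_cases h : 0 ≤ (sq z).re
        · exact ⟨_, h, phi_sq z⟩
        · refine ⟨-sq z, by simp; linarith, ?_⟩
          have := phi_sq z
          rw [phi] at this ⊢
          rw [neg_sq]; exact this
      obtain ⟨s, hs, rfl⟩ := this
      refine ⟨s, ?_, rfl⟩
      by_contra hn
      apply hz
      refine ⟨s, ?_, rfl⟩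
      simp only [mem_union, mem_reProdIm, mem_Ico, mem_univ, mem_Ici, mem_Iio, mem_Ioi, not_or,
        not_and, not_lt, and_true] at hn
      exact ⟨⟨hn.1.1 hs, hn.2.2⟩, ⟨hn.1.2 hs, hn.2.1 hs⟩⟩
    · rintro ⟨s, hs, rfl⟩ ⟨t, ht, hst⟩
      have hs0 : 0 ≤ s.re := by
        rcases hs with (h | h) | (h | h)
        · exact h.1.1
        · exact h.1
        · exact h.1
        · have := h.1; simp only [mem_preimage, mem_Ioi] at this; linarith
      have : t = s := by
        have h2 : (t - s) * (t + s) = 0 := by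
          simp only [phi] at hst; linear_combination hst
        rcases mul_eq_zero.mp h2 with h | h
        · exact sub_eq_zero.mp h
        · have := congrArg re h
          simp at this
          linarith [Rc_re ht]
      subst this
      obtain ⟨⟨a1, a2⟩, ⟨a3, a4⟩⟩ := ht
      rcases hs with (h | h) | (h | h)
      · exact absurd h.1.2 (not_lt.mpr a1)
      · exact absurd h.2 (not_lt.mpr a3)
      · exact absurd h.2 (not_lt.mpr a4)
      · exact absurd h.1 (not_lt.mpr a2)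
  rw [e]
  refine IsPreconnected.image ?_ _ continuous_phi.continuousOn
  have cv : ∀ {s t : Set ℝ}, Convex ℝ s → Convex ℝ t → IsPreconnected (s ×ℂ t) := fun hs ht =>
    ((hs.linear_preimage reLm).inter (ht.linear_preimage imLm)).isPreconnected
  refine IsPreconnected.union (71 * I) ?_ ?_ ?_ ?_
  · left; constructor <;> simp
  · left; constructor <;> simp; norm_num
  · refine IsPreconnected.union (-71 * I) ?_ ?_ (cv (convex_Ico _ _) convex_univ)
      (cv (convex_Ici _) (convex_Iio _))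
    · constructor <;> simp
    · constructor <;> simp; norm_num
  · refine IsPreconnected.union (71 + 71 * I) ?_ ?_ (cv (convex_Ici _) (convex_Ioi _))
      (cv (convex_Ioi _) convex_univ)
    · constructor <;> simp; norm_num
    · constructor <;> simp; norm_num

/-- polynomial approximation keeps the local picture -/
theorem approx {K Ω O : Set ℂ} {g : ℂ → ℂ} {ρ : ℝ} (hK : IsCompact K) (hc : IsPreconnected Kᶜ)
    (hKΩ : K ⊆ Ω) (hg : DifferentiableOn ℂ g Ω) (hO : IsOpen O) (hOK : O ⊆ K) (h0 : (0 : ℂ) ∈ K)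
    (hρ : ‖g 0‖ < ρ) (hgood : ∀ z ∈ K, ‖g z‖ ≤ ρ → z ∈ O ∧ deriv (fun z => z * g z) z ≠ 0) :
    ∃ p : ℂ[X], ∀ z ∈ K, ‖p.eval z‖ ≤ ‖p.eval 0‖ →
      z ∈ O ∧ (derivative (X * p)).eval z ≠ 0 := by
  have hgK : ContinuousOn g K := hg.continuousOn.mono hKΩ
  have hPA := Pool.Agent.Lib.Mergelyan.mergelyan hK hc hgK (hg.mono (interior_subset.trans hKΩ))
  choose p hp using fun n : ℕ => hPA (1 / ((n : ℝ) + 1)) (by positivity)
  obtain ⟨M, hM⟩ := hK.isBounded.exists_pos_norm_le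
  have hlim : Tendsto (fun n : ℕ => 1 / ((n : ℝ) + 1)) atTop (𝓝 0) :=
    tendsto_one_div_add_atTop_nhds_zero_nat
  have hU : TendstoUniformlyOn (fun n z => (X * p n).eval z) (fun z => z * g z) atTop O := by
    rw [Metric.tendstoUniformlyOn_iff]
    intro ε hε
    filter_upwards [hlim.eventually (gt_mem_nhds (div_pos hε hM.1))] with n hn z hz
    rw [dist_eq_norm, eval_mul, eval_X, ← mul_sub, norm_mul]
    calc ‖z‖ * ‖g z - (p n).eval z‖ ≤ M * (1 / ((n : ℝ) + 1)) :=
          mul_le_mul (hM.2 z (hOK hz)) (hp n z (hOK hz)) (norm_nonneg _) hM.1.le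
      _ < M * (ε / M) := mul_lt_mul_of_pos_left hn hM.1
      _ = ε := by field_simp [hM.1.ne']
  have hD := hU.tendstoLocallyUniformlyOn.deriv
    (Eventually.of_forall fun n => (Polynomial.differentiable _).differentiableOn) hO
  set W := K ∩ (fun z => ‖g z‖) ⁻¹' Iic ρ with hW
  have hWc : IsCompact W :=
    hK.of_isClosed_subset (hgK.norm.preimage_isClosed_of_isClosed hK.isClosed isClosed_Iic)
      inter_subset_left
  have hWO : W ⊆ O := fun z hz => (hgood z hz.1 hz.2).1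
  have hDW := (tendstoLocallyUniformlyOn_iff_tendstoUniformlyOn_of_compact hWc).mp (hD.mono hWO)
  have hF : DifferentiableOn ℂ (fun z => z * g z) O :=
    differentiableOn_id.mul (hg.mono (hOK.trans hKΩ))
  have hcont : ContinuousOn (fun z => ‖deriv (fun z => z * g z) z‖) W :=
    ((hF.deriv hO).continuousOn.mono hWO).norm
  obtain ⟨z0, hz0, hmin⟩ := hWc.exists_isMinOn ⟨0, h0, hρ.le⟩ hcont
  have hκ : 0 < ‖deriv (fun z => z * g z) z0‖ := norm_pos_iff.mpr (hgood z0 hz0.1 hz0.2).2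
  obtain ⟨n, hn1, hn2⟩ := (((Metric.tendstoUniformlyOn_iff.mp hDW) _ hκ).and
    (hlim.eventually (gt_mem_nhds (show 0 < (ρ - ‖g 0‖) / 2 by linarith)))).exists
  refine ⟨p n, fun z hz hle => ?_⟩
  have hzW : z ∈ W := by
    refine ⟨hz, ?_⟩
    have a1 := norm_sub_norm_le (g z) ((p n).eval z)
    have a2 := norm_sub_norm_le ((p n).eval 0) (g 0)
    rw [norm_sub_rev] at a2
    show ‖g z‖ ≤ ρ
    linarith [hp n z hz, hp n 0 h0]
  refine ⟨hWO hzW, fun h => ?_⟩
  have a := hn1 z hzW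
  simp only [Function.comp] at a
  rw [Polynomial.deriv, h, dist_zero_right] at a
  exact absurd (hmin hzW) (not_le.mpr a)

theorem exists_local : ∃ (p : ℂ[X]) (K O : Set ℂ), IsCompact K ∧ IsOpen O ∧ O ⊆ K ∧ (0 : ℂ) ∈ K ∧
    ∀ z ∈ K, ‖p.eval z‖ ≤ ‖p.eval 0‖ → z ∈ O ∧ (derivative (X * p)).eval z ≠ 0 := by
  obtain ⟨p, hp⟩ := approx isCompact_Kc compl_Kc Kc_sub diff_g0 isOpen_Oo Oo_sub zero_mem_Kc
    norm_g0_zero fun z hz h => g0_good hz h
  exact ⟨p, Kc, Oo, isCompact_Kc, isOpen_Oo, Oo_sub, zero_mem_Kc, hp⟩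

end Pool.Agent.P.MP_c3cac0_an.Sm
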