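import Pool.Agent.P.MP_c3cac0_an.SmLocal

/-! From the local example to a polynomial all of whose critical points have ratio `> 1`. -/

open Set Metric Filter Topology Complex Polynomial Bornology

namespace Pool.Agent.P.MP_c3cac0_an.Sm

theorem isBounded_sub {p : ℂ[X]} (hp : 0 < p.degree) (c : ℝ) : IsBounded {z | ‖p.eval z‖ ≤ c} := by
  have h := p.tendsto_norm_atTop hp (l := cobounded ℂ) (z := id) tendsto_norm_cobounded_atTop
  have := h.eventually (eventually_gt_atTop c)
  rw [isBounded_def]
  filter_upwards [this] with z hz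
  simpa using hz

theorem isCompact_sub {p : ℂ[X]} (hp : 0 < p.degree) (c : ℝ) : IsCompact {z | ‖p.eval z‖ ≤ c} :=
  Metric.isCompact_of_isClosed_isBounded (isClosed_le p.continuous.norm continuous_const)
    (isBounded_sub hp c)

/-- the complement of a polynomial sublevel set is connected -/
theorem preconn_compl {p : ℂ[X]} (hp : 0 < p.degree) (c : ℝ) :
    IsPreconnected {z | ‖p.eval z‖ ≤ c}ᶜ := by
  set S := {z | ‖p.eval z‖ ≤ c} with hS
  have hSc : IsClosed S := (isCompact_sub hp c).isClosed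
  obtain ⟨R, hR⟩ := (isBounded_sub hp c).subset_closedBall 0
  have hE : IsPreconnected (closedBall (0 : ℂ) R)ᶜ := by
    rcases lt_or_ge R 0 with h | h
    · rw [closedBall_eq_empty.mpr h, compl_empty]; exact isPreconnected_univ
    · have e : (closedBall (0 : ℂ) R)ᶜ =
          (fun x : ℝ × ℝ => (x.1 : ℂ) * exp (x.2 * I)) '' (Ioi R ×ˢ univ) := by
        ext z
        simp only [mem_compl_iff, mem_closedBall, dist_zero_right, not_le, mem_image, mem_prod,
          mem_Ioi, mem_univ, and_true, Prod.exists]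
        constructor
        · intro hz
          exact ⟨‖z‖, arg z, hz, norm_mul_exp_arg_mul_I z⟩
        · rintro ⟨a, b, ha, rfl⟩
          rw [norm_mul, norm_exp_ofReal_mul_I, mul_one, norm_real, Real.norm_eq_abs]
          exact ha.trans_le (le_abs_self a)
      rw [e]
      exact (isPreconnected_Ioi.prod isPreconnected_univ).image _ (by fun_prop)
  have hES : (closedBall (0 : ℂ) R)ᶜ ⊆ Sᶜ := compl_subset_compl.mpr hR
  obtain ⟨x, hx⟩ : ((closedBall (0 : ℂ) R)ᶜ).Nonempty := by
    rw [nonempty_compl]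
    intro h
    exact NormedSpace.unbounded_univ ℝ ℂ (h ▸ isBounded_closedBall)
  refine isPreconnected_of_forall x fun y hy => ?_
  set U := connectedComponentIn Sᶜ y with hU
  have hUo : IsOpen U := hSc.isOpen_compl.connectedComponentIn
  have hyU : y ∈ U := mem_connectedComponentIn hy
  have hUS : U ⊆ Sᶜ := connectedComponentIn_subset _ _
  by_cases hb : U ⊆ closedBall 0 R
  · exfalso
    have := Complex.norm_le_of_forall_mem_frontier_norm_le (isBounded_closedBall.subset hb)
      (f := fun z => p.eval z) (C := c) p.differentiable.diffContOnCl (fun z hz => ?_)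
      (subset_closure hyU)
    · exact hy this
    · by_contra hz'
      have hzS : z ∈ Sᶜ := hz'
      have hV : IsOpen (connectedComponentIn Sᶜ z) := hSc.isOpen_compl.connectedComponentIn
      obtain ⟨w, hw1, hw2⟩ := mem_closure_iff.mp hz.1 _ hV (mem_connectedComponentIn hzS)
      have e1 := connectedComponentIn_eq hw1
      have e2 := connectedComponentIn_eq hw2
      apply hz.2
      rw [hUo.interior_eq, hU, e2, ← e1]
      exact mem_connectedComponentIn hzS
  · obtain ⟨w, hw1, hw2⟩ := not_subset.mp hb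
    exact ⟨(closedBall (0 : ℂ) R)ᶜ ∪ U, union_subset hES hUS, Or.inl hx, Or.inr hyU,
      IsPreconnected.union w hw2 hw1 hE isPreconnected_connectedComponentIn⟩

/-- every critical point of `z g(z)` has ratio `> 1` -/
def Good (g : ℂ[X]) : Prop := ∀ z, (derivative (X * g)).eval z = 0 → ‖g.eval 0‖ < ‖g.eval z‖

theorem limit_step {p T : ℂ[X]} (hT : 0 < T.degree) (hT0 : ‖T.eval 0‖ < 1)
    (hcrit : ∀ z, ‖T.eval z‖ = 1 → (derivative T).eval z ≠ 0)
    (hS : ∀ z, ‖p.eval z‖ ≤ ‖p.eval 0‖ → ‖T.eval z‖ ≤ 1 →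
      ‖T.eval z‖ < 1 ∧ (derivative (X * p)).eval z ≠ 0) :
    ∃ g : ℂ[X], 0 < g.degree ∧ Good g := by
  by_contra hno
  push Not at hno
  have hT' : T ≠ 0 := by rintro rfl; simp at hT
  have hTn : 0 < T.natDegree := natDegree_pos_iff_degree_pos.mpr hT
  set d := p.natDegree with hd
  have hdeg : ∀ N, d + 1 ≤ N → p.degree < (T ^ N).degree := by
    intro N hN
    refine degree_lt_degree ?_
    rw [natDegree_pow]
    nlinarith
  have hz : ∀ n : ℕ, ∃ z, (derivative (X * (p + T ^ (n + d + 1)))).eval z = 0 ∧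
      ‖(p + T ^ (n + d + 1)).eval z‖ ≤ ‖(p + T ^ (n + d + 1)).eval 0‖ := by
    intro n
    have h1 : 0 < (p + T ^ (n + d + 1)).degree := by
      rw [degree_add_eq_right_of_degree_lt (hdeg _ (by omega)), ← natDegree_pos_iff_degree_pos,
        natDegree_pow]
      positivity
    have := hno _ h1
    unfold Good at this
    push Not at this
    exact this
  choose z hz1 hz2 using hz
  have hz3 : ∀ n, ‖T.eval (z n)‖ ^ (n + d + 1) ≤ ‖p.eval (z n)‖ + (‖p.eval 0‖ + 1) := by
    intro n
    have a := hz2 n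
    rw [eval_add, eval_add, eval_pow, eval_pow] at a
    have b := norm_add_le (p.eval 0) (T.eval 0 ^ (n + d + 1))
    have c : ‖T.eval 0 ^ (n + d + 1)‖ ≤ 1 := by
      rw [norm_pow]; exact pow_le_one₀ (norm_nonneg _) hT0.le
    have e := norm_sub_le (p.eval (z n) + T.eval (z n) ^ (n + d + 1)) (p.eval (z n))
    rw [add_sub_cancel_left, norm_pow] at e
    linarith
  -- boundedness
  have hbd : IsBounded {w | ∃ N, d + 1 ≤ N ∧ ‖T.eval w‖ ^ N ≤ ‖p.eval w‖ + (‖p.eval 0‖ + 1)} := by
    have h1 := (isLittleO_cobounded_of_degree_lt (hdeg (d + 1) le_rfl)).def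
      (show (0 : ℝ) < 1 / 2 by norm_num)
    have h2 := (T.tendsto_norm_atTop hT (l := cobounded ℂ) (z := id)
      tendsto_norm_cobounded_atTop).eventually (eventually_gt_atTop (2 * (‖p.eval 0‖ + 1)))
    rw [isBounded_def]
    filter_upwards [h1, h2] with w a b
    rintro ⟨N, hN, hw⟩
    simp only [id] at b
    rw [eval_pow, norm_pow] at a
    have t1 : 1 ≤ ‖T.eval w‖ := by linarith [norm_nonneg (p.eval 0)]
    have t2 := pow_le_pow_right₀ t1 hN
    have t3 := pow_le_pow_right₀ t1 (show 1 ≤ d + 1 by omega)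
    rw [pow_one] at t3
    linarith
  obtain ⟨ζ, -, φ, hφ, hlim⟩ := tendsto_subseq_of_bounded hbd
    (x := z) fun n => ⟨n + d + 1, by omega, hz3 n⟩
  set y := z ∘ φ with hy
  set M : ℕ → ℕ := fun n => φ n + d with hM
  have hMt : Tendsto M atTop atTop := (tendsto_add_atTop_nat d).comp hφ.tendsto_atTop
  have ev : ∀ q : ℂ[X], Tendsto (fun n => q.eval (y n)) atTop (𝓝 (q.eval ζ)) := fun q =>
    (q.continuous.tendsto ζ).comp hlim
  have hcr : ∀ n, (derivative (X * p)).eval (y n) + T.eval (y n) ^ M n *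
      (T.eval (y n) + (M n + 1 : ℂ) * (y n * (derivative T).eval (y n))) = 0 := by
    intro n
    have a := hz1 (φ n)
    rw [mul_add, derivative_add, eval_add, derivative_mul (f := X) (g := T ^ _),
      derivative_pow_succ] at a
    simp only [derivative_X, eval_add, eval_mul, eval_pow, eval_X, eval_one, eval_natCast,
      one_mul, map_add, map_one, map_natCast] at a
    simp only [hM, hy, Function.comp, eval_mul, derivative_mul, derivative_X, eval_add, eval_X,
      one_mul] at a ⊢
    linear_combination a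
  have hle : ∀ n, ‖p.eval (y n) + T.eval (y n) ^ M n * T.eval (y n)‖ ≤
      ‖p.eval 0 + T.eval 0 ^ M n * T.eval 0‖ := by
    intro n
    have a := hz2 (φ n)
    rw [eval_add, eval_add, eval_pow, eval_pow, pow_succ, pow_succ] at a
    exact a
  -- small powers give the limit inequality
  have fin : Tendsto (fun n => T.eval (y n) ^ M n) atTop (𝓝 0) → ‖p.eval ζ‖ ≤ ‖p.eval 0‖ := by
    intro h
    have l1 := ((ev p).add (h.mul (ev T))).norm
    have l2 := ((tendsto_const_nhds (x := p.eval 0)).add
      (((tendsto_pow_atTop_nhds_zero_of_norm_lt_one hT0).comp hMt).mul_const (T.eval 0))).norm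
    simp only [zero_mul, add_zero] at l1 l2
    exact le_of_tendsto_of_tendsto' l1 l2 hle
  rcases lt_trichotomy ‖T.eval ζ‖ 1 with h | h | h
  · obtain ⟨r, hr1, hr2⟩ := exists_between h
    have hr0 : 0 ≤ r := (norm_nonneg _).trans hr1.le
    have hev := (ev T).norm.eventually (gt_mem_nhds hr1)
    have t1 : Tendsto (fun n => T.eval (y n) ^ M n) atTop (𝓝 0) := by
      refine squeeze_zero_norm' ?_ ((tendsto_pow_atTop_nhds_zero_of_lt_one hr0 hr2).comp hMt)
      filter_upwards [hev] with n hn
      rw [norm_pow]; exact pow_le_pow_left₀ (norm_nonneg _) hn.le _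
    have t2 : Tendsto (fun n => (M n : ℂ) * T.eval (y n) ^ M n) atTop (𝓝 0) := by
      refine squeeze_zero_norm' ?_
        ((tendsto_self_mul_const_pow_of_lt_one hr0 hr2).comp hMt)
      filter_upwards [hev] with n hn
      rw [norm_mul, norm_pow, Complex.norm_natCast]
      exact mul_le_mul_of_nonneg_left (pow_le_pow_left₀ (norm_nonneg _) hn.le _) (by positivity)
    have t3 := (ev (derivative (X * p))).add ((t1.mul (ev T)).add
      ((t2.add t1).mul (hlim.mul (ev (derivative T)))))
    simp only [zero_mul, add_zero] at t3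
    refine (hS ζ (fin t1) h.le).2 (tendsto_nhds_unique t3 ?_)
    refine tendsto_const_nhds.congr fun n => ?_
    linear_combination -hcr n
  · have hζ : ζ ≠ 0 := by rintro rfl; linarith
    have hinv : Tendsto (fun n => ((M n : ℂ) + 1)⁻¹) atTop (𝓝 0) := by
      have := (tendsto_one_div_add_atTop_nhds_zero_nat (𝕜 := ℂ)).comp hMt
      simpa [Function.comp_def] using this
    have hne : ∀ n, (M n : ℂ) + 1 ≠ 0 := fun n => by exact_mod_cast Nat.succ_ne_zero (M n)
    have hu := ((ev T).mul hinv).add (hlim.mul (ev (derivative T)))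
    simp only [mul_zero, zero_add] at hu
    have hu0 : ζ * (derivative T).eval ζ ≠ 0 := mul_ne_zero hζ (hcrit ζ h)
    have t0 := (((ev (derivative (X * p))).mul hinv).neg).div hu hu0
    simp only [mul_zero, neg_zero, zero_div] at t0
    have t1 : Tendsto (fun n => T.eval (y n) ^ M n) atTop (𝓝 0) := by
      refine t0.congr' ?_
      filter_upwards [hu.eventually_ne hu0] with n hn
      simp only [Pi.div_apply]
      rw [div_eq_iff hn]
      have := hne n
      field_simp
      linear_combination -hcr n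
    exact absurd (hS ζ (fin t1) h.le).1 (by rw [h]; exact lt_irrefl _)
  · obtain ⟨r, hr1, hr2⟩ := exists_between h
    have hev := (ev T).norm.eventually (lt_mem_nhds hr2)
    have hev2 := (ev p).norm.eventually (gt_mem_nhds (lt_add_one _))
    have hev3 := ((tendsto_pow_atTop_atTop_of_one_lt hr1).comp hMt).eventually
      (eventually_gt_atTop (‖p.eval ζ‖ + 1 + (‖p.eval 0‖ + 1)))
    obtain ⟨n, ⟨a, b⟩, c⟩ := ((hev.and hev2).and hev3).exists
    have e := hz3 (φ n)
    have e2 : r ^ M n ≤ ‖T.eval (y n)‖ ^ (φ n + d + 1) :=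
      (pow_le_pow_right₀ hr1.le (Nat.le_succ _)).trans (pow_le_pow_left₀ (by linarith) a.le _)
    simp only [Function.comp, hy] at a b c e2
    linarith

theorem exists_good : ∃ g : ℂ[X], 0 < g.degree ∧ Good g := by
  classical
  obtain ⟨p, K, O, hK, hO, hOK, h0, hp⟩ := exists_local
  have hpd : 0 < p.degree := by
    by_contra h
    rw [eq_C_of_degree_le_zero (not_lt.mp h)] at hp
    have e : O = K := hOK.antisymm fun z hz => (hp z hz (by simp)).1
    rcases isClopen_iff.mp (⟨hK.isClosed, e ▸ hO⟩ : IsClopen K) with h1 | h1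
    · rw [h1] at h0; exact h0
    · exact NormedSpace.unbounded_univ ℝ ℂ (h1 ▸ hK.isBounded)
  set S := {z | ‖p.eval z‖ ≤ ‖p.eval 0‖} with hS
  by_cases hSK : S ⊆ K
  · exact ⟨p, hpd, fun z hz => lt_of_not_ge fun h => (hp z (hSK h) h).2 hz⟩
  obtain ⟨s, hs1, hs2⟩ := not_subset.mp hSK
  set f : ℂ → ℂ := fun z => if z ∈ K then 0 else 2 with hf
  have hfd : ∀ z ∈ S, DifferentiableAt ℂ f z := by
    intro z hz
    by_cases h : z ∈ K
    · refine (differentiableAt_const (0 : ℂ)).congr_of_eventuallyEq ?_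
      filter_upwards [hO.mem_nhds (hp z h hz).1] with w hw
      simp [hf, hOK hw]
    · refine (differentiableAt_const (2 : ℂ)).congr_of_eventuallyEq ?_
      filter_upwards [hK.isClosed.isOpen_compl.mem_nhds h] with w hw
      simp only [hf]; rw [if_neg hw]
  obtain ⟨T, hT⟩ := Pool.Agent.Lib.Mergelyan.mergelyan (isCompact_sub hpd _) (preconn_compl hpd _)
    (f := f) (fun z hz => (hfd z hz).continuousAt.continuousWithinAt)
    (fun z hz => (hfd z (interior_subset hz)).differentiableWithinAt) (1 / 4) (by norm_num)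
  have hin : ∀ z ∈ S, z ∈ K → ‖T.eval z‖ ≤ 1 / 4 := fun z hz h => by
    simpa [hf, h] using hT z hz
  have hout : ∀ z ∈ S, z ∉ K → 7 / 4 ≤ ‖T.eval z‖ := fun z hz h => by
    have a := hT z hz
    simp only [hf, if_neg h] at a
    have b := norm_sub_norm_le (2 : ℂ) (T.eval z)
    simp only [Complex.norm_ofNat] at b
    linarith
  have h0S : (0 : ℂ) ∈ S := le_refl ‖p.eval 0‖
  have hTd : 0 < T.degree := by
    by_contra h
    have a := hin 0 h0S h0
    have b := hout s hs1 hs2
    rw [eq_C_of_degree_le_zero (not_lt.mp h), eval_C] at a b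
    linarith
  have hT' : derivative T ≠ 0 := by
    intro h
    have := derivative_eq_zero.mp h
    exact absurd (natDegree_pos_iff_degree_pos.mpr hTd) (by omega)
  obtain ⟨l, hl1, hl2⟩ := (Ioo_infinite (show (1 / 2 : ℝ) < 1 by norm_num)).exists_notMem_finset
    ((derivative T).roots.toFinset.image fun c => ‖T.eval c‖)
  have hl0 : 0 < l := by linarith [hl1.1]
  have hn : ∀ z, ‖(C ((l : ℂ)⁻¹) * T).eval z‖ = ‖T.eval z‖ / l := fun z => by
    rw [eval_mul, eval_C, norm_mul, norm_inv, norm_real, Real.norm_eq_abs, abs_of_pos hl0]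
    ring
  have hlc : ((l : ℂ)⁻¹) ≠ 0 := inv_ne_zero (by exact_mod_cast hl0.ne')
  refine limit_step (p := p) (T := C ((l : ℂ)⁻¹) * T) (by rwa [degree_C_mul hlc]) ?_ ?_ ?_
  · rw [hn, div_lt_one hl0]; linarith [hin 0 h0S h0, hl1.1]
  · intro z hz h
    rw [hn, div_eq_one_iff_eq hl0.ne'] at hz
    rw [derivative_C_mul, eval_mul, eval_C, mul_eq_zero] at h
    apply hl2
    refine Finset.mem_image.mpr ⟨z, ?_, hz⟩
    rw [Multiset.mem_toFinset, mem_roots hT']
    exact h.resolve_left hlc
  · intro z hz h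
    rw [hn, div_le_one hl0] at h
    have hzK : z ∈ K := by
      by_contra h'
      linarith [hout z hz h', hl1.2]
    refine ⟨?_, (hp z hzK hz).2⟩
    rw [hn, div_lt_one hl0]; linarith [hin z hz hzK, hl1.1]

end Pool.Agent.P.MP_c3cac0_an.Sm
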